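import Pool.Agent.Work.MP_9ec5dc_an.PartB

set_option autoImplicit false

namespace Pool.Agent.Work.MP_9ec5dc_an

open Polynomial Finset Filter

theorem growth (V : ℕ → ℝ) (hV : ∀ n, 0 ≤ V n)
    (hlim : Tendsto (fun n : ℕ => V n ^ (1 / ((n:ℝ) * ((n:ℝ) - 1) / 2))) atTop (nhds 1))
    (q : ℝ) (hq0 : 0 < q) (hq1 : q < 1) (m0 : ℕ) :
    ∃ m, m0 ≤ m ∧ 0 < V m ∧ 0 < V (m+1) ∧ q^m * V m ≤ V (m+1) := by
  have hpos : ∀ᶠ n : ℕ in atTop, 0 < V n := by
    filter_upwards [hlim.eventually (lt_mem_nhds (zero_lt_one)), eventually_ge_atTop 2]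
      with n hn hn2
    refine lt_of_le_of_ne (hV n) (fun h => ?_)
    rw [← h] at hn
    have h2 : (2:ℝ) ≤ n := by exact_mod_cast hn2
    have h3 : (n:ℝ) * ((n:ℝ) - 1) / 2 ≠ 0 := by
      apply ne_of_gt
      apply div_pos (mul_pos (by linarith) (by linarith)) (by norm_num)
    rw [Real.zero_rpow (one_div_ne_zero h3)] at hn
    exact lt_irrefl _ hn
  obtain ⟨m1, hm1⟩ := eventually_atTop.mp hpos
  by_contra hcon
  push Not at hcon
  set M := max m0 (max m1 2) with hM
  have hM0 : m0 ≤ M := le_max_left _ _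
  have hM1 : m1 ≤ M := (le_max_left _ _).trans (le_max_right _ _)
  have hM2 : 2 ≤ M := (le_max_right _ _).trans (le_max_right _ _)
  let t : ℕ → ℝ := fun m => (m:ℝ) * ((m:ℝ) - 1) / 2
  have ht : ∀ m, t (m+1) = t m + m := by
    intro m; simp only [t]; push_cast; ring
  set C := V M * q ^ (-(t M)) with hC
  have hCpos : 0 < C := mul_pos (hm1 M hM1) (Real.rpow_pos_of_pos hq0 _)
  have hbound : ∀ m, M ≤ m → V m ≤ C * q ^ (t m) := by
    intro m hm
    induction m, hm using Nat.le_induction with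
    | base =>
      rw [hC, mul_assoc, ← Real.rpow_add hq0]
      simp
    | succ m hm ih =>
      have h1 := hcon m (hM0.trans hm) (hm1 m (hM1.trans hm)) (hm1 (m+1) (by omega))
      rw [ht, Real.rpow_add hq0, Real.rpow_natCast]
      have h2 : q^m * V m ≤ q^m * (C * q ^ t m) :=
        mul_le_mul_of_nonneg_left ih (pow_nonneg hq0.le _)
      calc V (m+1) ≤ q^m * (C * q ^ t m) := h1.le.trans h2
        _ = C * (q ^ t m * q ^ m) := by ring
  have htpos : ∀ m, M ≤ m → 0 < t m := by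
    intro m hm
    have h2 : (2:ℝ) ≤ m := by exact_mod_cast hM2.trans hm
    exact div_pos (mul_pos (by linarith) (by linarith)) (by norm_num)
  have hle : ∀ᶠ m : ℕ in atTop, V m ^ (1 / ((m:ℝ) * ((m:ℝ) - 1) / 2)) ≤ C ^ (1 / t m) * q := by
    filter_upwards [eventually_ge_atTop M] with m hm
    have h1 := hbound m hm
    have h2 := htpos m hm
    calc V m ^ (1 / ((m:ℝ) * ((m:ℝ) - 1) / 2)) = V m ^ (1 / t m) := rfl
      _ ≤ (C * q ^ t m) ^ (1 / t m) := Real.rpow_le_rpow (hV m) h1 (by positivity)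
      _ = C ^ (1 / t m) * q := by
        rw [Real.mul_rpow hCpos.le (Real.rpow_nonneg hq0.le _), ← Real.rpow_mul hq0.le,
          mul_one_div_cancel h2.ne', Real.rpow_one]
  have htlim : Tendsto t atTop atTop := by
    have h1 : Tendsto (fun m : ℕ => (m:ℝ)) atTop atTop := tendsto_natCast_atTop_atTop
    refine tendsto_atTop_mono' atTop ?_ h1
    filter_upwards [eventually_ge_atTop 3] with m hm
    have h3 : (3:ℝ) ≤ m := by exact_mod_cast hm
    simp only [t]
    nlinarith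
  have hlim2 : Tendsto (fun m => C ^ (1 / t m) * q) atTop (nhds (C ^ (0:ℝ) * q)) := by
    refine Tendsto.mul_const _ ?_
    have h1 : Tendsto (fun m => 1 / t m) atTop (nhds 0) := by
      simp only [one_div]
      exact tendsto_inv_atTop_zero.comp htlim
    exact (Real.continuousAt_const_rpow hCpos.ne').tendsto.comp h1
  rw [Real.rpow_zero, one_mul] at hlim2
  have := le_of_tendsto_of_tendsto hlim hlim2 hle
  linarith

theorem main_sq (E : Set ℂ) (hE : IsCompact E)
    (hd : Tendsto (nthDiameter E) atTop (nhds 1)) (n : ℕ) (hn : 2 ≤ n) :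
    (n:ℝ)^n ≤ maxDistProd E n ^ 2 := by
  have hgrow := growth (maxDistProd E) (max_nonneg E) hd
  -- nonempty
  have hne : E.Nonempty := by
    obtain ⟨m, _, _, h2, _⟩ := hgrow (1/2) (by norm_num) (by norm_num) 0
    by_contra hemp
    rw [Set.not_nonempty_iff_eq_empty] at hemp
    have h3 : {w : Fin (m+1) → ℂ | ∀ i, w i ∈ E} = ∅ := by
      rw [hemp]
      ext w
      simp only [Set.mem_empty_iff_false]
      constructor
      · intro hw
        exact (hw 0).elim
      · intro hw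
        exact hw.elim
    rw [maxDistProd, h3, Set.image_empty, Real.sSup_empty] at h2
    exact lt_irrefl _ h2
  by_contra hlt
  push Not at hlt
  have hnn : 0 < (n:ℝ)^n := by positivity
  set M' := (maxDistProd E n ^ 2 + (n:ℝ)^n) / 2 with hM'
  have hM0 : 0 < M' := by positivity
  have hM1 : M' < (n:ℝ)^n := by rw [hM']; linarith
  have hM2 : maxDistProd E n ^ 2 < M' := by rw [hM']; linarith
  -- neighbourhood
  set K := {w : Fin n → ℂ | ∀ i, w i ∈ E} with hK
  have hKc : IsCompact K := compact_tuples hE n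
  have hU : IsOpen {w : Fin n → ℂ | ‖W w‖ < M'} :=
    isOpen_lt (continuous_W n).norm continuous_const
  have hKU : K ⊆ {w : Fin n → ℂ | ‖W w‖ < M'} := by
    intro w hw
    simp only [Set.mem_ofPred_eq]
    rw [distProd_sq]
    have h1 := le_max hE n w hw
    have h2 := distProd_nonneg w
    refine lt_of_le_of_lt ?_ hM2
    exact pow_le_pow_left₀ h2 h1 2
  obtain ⟨δ, hδ, hδU⟩ := hKc.exists_cthickening_subset_open hU hKU
  set F := Metric.cthickening δ E with hF
  have hFM : ∀ z : Fin n → ℂ, (∀ i, z i ∈ F) → ‖W z‖ ≤ M' := by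
    intro z hz
    have h1 : ∀ i, ∃ e ∈ E, dist (z i) e ≤ δ := by
      intro i
      have h2 := hz i
      rw [hF, hE.cthickening_eq_biUnion_closedBall hδ.le] at h2
      simp only [Set.mem_iUnion, Metric.mem_closedBall] at h2
      obtain ⟨e, he, h3⟩ := h2
      exact ⟨e, he, h3⟩
    choose e he hed using h1
    have h4 : dist z e ≤ δ := (dist_pi_le_iff hδ.le).mpr hed
    have h5 : z ∈ Metric.cthickening δ K := Metric.mem_cthickening_of_dist_le z e δ K he h4
    exact (hδU h5).le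
  set D := n * n with hD
  have hDpos : 0 < D := by rw [hD]; positivity
  -- choice of a
  obtain ⟨a, ha1, ha2⟩ : ∃ a : ℝ, 1 < a ∧ a ^ (2 * D * n) * M' < (n:ℝ)^n := by
    have h1 : Tendsto (fun a : ℝ => a ^ (2 * D * n) * M') (nhds 1) (nhds (1 ^ (2 * D * n) * M')) :=
      Continuous.tendsto (by fun_prop) 1
    rw [one_pow, one_mul] at h1
    have h2 : ∀ᶠ a in nhdsWithin (1:ℝ) (Set.Ioi 1), a ^ (2 * D * n) * M' < (n:ℝ)^n :=
      (h1.eventually (gt_mem_nhds hM1)).filter_mono nhdsWithin_le_nhds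
    obtain ⟨a, h3, h4⟩ := (h2.and self_mem_nhdsWithin).exists
    exact ⟨a, h4, h3⟩
  have ha0 : 0 < a := by linarith
  set κ := a ^ (2 * D) with hκ
  have hκ1 : 1 ≤ κ := one_le_pow₀ ha1.le
  -- large m
  have hlarge : ∀ᶠ m : ℕ in atTop, ((m:ℝ) + 1) * (δ⁻¹ * a ^ (2 * D)) ≤ a ^ m := by
    have h1 : Tendsto (fun m : ℕ => (m:ℝ) ^ 1 / a ^ m) atTop (nhds 0) :=
      tendsto_pow_const_div_const_pow_of_one_lt 1 ha1
    have h2 : Tendsto (fun m : ℕ => (m:ℝ) ^ 0 / a ^ m) atTop (nhds 0) :=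
      tendsto_pow_const_div_const_pow_of_one_lt 0 ha1
    have h3 := h1.add h2
    rw [add_zero] at h3
    have hpos : (0:ℝ) < (δ⁻¹ * a ^ (2 * D))⁻¹ := by positivity
    filter_upwards [h3.eventually (gt_mem_nhds hpos)] with m hm
    rw [pow_one, pow_zero, ← add_div] at hm
    rw [div_lt_iff₀ (by positivity)] at hm
    have hb : (0:ℝ) < δ⁻¹ * a ^ (2 * D) := by positivity
    have h4 : ((m:ℝ) + 1) * (δ⁻¹ * a ^ (2 * D)) <
        ((δ⁻¹ * a ^ (2 * D))⁻¹ * a ^ m) * (δ⁻¹ * a ^ (2 * D)) := mul_lt_mul_of_pos_right hm hb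
    refine h4.le.trans (le_of_eq ?_)
    field_simp
  obtain ⟨m0, hm0⟩ := eventually_atTop.mp hlarge
  obtain ⟨m, hm, hVm, hVm1, hq⟩ := hgrow (a⁻¹) (by positivity) (inv_lt_one_of_one_lt₀ ha1)
    (max m0 D)
  have hmm0 : m0 ≤ m := (le_max_left _ _).trans hm
  have hmD : D ≤ m := (le_max_right _ _).trans hm
  set k := m / D with hk
  have hk0 : k ≠ 0 := by
    rw [hk]
    exact (Nat.div_pos hmD hDpos).ne'
  have hkD : k * D ≤ m := Nat.div_mul_le_self m D
  have hkD' : m < k * D + D := by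
    have := Nat.lt_div_mul_add (a := m) hDpos
    rw [hk]; exact this
  have hκk : ((m:ℝ)+1) * ((a⁻¹ ^ m)⁻¹ * δ⁻¹) ≤ κ ^ k := by
    have h1 := hm0 m hmm0
    have h2 : a ^ (2 * m) ≤ a ^ (2 * D) * κ ^ k := by
      rw [hκ, ← pow_mul, ← pow_add]
      apply pow_le_pow_right₀ ha1.le
      have : 2 * D * k = 2 * (k * D) := by ring
      rw [this]
      omega
    have h3 : (a⁻¹ ^ m)⁻¹ = a ^ m := by rw [inv_pow, inv_inv]
    rw [h3]
    have h4 : 0 < a ^ (2 * D) := by positivity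
    have h5 : (((m:ℝ)+1) * (a ^ m * δ⁻¹)) * a ^ (2 * D) ≤ a ^ (2 * D) * κ ^ k := by
      calc (((m:ℝ)+1) * (a ^ m * δ⁻¹)) * a ^ (2 * D) =
          (((m:ℝ)+1) * (δ⁻¹ * a ^ (2 * D))) * a ^ m := by ring
        _ ≤ a ^ m * a ^ m := mul_le_mul_of_nonneg_right h1 (by positivity)
        _ = a ^ (2 * m) := by rw [two_mul, pow_add]
        _ ≤ _ := h2
    rw [mul_comm (a ^ (2 * D))] at h5
    exact le_of_mul_le_mul_right h5 h4
  -- Fekete points
  obtain ⟨w, hwE, hwmax⟩ := exists_max hE hne (m+1)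
  have hWw : ‖W w‖ = maxDistProd E (m+1) ^ 2 := by rw [distProd_sq, hwmax]
  have hinj : Function.Injective w := by
    intro i j hij
    by_contra hne'
    have h1 : W w = 0 := by
      rw [W]
      apply Finset.prod_eq_zero (mem_univ i)
      apply Finset.prod_eq_zero (mem_univ j)
      rw [if_neg hne', hij, sub_self]
    rw [h1, norm_zero] at hWw
    have := pow_pos hVm1 2
    linarith
  have hw : ∀ p, a⁻¹ ^ m ≤ ∏ i : Fin m, ‖w p - w (p.succAbove i)‖ := by
    intro p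
    have h1 := W_succAbove w p
    have h2 : ‖W (fun i => w (p.succAbove i))‖ ≤ maxDistProd E m ^ 2 := by
      rw [distProd_sq]
      exact pow_le_pow_left₀ (distProd_nonneg _) (le_max hE m _ (fun i => hwE _)) 2
    set PP := ∏ i : Fin m, ‖w p - w (p.succAbove i)‖ with hPP
    have hPP0 : 0 ≤ PP := Finset.prod_nonneg (fun _ _ => norm_nonneg _)
    have h3 : maxDistProd E (m+1) ^ 2 ≤ (PP * maxDistProd E m)^2 := by
      rw [← hWw, h1, mul_pow]
      exact mul_le_mul_of_nonneg_left h2 (by positivity)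
    have h4 : maxDistProd E (m+1) ≤ PP * maxDistProd E m :=
      (pow_le_pow_iff_left₀ hVm1.le (mul_nonneg hPP0 hVm.le) two_ne_zero).mp h3
    exact le_of_mul_le_mul_right (hq.trans h4) hVm
  set P := Lagrange.nodal univ w with hP
  have hPm : P.Monic := Lagrange.nodal_monic
  have hPdeg : P.natDegree ≠ 0 := by
    rw [hP, Lagrange.natDegree_nodal, Finset.card_univ, Fintype.card_fin]
    omega
  set L : Set ℂ := {x | ‖P.eval x‖ = 1} with hL
  have hEF : E ⊆ F := Metric.self_subset_cthickening E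
  have hBW : ∀ x ∈ L, x ∉ F → ∀ Q : ℂ[X], Q.natDegree ≤ n * n → ∀ S : ℝ,
      (∀ y ∈ E, ‖Q.eval y‖ ≤ S) → ‖Q.eval x‖ ≤ κ * S := by
    intro x hxL hxF Q hQ S hS
    refine bw_bound w hinj (a⁻¹ ^ m) δ κ (by positivity) hδ (by positivity) hw D k hk0 hkD hκk x
      ?_ hxL Q hQ S (fun p => hS _ (hwE p))
    intro p
    by_contra hlt'
    push Not at hlt'
    apply hxF
    apply Metric.mem_cthickening_of_dist_le x (w p) δ E (hwE p)
    rw [dist_eq_norm]
    exact hlt'.le
  have hfin := coord E F hEF L n κ M' hκ1 hM0.le hFM hBW univ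
  have hA := theoremA P hPm hPdeg n (by omega) (κ ^ n * M') (by positivity) (by
    intro z hz
    have := hfin z (fun i _ => hz i) (fun i hi => absurd (mem_univ i) hi)
    rwa [Finset.card_univ, Fintype.card_fin] at this)
  have h9 : κ ^ n * M' = a ^ (2 * D * n) * M' := by rw [hκ, ← pow_mul]
  linarith

theorem main (E : Set ℂ) (hE : IsCompact E)
    (hd : Tendsto (nthDiameter E) atTop (nhds 1)) (n : ℕ) (hn : 2 ≤ n) :
    (∃ w : Fin n → ℂ, (∀ i, w i ∈ E) ∧ (n:ℝ) ^ ((n:ℝ)/2) ≤ distProd w) ∧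
    (n:ℝ) ^ (1 / ((n:ℝ) - 1)) ≤ nthDiameter E n := by
  have h := main_sq E hE hd n hn
  have hn' : (2:ℝ) ≤ n := by exact_mod_cast hn
  have hn0 : (0:ℝ) ≤ n := by linarith
  have h1 : ((n:ℝ) ^ ((n:ℝ)/2)) ^ 2 = (n:ℝ)^n := by
    rw [← Real.rpow_natCast, ← Real.rpow_mul hn0, ← Real.rpow_natCast]
    congr 1
    push_cast
    ring
  have h2 : (n:ℝ) ^ ((n:ℝ)/2) ≤ maxDistProd E n := by
    rw [← h1] at h
    exact (pow_le_pow_iff_left₀ (Real.rpow_nonneg hn0 _) (max_nonneg E n) two_ne_zero).mp h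
  have hpos : (0:ℝ) < (n:ℝ) ^ ((n:ℝ)/2) := Real.rpow_pos_of_pos (by linarith) _
  have hne : E.Nonempty := by
    by_contra hemp
    rw [Set.not_nonempty_iff_eq_empty] at hemp
    have h3 : {w : Fin n → ℂ | ∀ i, w i ∈ E} = ∅ := by
      rw [hemp]
      ext w
      simp only [Set.mem_empty_iff_false]
      constructor
      · intro hw
        exact (hw ⟨0, by omega⟩).elim
      · intro hw
        exact hw.elim
    rw [maxDistProd, h3, Set.image_empty, Real.sSup_empty] at h2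
    linarith
  constructor
  · obtain ⟨w, hw, hmax⟩ := exists_max hE hne n
    exact ⟨w, hw, by rw [hmax]; exact h2⟩
  · rw [nthDiameter]
    have h3 : 0 ≤ 1 / ((n:ℝ) * ((n:ℝ) - 1) / 2) := by
      apply one_div_nonneg.mpr
      apply div_nonneg (mul_nonneg hn0 (by linarith)) (by norm_num)
    refine le_trans (le_of_eq ?_) (Real.rpow_le_rpow hpos.le h2 h3)
    rw [← Real.rpow_mul hn0]
    congr 1
    have h4 : (n:ℝ) - 1 ≠ 0 := by linarith
    have h5 : (n:ℝ) ≠ 0 := by linarith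
    field_simp

end Pool.Agent.Work.MP_9ec5dc_an
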