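import Mathlib

set_option autoImplicit false

namespace Pool.Agent.Work.MP_9ec5dc_an

open Polynomial Finset Filter Bornology

/-- logarithms of `(w-a)/(w-b)` for points `a, b` of a connected set -/
theorem exists_log (E : Set ℂ) (hE : IsPreconnected E) (Ω : Set ℂ) (δ : ℝ) (hδ : 0 < δ)
    (hΩ : ∀ w ∈ Ω, ∀ a ∈ E, δ ≤ ‖w - a‖) {a b : ℂ} (ha : a ∈ E) (hb : b ∈ E) :
    ∃ g : ℂ → ℂ, DifferentiableOn ℂ g Ω ∧ (∀ w ∈ Ω, (w - b) * Complex.exp (g w) = w - a) ∧
      Tendsto g (cobounded ℂ) (nhds 0) := by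
  have key : ∀ a ∈ E, ∀ b ∈ E, ‖a - b‖ < δ →
      ∃ g : ℂ → ℂ, DifferentiableOn ℂ g Ω ∧ (∀ w ∈ Ω, (w - b) * Complex.exp (g w) = w - a) ∧
      Tendsto g (cobounded ℂ) (nhds 0) := by
    intro a ha b hb hab
    have hslit : ∀ w ∈ Ω, (1 - (a - b) * (w - b)⁻¹) ∈ Complex.slitPlane ∧ w - b ≠ 0 := by
      intro w hw
      have h1 := hΩ w hw b hb
      have h2 : 0 < ‖w - b‖ := lt_of_lt_of_le hδ h1
      have h3 : ‖(a - b) * (w - b)⁻¹‖ < 1 := by
        rw [norm_mul, norm_inv, ← div_eq_mul_inv, div_lt_one h2]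
        exact lt_of_lt_of_le hab h1
      refine ⟨?_, norm_pos_iff.mp h2⟩
      have := Complex.mem_slitPlane_of_norm_lt_one (z := -((a - b) * (w - b)⁻¹)) (by rwa [norm_neg])
      rwa [← sub_eq_add_neg] at this
    refine ⟨fun w => Complex.log (1 - (a - b) * (w - b)⁻¹), ?_, ?_, ?_⟩
    · intro w hw
      obtain ⟨h1, h2⟩ := hslit w hw
      apply DifferentiableAt.differentiableWithinAt
      have h4 : DifferentiableAt ℂ (fun w => (w - b)⁻¹) w :=
        DifferentiableAt.inv (by fun_prop) h2
      have h5 : DifferentiableAt ℂ (fun w => 1 - (a - b) * (w - b)⁻¹) w := by fun_prop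
      exact h5.clog h1
    · intro w hw
      obtain ⟨h1, h2⟩ := hslit w hw
      rw [Complex.exp_log (Complex.slitPlane_ne_zero h1)]
      field_simp
      ring
    · have h1 : Tendsto (fun w : ℂ => 1 - (a - b) * (w - b)⁻¹) (cobounded ℂ)
          (nhds (1 - (a - b) * 0)) := by
        apply Tendsto.const_sub
        apply Tendsto.const_mul
        exact tendsto_inv₀_cobounded.comp (tendsto_sub_const_cobounded b)
      rw [mul_zero, sub_zero] at h1
      have h2 := (continuousAt_clog (x := 1) (by simp)).tendsto.comp h1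
      rw [Complex.log_one] at h2
      exact h2
  refine hE.induction₂' (fun a b => ∃ g : ℂ → ℂ, DifferentiableOn ℂ g Ω ∧
    (∀ w ∈ Ω, (w - b) * Complex.exp (g w) = w - a) ∧ Tendsto g (cobounded ℂ) (nhds 0))
    ?_ ?_ ha hb
  · intro x hx
    have h1 : ∀ᶠ y in nhdsWithin x E, ‖x - y‖ < δ := by
      apply Filter.Eventually.filter_mono nhdsWithin_le_nhds
      have : ContinuousAt (fun y => ‖x - y‖) x := by fun_prop
      exact this.eventually (gt_mem_nhds (by simpa using hδ))
    filter_upwards [h1, self_mem_nhdsWithin] with y hy hyE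
    exact ⟨key x hx y hyE hy, key y hyE x hx (by rwa [norm_sub_rev])⟩
  · rintro x y z _ _ _ ⟨g1, h1, h2, h3⟩ ⟨g2, h4, h5, h6⟩
    refine ⟨fun w => g1 w + g2 w, h1.add h4, ?_, ?_⟩
    · intro w hw
      rw [Complex.exp_add, mul_comm (Complex.exp (g1 w)), ← mul_assoc, h5 w hw, h2 w hw]
    · simpa using h3.add h6

theorem preconnected_ext (r0 : ℝ) : IsPreconnected {x : ℂ | r0 < ‖x‖} := by
  have h1 : {x : ℂ | r0 < ‖x‖} =
      (fun p : ℝ × ℝ => (p.1 : ℂ) * Complex.exp (p.2 * Complex.I)) '' (Set.Ioi r0 ×ˢ Set.univ) := by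
    ext x
    simp only [Set.mem_ofPred_eq, Set.mem_image, Set.mem_prod, Set.mem_Ioi, Set.mem_univ, and_true,
      Prod.exists]
    constructor
    · intro hx
      exact ⟨‖x‖, x.arg, hx, Complex.norm_mul_exp_arg_mul_I x⟩
    · rintro ⟨a, b, ha, rfl⟩
      rw [norm_mul, Complex.norm_exp_ofReal_mul_I, mul_one, Complex.norm_real, Real.norm_eq_abs]
      exact lt_of_lt_of_le ha (le_abs_self a)
  rw [h1]
  apply IsPreconnected.image
  · exact (isPreconnected_Ioi).prod isPreconnected_univ
  · fun_prop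

theorem exists_conformal (E : Set ℂ) (hEc : IsCompact E) (hE : IsPreconnected E) (m : ℕ)
    (hm : 0 < m) (z : Fin m → ℂ) (hz : ∀ i, z i ∈ E) (ρ r0 : ℝ) (hρ : 0 < ρ) (hr0 : ρ < r0)
    (hP : ∀ x ∈ E, ∏ i, ‖x - z i‖ ≤ ρ ^ m) (ω : ℂ) (hω : IsPrimitiveRoot ω m) :
    ∃ f : ℂ → ℂ, DifferentiableOn ℂ f {x | r0 < ‖x‖} ∧
      Tendsto (fun x => f x / x) (cobounded ℂ) (nhds 1) ∧
      ∀ x, r0 < ‖x‖ → (∏ i : Fin m, (X - C (z i))) - C (x ^ m) =
        ∏ i : Fin m, (X - C (f (ω ^ (i:ℕ) * x))) := by
  have hr0pos : 0 < r0 := hρ.trans hr0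
  have hm0 : m ≠ 0 := hm.ne'
  set PP : ℂ[X] := ∏ i : Fin m, (X - C (z i)) with hPP
  have hPPm : PP.Monic := monic_prod_of_monic _ _ (fun i _ => monic_X_sub_C _)
  have hPPdeg : PP.natDegree = m := by
    rw [hPP, natDegree_prod_of_monic _ _ (fun i _ => monic_X_sub_C _)]
    simp
  have hPPdeg' : PP.degree = m := by
    rw [degree_eq_natDegree hPPm.ne_zero, hPPdeg]
  have hPPeval : ∀ w, PP.eval w = ∏ i, (w - z i) := by
    intro w; rw [hPP, eval_prod]; simp
  have hPPtends : Tendsto (fun w => ‖PP.eval w‖) (cobounded ℂ) atTop := by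
    apply Polynomial.tendsto_norm_atTop
    · rw [hPPdeg']; exact_mod_cast hm
    · exact tendsto_norm_cobounded_atTop
  set Ω : Set ℂ := {w | r0 ^ m < ‖PP.eval w‖} with hΩdef
  have hΩo : IsOpen Ω := isOpen_lt continuous_const (by fun_prop)
  have hΩcob : Ω ∈ cobounded ℂ := hPPtends.eventually (eventually_gt_atTop _)
  -- distance
  obtain ⟨δ, hδ, hδΩ⟩ : ∃ δ : ℝ, 0 < δ ∧ ∀ w ∈ Ω, ∀ a ∈ E, δ ≤ ‖w - a‖ := by
    have hU : IsOpen {w : ℂ | ‖PP.eval w‖ < r0 ^ m} := isOpen_lt (by fun_prop) continuous_const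
    have hEU : E ⊆ {w : ℂ | ‖PP.eval w‖ < r0 ^ m} := by
      intro x hx
      simp only [Set.mem_ofPred_eq]
      rw [hPPeval, norm_prod]
      exact lt_of_le_of_lt (hP x hx) (pow_lt_pow_left₀ hr0 hρ.le hm0)
    obtain ⟨δ, hδ, hsub⟩ := hEc.exists_cthickening_subset_open hU hEU
    refine ⟨δ, hδ, ?_⟩
    intro w hw a ha
    by_contra hlt
    push Not at hlt
    have h1 : w ∈ Metric.cthickening δ E := by
      apply Metric.mem_cthickening_of_dist_le w a δ E ha
      rw [dist_eq_norm]
      exact hlt.le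
    have h2 := hsub h1
    simp only [Set.mem_ofPred_eq] at h2
    have h3 : r0 ^ m < ‖PP.eval w‖ := hw
    linarith
  set a := z ⟨0, hm⟩ with ha
  have haE : a ∈ E := hz _
  choose g hg1 hg2 hg3 using fun i : Fin m => exists_log E hE Ω δ hδ hδΩ haE (hz i)
  let h : ℂ → ℂ := fun w => (w - a) * Complex.exp (-(∑ i, g i w) / m)
  have hmC : (m : ℂ) ≠ 0 := by exact_mod_cast hm0
  have hpow : ∀ w ∈ Ω, h w ^ m = PP.eval w := by
    intro w hw
    have h1 : PP.eval w * Complex.exp (∑ i, g i w) = (w - a) ^ m := by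
      rw [hPPeval, Complex.exp_sum, ← Finset.prod_mul_distrib]
      rw [Finset.prod_congr rfl (fun i _ => hg2 i w hw)]
      simp
    simp only [h]
    rw [mul_pow, ← Complex.exp_nat_mul, ← h1, mul_assoc, ← Complex.exp_add]
    have h2 : ∑ i, g i w + (m:ℂ) * (-(∑ i, g i w) / m) = 0 := by
      field_simp
      ring
    rw [h2, Complex.exp_zero, mul_one]
  have hdiff : DifferentiableOn ℂ h Ω := by
    have h1 : DifferentiableOn ℂ (fun w => ∑ i, g i w) Ω :=
      DifferentiableOn.fun_sum (fun i _ => hg1 i)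
    apply DifferentiableOn.mul (by fun_prop)
    exact (h1.neg.div_const _).cexp
  have hhnorm : ∀ w ∈ Ω, r0 < ‖h w‖ := by
    intro w hw
    have h1 : r0 ^ m < ‖h w‖ ^ m := by
      rw [← norm_pow, hpow w hw]
      exact hw
    exact lt_of_pow_lt_pow_left₀ m (norm_nonneg _) h1
  have hhlim : Tendsto (fun w => h w / w) (cobounded ℂ) (nhds 1) := by
    have h1 : Tendsto (fun w : ℂ => (1 - a * w⁻¹) * Complex.exp (-(∑ i, g i w) / m)) (cobounded ℂ)
        (nhds ((1 - a * 0) * Complex.exp (-(∑ i : Fin m, (0:ℂ)) / m))) := by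
      apply Tendsto.mul
      · exact (tendsto_inv₀_cobounded.const_mul a).const_sub 1
      · apply (Complex.continuous_exp.tendsto _).comp
        exact ((tendsto_finsetSum _ (fun i _ => hg3 i)).neg).div_const _
    simp only [mul_zero, sub_zero, Finset.sum_const_zero, neg_zero, zero_div, Complex.exp_zero,
      mul_one] at h1
    refine h1.congr' ?_
    have h2 : ∀ᶠ w in cobounded ℂ, w ≠ 0 := by
      have := tendsto_norm_cobounded_atTop (E := ℂ)
      filter_upwards [this.eventually (eventually_gt_atTop 0)] with w hw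
      exact norm_pos_iff.mp hw
    filter_upwards [h2] with w hw
    simp only [h]
    field_simp
  -- local openness
  have hopen : ∀ w ∈ Ω, nhds (h w) ≤ map h (nhds w) := by
    intro w hw
    have han : AnalyticAt ℂ h w := hdiff.analyticAt (hΩo.mem_nhds hw)
    rcases han.eventually_constant_or_nhds_le_map_nhds with hc | hc
    · exfalso
      have h1 : ∀ᶠ y in nhds w, PP.eval y = (C (h w ^ m)).eval y := by
        filter_upwards [hc, hΩo.mem_nhds hw] with y hy hyΩ
        rw [eval_C, ← hpow y hyΩ, hy]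
      have h2 : Set.Infinite {y | PP.eval y = (C (h w ^ m)).eval y} := infinite_of_mem_nhds w h1
      have h3 := eq_of_infinite_eval_eq _ _ h2
      have h4 := congrArg natDegree h3
      rw [hPPdeg, natDegree_C] at h4
      exact hm0 h4
    · exact hc
  set D : Set ℂ := {x | r0 < ‖x‖} with hD
  have hDo : IsOpen D := isOpen_lt continuous_const continuous_norm
  have hsurj : D ⊆ h '' Ω := by
    apply (preconnected_ext r0).subset_of_closure_inter_subset
    · rw [isOpen_iff_mem_nhds]
      rintro _ ⟨w, hw, rfl⟩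
      apply hopen w hw
      rw [Filter.mem_map]
      filter_upwards [hΩo.mem_nhds hw] with y hy
      exact ⟨y, hy, rfl⟩
    · obtain ⟨w, hw⟩ : Ω.Nonempty := by
        exact Filter.nonempty_of_mem hΩcob
      exact ⟨h w, hhnorm w hw, w, hw, rfl⟩
    · rintro x ⟨hx, hxD⟩
      rw [mem_closure_iff_seq_limit] at hx
      obtain ⟨u, hu, hulim⟩ := hx
      choose w hw hwu using hu
      -- boundedness
      have hbdd : IsBounded (Set.range w) := by
        obtain ⟨Cst, hCst⟩ : ∃ Cst : ℝ, ∀ k, ‖u k‖ ≤ Cst := by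
          obtain ⟨Cst, hC⟩ := (Metric.isBounded_range_of_tendsto u hulim).exists_norm_le
          exact ⟨Cst, fun k => hC _ ⟨k, rfl⟩⟩
        have h1 : {y : ℂ | Cst ^ m < ‖PP.eval y‖} ∈ cobounded ℂ :=
          hPPtends.eventually (eventually_gt_atTop _)
        have h1' : IsBounded ({y : ℂ | Cst ^ m < ‖PP.eval y‖}ᶜ) := isBounded_compl_iff.mpr h1
        refine h1'.subset ?_
        rintro _ ⟨k, rfl⟩
        simp only [Set.mem_compl_iff, Set.mem_ofPred_eq, not_lt]
        rw [← hpow _ (hw k), hwu, norm_pow]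
        exact pow_le_pow_left₀ (norm_nonneg _) (hCst k) m
      obtain ⟨w', _, φ, hφ, hwlim⟩ := tendsto_subseq_of_bounded hbdd (fun k => ⟨k, rfl⟩)
      have h2 : PP.eval w' = x ^ m := by
        have h3 : Tendsto (fun k => PP.eval (w (φ k))) atTop (nhds (PP.eval w')) :=
          (PP.continuous.tendsto w').comp hwlim
        have h4 : Tendsto (fun k => PP.eval (w (φ k))) atTop (nhds (x ^ m)) := by
          have h5 : (fun k => PP.eval (w (φ k))) = fun k => (u (φ k)) ^ m := by
            funext k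
            rw [← hpow _ (hw _), hwu]
          rw [h5]
          exact (hulim.comp hφ.tendsto_atTop).pow m
        exact tendsto_nhds_unique h3 h4
      have hw'Ω : w' ∈ Ω := by
        simp only [hΩdef, Set.mem_ofPred_eq]
        rw [h2, norm_pow]
        exact pow_lt_pow_left₀ hxD hr0pos.le hm0
      refine ⟨w', hw'Ω, ?_⟩
      have h3 : Tendsto (fun k => h (w (φ k))) atTop (nhds (h w')) := by
        have hcont : ContinuousAt h w' := (hdiff.differentiableAt (hΩo.mem_nhds hw'Ω)).continuousAt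
        exact hcont.tendsto.comp hwlim
      have h4 : Tendsto (fun k => h (w (φ k))) atTop (nhds x) := by
        have h5 : (fun k => h (w (φ k))) = fun k => u (φ k) := by
          funext k; rw [hwu]
        rw [h5]
        exact hulim.comp hφ.tendsto_atTop
      exact tendsto_nhds_unique h3 h4
  -- the inverse function
  have hex : ∀ x : ℂ, ∃ w : ℂ, x ∈ D → w ∈ Ω ∧ h w = x := by
    intro x
    by_cases hx : x ∈ D
    · obtain ⟨w, hw, hwx⟩ := hsurj hx
      exact ⟨w, fun _ => ⟨hw, hwx⟩⟩
    · exact ⟨0, fun h => absurd h hx⟩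
  choose f hf using hex
  have hωn : ‖ω‖ = 1 := hω.norm'_eq_one hm0
  have hωD : ∀ x ∈ D, ∀ i : ℕ, ω ^ i * x ∈ D := by
    intro x hx i
    simp only [hD, Set.mem_ofPred_eq] at hx ⊢
    rw [norm_mul, norm_pow, hωn, one_pow, one_mul]
    exact hx
  have hinj : ∀ x ∈ D, Function.Injective (fun i : Fin m => f (ω ^ (i:ℕ) * x)) := by
    intro x hx i j hij
    simp only at hij
    have h1 := (hf _ (hωD x hx i)).2
    have h2 := (hf _ (hωD x hx j)).2
    rw [hij, h2] at h1
    have hx0 : x ≠ 0 := by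
      intro h0
      simp only [hD, Set.mem_ofPred_eq, h0, norm_zero] at hx
      linarith
    have h3 := mul_right_cancel₀ hx0 h1
    exact Fin.ext (hω.pow_inj j.2 i.2 h3).symm
  have hfac : ∀ x ∈ D, PP - C (x ^ m) = ∏ i : Fin m, (X - C (f (ω ^ (i:ℕ) * x))) := by
    intro x hx
    have hlt : (C (x ^ m) : ℂ[X]).degree < PP.degree := by
      rw [hPPdeg']
      refine lt_of_le_of_lt degree_C_le ?_
      exact_mod_cast hm
    have hmon : (PP - C (x ^ m)).Monic := hPPm.sub_of_left hlt
    have hdeg : (PP - C (x ^ m)).degree = (m : WithBot ℕ) := by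
      rw [degree_sub_eq_left_of_degree_lt hlt, hPPdeg']
    have hmon2 : (∏ i : Fin m, (X - C (f (ω ^ (i:ℕ) * x)))).Monic :=
      monic_prod_of_monic _ _ (fun i _ => monic_X_sub_C _)
    have hdeg2 : (∏ i : Fin m, (X - C (f (ω ^ (i:ℕ) * x)))).degree = (m : WithBot ℕ) := by
      rw [degree_eq_natDegree hmon2.ne_zero, natDegree_prod_of_monic _ _ (fun i _ => monic_X_sub_C _)]
      simp
    apply eq_of_degree_le_of_eval_index_eq (univ : Finset (Fin m)) ((hinj x hx).injOn)
    · rw [hdeg]; simp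
    · rw [hdeg, hdeg2]
    · rw [hmon.leadingCoeff, hmon2.leadingCoeff]
    · intro i _
      obtain ⟨h1, h2⟩ := hf _ (hωD x hx i)
      have h3 := hpow _ h1
      rw [h2] at h3
      rw [eval_sub, eval_C, ← h3, mul_pow, ← pow_mul, mul_comm (i:ℕ), pow_mul, hω.pow_eq_one,
        one_pow, one_mul, sub_self, eval_prod]
      symm
      apply Finset.prod_eq_zero (mem_univ i)
      simp
  have hleft : ∀ w ∈ Ω, f (h w) = w := by
    intro w hw
    have hx : h w ∈ D := hhnorm w hw
    have h1 := congrArg (eval w) (hfac _ hx)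
    rw [eval_sub, eval_C, hpow w hw, sub_self, eval_prod] at h1
    obtain ⟨i, _, hi⟩ := Finset.prod_eq_zero_iff.mp h1.symm
    rw [eval_sub, eval_X, eval_C, sub_eq_zero] at hi
    have h2 := (hf _ (hωD _ hx i)).2
    rw [← hi] at h2
    have hx0 : h w ≠ 0 := by
      intro h0
      simp only [hD, Set.mem_ofPred_eq, h0, norm_zero] at hx
      linarith
    have h3 : ω ^ (i:ℕ) = 1 := by
      have : 1 * h w = ω ^ (i:ℕ) * h w := by rw [one_mul]; exact h2
      exact (mul_right_cancel₀ hx0 this).symm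
    rw [h3, one_mul] at hi
    exact hi.symm
  refine ⟨f, ?_, ?_, hfac⟩
  · -- differentiability
    intro x hx
    apply DifferentiableAt.differentiableWithinAt
    obtain ⟨hw, hwx⟩ := hf x hx
    set w := f x with hwdef
    have hcont : ContinuousAt f x := by
      rw [ContinuousAt, ← hwdef, ← hwx]
      intro U hU
      rw [Filter.mem_map]
      apply hopen w hw
      rw [Filter.mem_map]
      filter_upwards [hU, hΩo.mem_nhds hw] with y hy hyΩ
      simp only [Set.mem_preimage]
      rw [hleft y hyΩ]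
      exact hy
    have hhw : HasDerivAt h (deriv h w) w :=
      (hdiff.differentiableAt (hΩo.mem_nhds hw)).hasDerivAt
    have hne : deriv h w ≠ 0 := by
      intro h0
      have h1 : HasDerivAt (fun y => PP.eval y) 0 w := by
        have h2 := hhw.pow m
        rw [h0, mul_zero] at h2
        refine h2.congr_of_eventuallyEq ?_
        filter_upwards [hΩo.mem_nhds hw] with y hy
        simp only [Pi.pow_apply]
        exact (hpow y hy).symm
      have h2 : (derivative (PP - C (x ^ m))).eval w = 0 := by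
        rw [derivative_sub, derivative_C, sub_zero]
        exact (PP.hasDerivAt w).unique h1
      have hsep : (PP - C (x ^ m)).Separable := by
        rw [hfac x hx]
        exact separable_prod_X_sub_C_iff.mpr (hinj x hx)
      have hroot : aeval w (PP - C (x ^ m)) = 0 := by
        rw [coe_aeval_eq_eval, eval_sub, eval_C, ← hpow w hw, hwx, sub_self]
      have h3 := hsep.aeval_derivative_ne_zero hroot
      rw [coe_aeval_eq_eval] at h3
      exact h3 h2
    have hright : ∀ᶠ y in nhds x, h (f y) = y := by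
      filter_upwards [hDo.mem_nhds hx] with y hy
      exact (hf y hy).2
    exact (HasDerivAt.of_local_left_inverse hcont hhw hne hright).differentiableAt
  · -- behaviour at infinity
    have hDcob : D ∈ cobounded ℂ := by
      have := tendsto_norm_cobounded_atTop (E := ℂ)
      exact this.eventually (eventually_gt_atTop r0)
    have hfinf : Tendsto f (cobounded ℂ) (cobounded ℂ) := by
      rw [← tendsto_norm_atTop_iff_cobounded]
      rw [tendsto_atTop]
      intro B
      -- polynomial is bounded on the ball of radius B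
      obtain ⟨K, hK⟩ := (isCompact_closedBall (0:ℂ) B).exists_bound_of_continuousOn
        (f := fun w => PP.eval w) PP.continuous.continuousOn
      have h1 : ∀ᶠ x : ℂ in cobounded ℂ, K < ‖x‖ ^ m := by
        have h2 : Tendsto (fun x : ℂ => ‖x‖ ^ m) (cobounded ℂ) atTop :=
          (tendsto_pow_atTop hm0).comp tendsto_norm_cobounded_atTop
        exact h2.eventually (eventually_gt_atTop K)
      filter_upwards [h1, hDcob] with x hx hxD
      by_contra hlt
      push Not at hlt
      obtain ⟨hw, hwx⟩ := hf x hxD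
      have h3 := hK (f x) (by rw [mem_closedBall_zero_iff]; exact hlt.le)
      rw [← hpow _ hw, hwx, norm_pow] at h3
      linarith
    have h1 := (hhlim.comp hfinf).inv₀ one_ne_zero
    rw [inv_one] at h1
    refine h1.congr' ?_
    filter_upwards [hDcob] with x hx
    simp only [Function.comp_apply]
    rw [(hf x hx).2, inv_div]

end Pool.Agent.Work.MP_9ec5dc_an
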