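import Mathlib

set_option autoImplicit false

namespace Pool.Agent.Work.MP_9ec5dc_an

open Matrix Finset
open scoped ComplexOrder

theorem re_prod_ofReal {n : ℕ} (f : Fin n → ℝ) : (∏ i, ((f i : ℝ) : ℂ)).re = ∏ i, f i := by
  rw [← Complex.ofReal_prod, Complex.ofReal_re]

theorem re_sum_ofReal {n : ℕ} (f : Fin n → ℝ) : (∑ i, ((f i : ℝ) : ℂ)).re = ∑ i, f i := by
  rw [← Complex.ofReal_sum, Complex.ofReal_re]

/-- a positive semidefinite matrix with diagonal entries at most one has determinant at most one -/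
theorem det_le_one {n : ℕ} (K : Matrix (Fin n) (Fin n) ℂ) (hK : K.PosSemidef)
    (hd : ∀ i, (K i i).re ≤ 1) : K.det.re ≤ 1 := by
  have h1 : K.det.re = ∏ i, hK.1.eigenvalues i := by
    rw [hK.1.det_eq_prod_eigenvalues]
    exact re_prod_ofReal _
  have h2 : K.trace.re = ∑ i, hK.1.eigenvalues i := by
    rw [hK.1.trace_eq_sum_eigenvalues]
    exact re_sum_ofReal _
  have h3 : K.trace.re ≤ n := by
    rw [Matrix.trace, Complex.re_sum]
    refine (Finset.sum_le_sum (fun i _ => hd i)).trans ?_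
    simp
  rw [h1]
  have h4 : ∏ i, hK.1.eigenvalues i ≤ ∏ i, Real.exp (hK.1.eigenvalues i - 1) := by
    refine Finset.prod_le_prod (fun i _ => hK.eigenvalues_nonneg i) (fun i _ => ?_)
    have := Real.add_one_le_exp (hK.1.eigenvalues i - 1)
    linarith
  refine h4.trans ?_
  rw [← Real.exp_sum, Real.exp_le_one_iff, Finset.sum_sub_distrib, ← h2]
  simp
  linarith

/-- Hadamard type bound -/
theorem det_rows {n : ℕ} (G H : Matrix (Fin n) (Fin n) ℂ) (hH : H.PosDef) (κ : ℝ) (hκ : 0 < κ)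
    (h : ∀ (y : Fin n → ℂ) (μ : Fin n), ‖(G *ᵥ y) μ‖ ^ 2 ≤ κ * (star y ⬝ᵥ (H *ᵥ y)).re) :
    ‖G.det‖ ^ 2 ≤ κ ^ n * H.det.re := by
  have hdetpos : 0 < H.det := hH.det_pos
  have hdre : (H.det.re : ℂ) = H.det := by
    have := (Complex.lt_def.mp hdetpos).2
    apply Complex.ext
    · simp
    · simpa using this
  have hdrepos : 0 < H.det.re := by
    have := (Complex.lt_def.mp hdetpos).1
    simpa using this
  have hunit : IsUnit H.det := (isUnit_iff_ne_zero).mpr hdetpos.ne'
  set K : Matrix (Fin n) (Fin n) ℂ := (G * H⁻¹ * Gᴴ) with hKdef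
  have hHinv : H⁻¹.PosDef := hH.inv
  have hKpsd : K.PosSemidef := hHinv.posSemidef.mul_mul_conjTranspose_same G
  have hdiag : ∀ μ, (K μ μ).re ≤ κ := by
    intro μ
    set y : Fin n → ℂ := H⁻¹ *ᵥ (fun j => Gᴴ j μ) with hy
    have h1 : (G *ᵥ y) μ = K μ μ := by
      rw [hy, mulVec_mulVec]
      rfl
    have h2 : H *ᵥ y = fun j => Gᴴ j μ := by
      rw [hy, mulVec_mulVec, Matrix.mul_nonsing_inv _ hunit, one_mulVec]
    have h3 : star y ⬝ᵥ (H *ᵥ y) = star (K μ μ) := by
      rw [h2, ← h1]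
      simp only [mulVec, dotProduct, conjTranspose_apply, Pi.star_apply]
      rw [star_sum]
      refine Finset.sum_congr rfl (fun j _ => ?_)
      rw [star_mul']
      ring
    have h4 := h y μ
    rw [h3, h1] at h4
    have h5 : (star (K μ μ)).re = (K μ μ).re := by simp
    rw [h5] at h4
    have h6 : (K μ μ).re ≤ ‖K μ μ‖ := Complex.re_le_norm _
    have h7 : 0 ≤ (K μ μ).re := by
      have := hKpsd.diag_nonneg (i := μ)
      exact (Complex.le_def.mp this).1
    have h8 : (K μ μ).re ^ 2 ≤ κ * (K μ μ).re := (pow_le_pow_left₀ h7 h6 2).trans h4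
    by_contra hlt
    push Not at hlt
    nlinarith
  have hK' : (((κ⁻¹ : ℝ) : ℂ) • K).PosSemidef := by
    apply hKpsd.smul
    rw [Complex.le_def]
    simp
    exact hκ.le
  have hdet := det_le_one _ hK' (by
    intro i
    rw [Matrix.smul_apply, smul_eq_mul, Complex.re_ofReal_mul, inv_mul_le_iff₀ hκ, mul_one]
    exact hdiag i)
  rw [det_smul, Fintype.card_fin, ← Complex.ofReal_pow, Complex.re_ofReal_mul, inv_pow,
    inv_mul_le_iff₀ (by positivity), mul_one] at hdet
  have hKdet : K.det = ((‖G.det‖ ^ 2 / H.det.re : ℝ) : ℂ) := by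
    rw [hKdef, det_mul, det_mul, det_nonsing_inv, det_conjTranspose, Ring.inverse_eq_inv',
      Complex.ofReal_div, hdre]
    have : G.det * star G.det = ((‖G.det‖ ^ 2 : ℝ) : ℂ) := by
      rw [← Complex.normSq_eq_norm_sq]
      exact Complex.mul_conj _
    rw [← this]
    ring
  rw [hKdet, Complex.ofReal_re, div_le_iff₀ hdrepos] at hdet
  exact hdet

/-- bound for the determinant by a flag (Courant-Fischer) -/
theorem det_flag {n : ℕ} (H : Matrix (Fin n) (Fin n) ℂ) (hH : H.PosSemidef) (b : Fin n → ℝ)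
    (hflag : ∀ j : Fin n, ∃ (k : ℕ) (Λ : (Fin n → ℂ) →ₗ[ℂ] (Fin k → ℂ)),
      k ≤ j ∧ ∀ y, Λ y = 0 → (star y ⬝ᵥ (H *ᵥ y)).re ≤ b j * ∑ i, ‖y i‖ ^ 2) :
    H.det.re ≤ ∏ j, b j := by
  have hcard : Fintype.card (Fin n) = n := Fintype.card_fin n
  set e : Fin (Fintype.card (Fin n)) ≃ Fin n := Fintype.equivOfCardEq (Fintype.card_fin _) with he
  have hev : ∀ i, hH.1.eigenvalues i = hH.1.eigenvalues₀ (e.symm i) := fun i => rfl
  have h1 : H.det.re = ∏ i, hH.1.eigenvalues i := by
    rw [hH.1.det_eq_prod_eigenvalues]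
    exact re_prod_ofReal _
  have h2 : ∏ i, hH.1.eigenvalues i = ∏ j : Fin n, hH.1.eigenvalues (e (j.cast hcard.symm)) := by
    symm
    exact Fintype.prod_equiv ((finCongr hcard.symm).trans e) _ _ (fun j => rfl)
  rw [h1, h2]
  refine Finset.prod_le_prod (fun j _ => hH.eigenvalues_nonneg _) (fun j _ => ?_)
  obtain ⟨k, Λ, hk, hΛ⟩ := hflag j
  -- the orthonormal eigenvectors
  set B := hH.1.eigenvectorBasis with hB
  let v : Fin ((j:ℕ)+1) → (Fin n → ℂ) := fun s =>
    (B (e ((Fin.castLE (by omega : (j:ℕ)+1 ≤ Fintype.card (Fin n)) s)))).ofLp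
  let idx : Fin ((j:ℕ)+1) → Fin n := fun s =>
    e ((Fin.castLE (by omega : (j:ℕ)+1 ≤ Fintype.card (Fin n)) s))
  let Ψ : (Fin ((j:ℕ)+1) → ℂ) →ₗ[ℂ] (Fin n → ℂ) :=
    { toFun := fun a => ∑ s, a s • v s
      map_add' := by
        intro a a'
        simp only [Pi.add_apply, add_smul, Finset.sum_add_distrib]
      map_smul' := by
        intro c a
        simp only [Pi.smul_apply, smul_eq_mul, mul_smul, Finset.smul_sum, RingHom.id_apply] }
  obtain ⟨a, ha0, haker⟩ : ∃ a : Fin ((j:ℕ)+1) → ℂ, a ≠ 0 ∧ Λ (Ψ a) = 0 := by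
    have hker : LinearMap.ker (Λ ∘ₗ Ψ) ≠ ⊥ := by
      apply LinearMap.ker_ne_bot_of_finrank_lt
      rw [Module.finrank_fin_fun, Module.finrank_fin_fun]
      omega
    obtain ⟨a, ha, ha0⟩ := (Submodule.ne_bot_iff _).mp hker
    exact ⟨a, ha0, by simpa using ha⟩
  set y := Ψ a with hy
  have hbound := hΛ y haker
  -- orthonormality
  have horth : ∀ s t, star (v s) ⬝ᵥ (v t) = if s = t then 1 else 0 := by
    intro s t
    have h3 := (orthonormal_iff_ite.mp B.orthonormal) (idx s) (idx t)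
    rw [EuclideanSpace.inner_eq_star_dotProduct, dotProduct_comm] at h3
    have h4 : (idx s = idx t) ↔ (s = t) := by
      constructor
      · intro h
        have := e.injective h
        exact Fin.castLE_injective _ this
      · intro h; rw [h]
    simp only [h4] at h3
    exact h3
  have hHv : ∀ s, H *ᵥ (v s) = ((hH.1.eigenvalues (idx s) : ℝ) : ℂ) • v s := by
    intro s
    have := hH.1.mulVec_eigenvectorBasis (idx s)
    rw [← this.symm]
    rfl
  have hyv : y = ∑ s, a s • v s := rfl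
  have hHy : H *ᵥ y = ∑ s, (((hH.1.eigenvalues (idx s) : ℝ) : ℂ) * a s) • v s := by
    rw [hyv, Matrix.mulVec_sum]
    refine Finset.sum_congr rfl (fun s _ => ?_)
    rw [Matrix.mulVec_smul, hHv, smul_smul, mul_comm]
  have hgen : ∀ c : Fin ((j:ℕ)+1) → ℂ, star y ⬝ᵥ (∑ s, c s • v s) = ∑ s, star (a s) * c s := by
    intro c
    rw [hyv, star_sum, sum_dotProduct]
    refine Finset.sum_congr rfl (fun s _ => ?_)
    rw [dotProduct_sum, Finset.sum_eq_single s]
    · rw [star_smul, smul_dotProduct, dotProduct_smul, horth, if_pos rfl]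
      simp
    · intro t _ hts
      rw [star_smul, smul_dotProduct, dotProduct_smul, horth, if_neg hts.symm]
      simp
    · intro h; exact absurd (mem_univ s) h
  have hnorm : ∑ i, ‖y i‖ ^ 2 = ∑ s, ‖a s‖ ^ 2 := by
    have h5 := hgen a
    rw [← hyv] at h5
    have h6 : star y ⬝ᵥ y = ((∑ i, ‖y i‖ ^ 2 : ℝ) : ℂ) := by
      simp only [dotProduct, Pi.star_apply]
      push_cast
      refine Finset.sum_congr rfl (fun i _ => ?_)
      rw [← Complex.ofReal_pow, ← Complex.normSq_eq_norm_sq, Complex.normSq_eq_conj_mul_self]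
      rfl
    have h7 : ∑ s, star (a s) * a s = ((∑ s, ‖a s‖ ^ 2 : ℝ) : ℂ) := by
      push_cast
      refine Finset.sum_congr rfl (fun i _ => ?_)
      rw [← Complex.ofReal_pow, ← Complex.normSq_eq_norm_sq, Complex.normSq_eq_conj_mul_self]
      rfl
    rw [h6, h7] at h5
    exact_mod_cast h5
  have hquad : (star y ⬝ᵥ (H *ᵥ y)).re = ∑ s, hH.1.eigenvalues (idx s) * ‖a s‖ ^ 2 := by
    rw [hHy, hgen, Complex.re_sum]
    refine Finset.sum_congr rfl (fun s _ => ?_)
    rw [mul_left_comm, Complex.re_ofReal_mul]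
    congr 1
    have : star (a s) * a s = ((‖a s‖ ^ 2 : ℝ) : ℂ) := by
      rw [← Complex.normSq_eq_norm_sq, Complex.normSq_eq_conj_mul_self]
      rfl
    rw [this, Complex.ofReal_re]
  have hmono : ∀ s : Fin ((j:ℕ)+1), hH.1.eigenvalues (e (j.cast hcard.symm)) ≤
      hH.1.eigenvalues (idx s) := by
    intro s
    rw [hev, hev]
    apply hH.1.eigenvalues₀_antitone
    simp only [idx, Equiv.symm_apply_apply]
    rw [Fin.le_def]
    simp
    omega
  have hlow : hH.1.eigenvalues (e (j.cast hcard.symm)) * ∑ s, ‖a s‖ ^ 2 ≤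
      (star y ⬝ᵥ (H *ᵥ y)).re := by
    rw [hquad, Finset.mul_sum]
    exact Finset.sum_le_sum (fun s _ => mul_le_mul_of_nonneg_right (hmono s) (by positivity))
  have hpos : 0 < ∑ s, ‖a s‖ ^ 2 := by
    obtain ⟨s, hs⟩ := Function.ne_iff.mp ha0
    apply Finset.sum_pos'
    · intro s _; positivity
    · exact ⟨s, mem_univ s, by have : 0 < ‖a s‖ := norm_pos_iff.mpr hs
                               positivity⟩
  rw [hnorm] at hbound
  exact le_of_mul_le_mul_right (hlow.trans hbound) hpos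

end Pool.Agent.Work.MP_9ec5dc_an
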