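import Mathlib
import Pool.Agent.Work.MP_9ec5dc_an.Q2E

set_option autoImplicit false

namespace Pool.Agent.Work.MP_9ec5dc_an

open Matrix Finset
open scoped ComplexOrder

/-- the weights `1, 1, 2, 3, ...` -/
noncomputable def wt (i : ℕ) : ℝ := if i = 0 then 1 else i

theorem wt_pos (i : ℕ) : 0 < wt i := by
  unfold wt
  split_ifs with h
  · exact one_pos
  · exact_mod_cast Nat.pos_of_ne_zero h

theorem le_wt (i : ℕ) : (i : ℝ) ≤ wt i := by
  unfold wt
  split_ifs with h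
  · rw [h]; simp
  · exact le_refl _

theorem prod_wt (N : ℕ) : ∏ i : Fin (N+1), wt i = (Nat.factorial N : ℝ) := by
  rw [Fin.prod_univ_succ]
  simp only [wt, Fin.val_zero, if_true, one_mul, Fin.val_succ, Nat.succ_ne_zero, if_false]
  rw [← Finset.prod_range_add_one_eq_factorial, Finset.prod_range]
  push_cast
  rfl

/-- the bounds for the eigenvalues -/
noncomputable def bd (j : ℕ) : ℝ := if j = 0 then 2 else 4 / j

theorem prod_bd (N : ℕ) : ∏ i : Fin (N+1), bd i = 2 * 4 ^ N / (Nat.factorial N : ℝ) := by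
  rw [Fin.prod_univ_succ]
  simp only [bd, Fin.val_zero, if_true, Fin.val_succ, Nat.succ_ne_zero, if_false]
  rw [Finset.prod_div_distrib, ← Finset.prod_range_add_one_eq_factorial, Finset.prod_range]
  push_cast
  rw [Finset.prod_const, Finset.card_univ, Fintype.card_fin]
  ring

/-- the part of the argument that only uses linear algebra -/
theorem linalg (N : ℕ) (M : Matrix (Fin (2*N+1)) (Fin (N+1)) ℂ) (r : ℝ) (hr : 0 < r)
    (hM0 : ∀ (i : Fin (2*N+1)) (j : Fin (N+1)), (i:ℕ) + (j:ℕ) < N → M i j = 0)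
    (hM1 : ∀ (i : Fin (2*N+1)) (j : Fin (N+1)), (i:ℕ) + (j:ℕ) = N → ‖M i j‖ = r ^ (j:ℕ))
    (hF2 : ∀ q, ∑ i : Fin (2*N+1), (((i:ℕ):ℝ) - N) * ‖(M *ᵥ q) i‖ ^ 2 ≤ 0)
    (κ : ℝ) (hκ : 0 < κ) (G : Matrix (Fin (N+1)) (Fin (N+1)) ℂ)
    (hG : ∀ q μ, ‖(G *ᵥ q) μ‖ ^ 2 ≤ κ * ∑ i, ‖(M *ᵥ q) i‖ ^ 2) :
    ‖G.det‖ ^ 2 ≤ (4 * κ) ^ (N+1) * r ^ (N*(N+1)) := by
  -- the matrix T
  let top : Fin (N+1) → Fin (2*N+1) := fun i => ⟨N - (i:ℕ), by omega⟩
  let T : Matrix (Fin (N+1)) (Fin (N+1)) ℂ := Matrix.of fun i j => ((Real.sqrt (wt i) : ℝ) : ℂ) * M (top i) j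
  have hTtri : T.IsUpperTriangular := by
    intro i j hij
    simp only [T, Matrix.of_apply]
    rw [hM0 _ _ (by simp only [top]; have h1 := i.2; have h2 : (j:ℕ) < (i:ℕ) := hij; omega), mul_zero]
  have hTdet : ‖T.det‖ ^ 2 = (Nat.factorial N : ℝ) * r ^ (N*(N+1)) := by
    rw [Matrix.det_of_isUpperTriangular hTtri, norm_prod, ← Finset.prod_pow]
    have h1 : ∀ i : Fin (N+1), ‖T i i‖ ^ 2 = wt i * (r^2) ^ (i:ℕ) := by
      intro i
      simp only [T, Matrix.of_apply]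
      rw [norm_mul, hM1 (top i) i (by simp only [top]; omega), mul_pow, Complex.norm_real,
        Real.norm_eq_abs, sq_abs, Real.sq_sqrt (wt_pos _).le]
      ring
    rw [Finset.prod_congr rfl (fun i _ => h1 i), Finset.prod_mul_distrib, prod_wt,
      Finset.prod_pow_eq_pow_sum]
    congr 1
    rw [← pow_mul]
    congr 1
    rw [Fin.sum_univ_eq_sum_range (fun i => i), mul_comm 2, Finset.sum_range_id_mul_two]
    simp [mul_comm]
  have hTdet0 : T.det ≠ 0 := by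
    intro h
    rw [h, norm_zero] at hTdet
    have : 0 < (Nat.factorial N : ℝ) * r ^ (N*(N+1)) := by positivity
    rw [← hTdet] at this
    norm_num at this
  have hTunit : IsUnit T.det := isUnit_iff_ne_zero.mpr hTdet0
  have hTapp : ∀ q i, (T *ᵥ q) i = ((Real.sqrt (wt i) : ℝ) : ℂ) * (M *ᵥ q) (top i) := by
    intro q i
    simp only [T, mulVec, dotProduct, Matrix.of_apply, Finset.mul_sum, mul_assoc]
  have hTnorm : ∀ q, ∑ i, ‖(T *ᵥ q) i‖ ^ 2 = ∑ i : Fin (N+1), wt (i:ℕ) * ‖(M *ᵥ q) (top i)‖ ^ 2 := by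
    intro q
    refine Finset.sum_congr rfl (fun i _ => ?_)
    rw [hTapp, norm_mul, mul_pow, Complex.norm_real, Real.norm_eq_abs, sq_abs,
      Real.sq_sqrt (wt_pos _).le]
  -- absolute value sum
  have habs : ∀ q, ∑ i : Fin (2*N+1), |(((i:ℕ):ℝ) - N)| * ‖(M *ᵥ q) i‖ ^ 2 ≤ 2 * ∑ i : Fin (N+1), ((i:ℕ):ℝ) * ‖(M *ᵥ q) (top i)‖ ^ 2 := by
    intro q
    have h1 : ∀ i : Fin (2*N+1), |(((i:ℕ):ℝ) - N)| * ‖(M *ᵥ q) i‖ ^ 2 =
        (((i:ℕ):ℝ) - N) * ‖(M *ᵥ q) i‖ ^ 2 + 2 * (((N - (i:ℕ) : ℕ) : ℝ) * ‖(M *ᵥ q) i‖ ^ 2) := by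
      intro i
      rcases le_total (i:ℕ) N with h | h
      · have h2 : ((i:ℕ):ℝ) ≤ N := by exact_mod_cast h
        rw [abs_of_nonpos (by linarith), Nat.cast_sub h]
        ring
      · have h2 : (N:ℝ) ≤ ((i:ℕ):ℝ) := by exact_mod_cast h
        rw [abs_of_nonneg (by linarith), Nat.sub_eq_zero_of_le h]
        simp
    rw [Finset.sum_congr rfl (fun i _ => h1 i), Finset.sum_add_distrib, ← Finset.mul_sum]
    have h3 : ∑ i : Fin (2*N+1), ((N - (i:ℕ) : ℕ) : ℝ) * ‖(M *ᵥ q) i‖ ^ 2 =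
        ∑ i : Fin (N+1), ((i:ℕ):ℝ) * ‖(M *ᵥ q) (top i)‖ ^ 2 := by
      let F : ℕ → ℝ := fun i => if h : i < 2*N+1 then ‖(M *ᵥ q) ⟨i, h⟩‖ ^ 2 else 0
      have h4 : ∀ i : Fin (2*N+1), ‖(M *ᵥ q) i‖ ^ 2 = F i := by
        intro i; simp only [F, i.2, dif_pos, Fin.eta]
      have h5 : ∀ i : Fin (N+1), ‖(M *ᵥ q) (top i)‖ ^ 2 = F (N - (i:ℕ)) := by
        intro i
        rw [h4]
      rw [Finset.sum_congr rfl (fun i _ => by rw [h4 i]),
        Finset.sum_congr (s₂ := (univ : Finset (Fin (N+1)))) rfl (fun i _ => by rw [h5 i])]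
      rw [Fin.sum_univ_eq_sum_range (fun i => ((N - i : ℕ) : ℝ) * F i),
        Fin.sum_univ_eq_sum_range (fun i => (i : ℝ) * F (N - i))]
      have h6 : ∑ i ∈ range (2*N+1), ((N - i : ℕ) : ℝ) * F i =
          ∑ i ∈ range (N+1), ((N - i : ℕ) : ℝ) * F i := by
        symm
        apply Finset.sum_subset
        · intro i hi; rw [mem_range] at hi ⊢; omega
        · intro i _ hi
          rw [mem_range] at hi
          rw [Nat.sub_eq_zero_of_le (by omega)]
          simp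
      rw [h6, ← Finset.sum_range_reflect]
      refine Finset.sum_congr rfl (fun i hi => ?_)
      rw [mem_range] at hi
      have h7 : N - (N + 1 - 1 - i) = i := by omega
      rw [h7]
      congr 2
    rw [h3]
    linarith [hF2 q]
  have hle_T : ∀ q, ∑ i : Fin (N+1), ((i:ℕ):ℝ) * ‖(M *ᵥ q) (top i)‖ ^ 2 ≤ ∑ i, ‖(T *ᵥ q) i‖ ^ 2 := by
    intro q
    rw [hTnorm]
    exact Finset.sum_le_sum (fun i _ => mul_le_mul_of_nonneg_right (le_wt _) (by positivity))
  -- injectivity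
  have hMinj : Function.Injective M.mulVec := by
    intro q q' hqq
    have h1 : T *ᵥ q = T *ᵥ q' := by
      ext i
      rw [hTapp, hTapp]
      have : M *ᵥ q = M *ᵥ q' := hqq
      rw [this]
    have h2 := congrArg (fun v => T⁻¹ *ᵥ v) h1
    simpa [mulVec_mulVec, Matrix.nonsing_inv_mul _ hTunit] using h2
  have hΓ : (Mᴴ * M).PosDef := Matrix.PosDef.conjTranspose_mul_self M hMinj
  have hΓq : ∀ q, (star q ⬝ᵥ ((Mᴴ * M) *ᵥ q)).re = ∑ i, ‖(M *ᵥ q) i‖ ^ 2 := by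
    intro q
    rw [← mulVec_mulVec, dotProduct_mulVec, ← star_mulVec]
    simp only [dotProduct, Pi.star_apply]
    rw [Complex.re_sum]
    refine Finset.sum_congr rfl (fun i _ => ?_)
    have : star ((M *ᵥ q) i) * (M *ᵥ q) i = ((‖(M *ᵥ q) i‖ ^ 2 : ℝ) : ℂ) := by
      rw [← Complex.normSq_eq_norm_sq, Complex.normSq_eq_conj_mul_self]
      rfl
    rw [this, Complex.ofReal_re]
  have hstep1 := det_rows G (Mᴴ * M) hΓ κ hκ (by
    intro y μ
    rw [hΓq]
    exact hG y μ)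
  -- the matrix H
  set M' : Matrix (Fin (2*N+1)) (Fin (N+1)) ℂ := M * T⁻¹ with hM'
  have hHpsd : (M'ᴴ * M').PosSemidef := posSemidef_conjTranspose_mul_self M'
  have hHq : ∀ q, (star q ⬝ᵥ ((M'ᴴ * M') *ᵥ q)).re = ∑ i, ‖(M' *ᵥ q) i‖ ^ 2 := by
    intro q
    rw [← mulVec_mulVec, dotProduct_mulVec, ← star_mulVec]
    simp only [dotProduct, Pi.star_apply]
    rw [Complex.re_sum]
    refine Finset.sum_congr rfl (fun i _ => ?_)
    have : star ((M' *ᵥ q) i) * (M' *ᵥ q) i = ((‖(M' *ᵥ q) i‖ ^ 2 : ℝ) : ℂ) := by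
      rw [← Complex.normSq_eq_norm_sq, Complex.normSq_eq_conj_mul_self]
      rfl
    rw [this, Complex.ofReal_re]
  have hstep2 := det_flag (M'ᴴ * M') hHpsd (fun j => bd j) (by
    intro j
    by_cases hj : (j:ℕ) = 0
    · refine ⟨0, 0, Nat.zero_le _, ?_⟩
      intro y _
      rw [hHq]
      simp only [bd, hj, if_true]
      set q := T⁻¹ *ᵥ y with hq
      have hTq : T *ᵥ q = y := by
        rw [hq, mulVec_mulVec, Matrix.mul_nonsing_inv _ hTunit, one_mulVec]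
      have hMq : M' *ᵥ y = M *ᵥ q := by rw [hM', hq, mulVec_mulVec]
      rw [hMq]
      -- split off i = N
      have h1 : ∀ i : Fin (2*N+1), ‖(M *ᵥ q) i‖ ^ 2 ≤
          |(((i:ℕ):ℝ) - N)| * ‖(M *ᵥ q) i‖ ^ 2 + (if (i:ℕ) = N then ‖(M *ᵥ q) i‖ ^ 2 else 0) := by
        intro i
        split_ifs with h
        · rw [h]; simp
        · have h2 : (1:ℝ) ≤ |(((i:ℕ):ℝ) - N)| := by
            have h3 : (1:ℤ) ≤ |((i:ℕ):ℤ) - N| := Int.one_le_abs (by omega)
            exact_mod_cast h3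
          have h3 : 0 ≤ ‖(M *ᵥ q) i‖ ^ 2 := by positivity
          nlinarith
      refine (Finset.sum_le_sum (fun i _ => h1 i)).trans ?_
      rw [Finset.sum_add_distrib]
      have h2 : ∑ i : Fin (2*N+1), (if (i:ℕ) = N then ‖(M *ᵥ q) i‖ ^ 2 else 0) =
          ‖(M *ᵥ q) (top 0)‖ ^ 2 := by
        rw [Finset.sum_eq_single (top 0)]
        · simp [top]
        · intro i _ hi
          rw [if_neg]
          intro h
          apply hi
          apply Fin.ext
          simp [top, h]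
        · intro h; exact absurd (mem_univ _) h
      rw [h2]
      have h3 := habs q
      have h4 : 2 * ∑ i : Fin (N+1), ((i:ℕ):ℝ) * ‖(M *ᵥ q) (top i)‖ ^ 2 + ‖(M *ᵥ q) (top 0)‖ ^ 2 ≤
          2 * ∑ i, ‖y i‖ ^ 2 := by
        rw [← hTq, hTnorm, Fin.sum_univ_succ, Fin.sum_univ_succ]
        simp only [Fin.val_zero, Nat.cast_zero, zero_mul, zero_add, wt, if_true, one_mul,
          Fin.val_succ, Nat.succ_ne_zero, if_false]
        have : 0 ≤ ‖(M *ᵥ q) (top 0)‖ ^ 2 := by positivity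
        linarith
      linarith
    · -- the window
      set k : ℕ := ((j:ℕ) - 1) / 2 with hk
      have hkj : 2 * k + 1 ≤ (j:ℕ) := by omega
      have hkN : k < N := by have := j.2; omega
      refine ⟨2*k+1, ⟨⟨fun y s => (M' *ᵥ y) ⟨N - k + (s:ℕ), by omega⟩, ?_⟩, ?_⟩, hkj, ?_⟩
      · intro y y'
        ext s
        simp [mulVec_add]
      · intro c y
        ext s
        simp [mulVec_smul]
      · intro y hy
        rw [hHq]
        have hzero : ∀ i : Fin (2*N+1), N - k ≤ (i:ℕ) → (i:ℕ) ≤ N + k → (M' *ᵥ y) i = 0 := by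
          intro i h1 h2
          have h3 := congrFun hy ⟨(i:ℕ) - (N - k), by omega⟩
          simp only [LinearMap.coe_mk, AddHom.coe_mk, Pi.zero_apply] at h3
          rw [← h3]
          congr 1
          apply Fin.ext
          simp only
          omega
        set q := T⁻¹ *ᵥ y with hq
        have hTq : T *ᵥ q = y := by
          rw [hq, mulVec_mulVec, Matrix.mul_nonsing_inv _ hTunit, one_mulVec]
        have hMq : M' *ᵥ y = M *ᵥ q := by rw [hM', hq, mulVec_mulVec]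
        rw [hMq] at hzero ⊢
        have hk1 : (0:ℝ) < (k:ℝ) + 1 := by positivity
        have h1 : ∀ i : Fin (2*N+1), ((k:ℝ) + 1) * ‖(M *ᵥ q) i‖ ^ 2 ≤
            |(((i:ℕ):ℝ) - N)| * ‖(M *ᵥ q) i‖ ^ 2 := by
          intro i
          by_cases h : N - k ≤ (i:ℕ) ∧ (i:ℕ) ≤ N + k
          · rw [hzero i h.1 h.2]; simp
          · apply mul_le_mul_of_nonneg_right _ (by positivity)
            have h3 : ((k:ℤ) + 1) ≤ |((i:ℕ):ℤ) - N| := by
              rcases le_total ((i:ℕ):ℤ) N with h4 | h4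
              · rw [abs_of_nonpos (by omega)]; omega
              · rw [abs_of_nonneg (by omega)]; omega
            exact_mod_cast h3
        have h2 : ((k:ℝ) + 1) * ∑ i, ‖(M *ᵥ q) i‖ ^ 2 ≤ 2 * ∑ i, ‖y i‖ ^ 2 := by
          rw [Finset.mul_sum]
          refine (Finset.sum_le_sum (fun i _ => h1 i)).trans ((habs q).trans ?_)
          have := hle_T q
          rw [hTq] at this
          linarith
        have h3 : ∑ i, ‖(M *ᵥ q) i‖ ^ 2 ≤ (2 / ((k:ℝ) + 1)) * ∑ i, ‖y i‖ ^ 2 := by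
          rw [div_mul_eq_mul_div, le_div_iff₀ hk1, mul_comm]
          exact h2
        refine h3.trans (mul_le_mul_of_nonneg_right ?_ (by positivity))
        simp only [bd, hj, if_false]
        have hjpos : (0:ℝ) < (j:ℕ) := by exact_mod_cast Nat.pos_of_ne_zero hj
        rw [div_le_div_iff₀ hk1 hjpos]
        have h4 : (j:ℕ) ≤ 2 * (k + 1) := by omega
        have h5 : (((j:ℕ)):ℝ) ≤ 2 * ((k:ℝ) + 1) := by exact_mod_cast h4
        linarith)
  rw [prod_bd] at hstep2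
  -- combination
  have hdetΓ : (Mᴴ * M).det = ((‖T.det‖ ^ 2 : ℝ) : ℂ) * (M'ᴴ * M').det := by
    have h1 : Mᴴ * M = Tᴴ * (M'ᴴ * M') * T := by
      rw [hM', conjTranspose_mul, Matrix.mul_assoc, Matrix.mul_assoc, Matrix.mul_assoc,
        Matrix.mul_assoc]
      rw [Matrix.nonsing_inv_mul _ hTunit, Matrix.mul_one, ← Matrix.mul_assoc, ← Matrix.mul_assoc,
        ← conjTranspose_mul, Matrix.nonsing_inv_mul _ hTunit]
      simp
    rw [h1, det_mul, det_mul, det_conjTranspose]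
    have : star T.det * T.det = ((‖T.det‖ ^ 2 : ℝ) : ℂ) := by
      rw [← Complex.normSq_eq_norm_sq, Complex.normSq_eq_conj_mul_self]
      rfl
    rw [← this]
    ring
  rw [hdetΓ, Complex.re_ofReal_mul, hTdet] at hstep1
  refine hstep1.trans ?_
  have hfac : (0:ℝ) < Nat.factorial N := by exact_mod_cast Nat.factorial_pos N
  calc κ ^ (N+1) * ((Nat.factorial N : ℝ) * r ^ (N*(N+1)) * (M'ᴴ * M').det.re)
      ≤ κ ^ (N+1) * ((Nat.factorial N : ℝ) * r ^ (N*(N+1)) * (2 * 4 ^ N / (Nat.factorial N : ℝ))) := by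
        gcongr
    _ = 2 * 4 ^ N * κ ^ (N+1) * r ^ (N*(N+1)) := by field_simp
    _ ≤ 4 ^ (N+1) * κ ^ (N+1) * r ^ (N*(N+1)) := by
        rw [pow_succ 4 N]
        have : (2:ℝ) * 4 ^ N ≤ 4 ^ N * 4 := by
          have : (0:ℝ) < 4 ^ N := by positivity
          linarith
        gcongr
    _ = (4 * κ) ^ (N+1) * r ^ (N*(N+1)) := by rw [mul_pow]

end Pool.Agent.Work.MP_9ec5dc_an
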