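import Mathlib

set_option autoImplicit false

namespace Pool.Agent.Work.MP_9ec5dc_an

open Polynomial Finset Filter Real MeasureTheory

/-- circle averages of `log |p|` increase with the radius -/
theorem logmean_poly_mono (p : ℂ[X]) (r1 r2 : ℝ) (h1 : 0 < r1) (h12 : r1 ≤ r2) :
    circleAverage (fun x => log ‖p.eval x‖) 0 r1 ≤ circleAverage (fun x => log ‖p.eval x‖) 0 r2 := by
  have h2 : 0 < r2 := lt_of_lt_of_le h1 h12
  have hL : ∀ r : ℝ, ∀ q : ℂ[X], circleAverage (fun x => log ‖q.eval x‖) 0 r =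
      (q.comp (C (r:ℂ) * X)).logMahlerMeasure := by
    intro r q
    rw [circleAverage_eq_circleAverage_zero_one, logMahlerMeasure_def]
    simp
  rw [hL, hL]
  by_cases hp : p = 0
  · simp [hp]
  have hne : ∀ r : ℝ, 0 < r → ∀ q : ℂ[X], q ≠ 0 → q.comp (C (r:ℂ) * X) ≠ 0 := by
    intro r hr q hq h
    have hrC : (r:ℂ) ≠ 0 := by exact_mod_cast hr.ne'
    rw [comp_eq_zero_iff] at h
    rcases h with h | h
    · exact hq h
    · have h3 := congrArg natDegree h.2
      rw [natDegree_C_mul_X _ hrC, natDegree_C] at h3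
      exact one_ne_zero h3
  have hfac : ∀ s : Multiset ℂ, ((s.map (fun a => X - C a)).prod ≠ 0) ∧
      (((s.map (fun a => X - C a)).prod).comp (C (r1:ℂ) * X)).logMahlerMeasure ≤
      (((s.map (fun a => X - C a)).prod).comp (C (r2:ℂ) * X)).logMahlerMeasure := by
    intro s
    induction s using Multiset.induction_on with
    | empty => simp
    | cons a s ih =>
      obtain ⟨ih1, ih2⟩ := ih
      rw [Multiset.map_cons, Multiset.prod_cons]
      have hX : (X - C a : ℂ[X]) ≠ 0 := X_sub_C_ne_zero a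
      refine ⟨mul_ne_zero hX ih1, ?_⟩
      rw [mul_comp, mul_comp,
        logMahlerMeasure_mul_eq_add_logMahlerMeasure (mul_ne_zero (hne r1 h1 _ hX) (hne r1 h1 _ ih1)),
        logMahlerMeasure_mul_eq_add_logMahlerMeasure (mul_ne_zero (hne r2 h2 _ hX) (hne r2 h2 _ ih1))]
      refine add_le_add ?_ ih2
      have h3 : ∀ r : ℝ, 0 < r → ((X - C a : ℂ[X]).comp (C (r:ℂ) * X)).logMahlerMeasure =
          max (log r) (log ‖a‖) ∨ (a = 0 ∧ ((X - C a : ℂ[X]).comp (C (r:ℂ) * X)).logMahlerMeasure = log r) := by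
        intro r hr
        have hrC : (r:ℂ) ≠ 0 := by exact_mod_cast hr.ne'
        have h4 : (X - C a : ℂ[X]).comp (C (r:ℂ) * X) = C (r:ℂ) * X + C (-a) := by
          simp [sub_eq_add_neg]
        rw [h4, logMahlerMeasure_C_mul_X_add_C hrC]
        by_cases ha : a = 0
        · right
          refine ⟨ha, ?_⟩
          simp [ha, Real.posLog]
        · left
          have ha' : 0 < ‖a‖ := norm_pos_iff.mpr ha
          rw [norm_mul, norm_neg, norm_inv, Complex.norm_real, Real.norm_eq_abs, Real.log_abs,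
            abs_of_pos hr, Real.posLog, Real.log_mul (inv_ne_zero hr.ne') ha'.ne', Real.log_inv]
          rcases le_total (log r) (log ‖a‖) with h | h
          · rw [max_eq_right h, max_eq_right (by linarith)]; ring
          · rw [max_eq_left h, max_eq_left (by linarith)]; ring
      have hlog : log r1 ≤ log r2 := Real.log_le_log h1 h12
      rcases h3 r1 h1 with h4 | ⟨ha, h4⟩
      · rcases h3 r2 h2 with h5 | ⟨ha, h5⟩
        · rw [h4, h5]; exact max_le_max hlog (le_refl _)
        · rw [h4, h5, ha]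
          have : ((X - C a : ℂ[X]).comp (C (r1:ℂ) * X)).logMahlerMeasure = log r1 := by
            rw [ha]
            have hrC : (r1:ℂ) ≠ 0 := by exact_mod_cast h1.ne'
            have h6 : (X - C (0:ℂ) : ℂ[X]).comp (C (r1:ℂ) * X) = C (r1:ℂ) * X + C 0 := by simp
            rw [h6, logMahlerMeasure_C_mul_X_add_C hrC]
            simp [Real.posLog]
          rw [← ha, ← h4, this]
          exact hlog
      · rw [h4, ha]
        have hrC : (r2:ℂ) ≠ 0 := by exact_mod_cast h2.ne'
        have h6 : (X - C (0:ℂ) : ℂ[X]).comp (C (r2:ℂ) * X) = C (r2:ℂ) * X + C 0 := by simp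
        rw [h6, logMahlerMeasure_C_mul_X_add_C hrC]
        simp [Real.posLog]
        exact hlog
  have hs : p = C p.leadingCoeff * (p.roots.map (fun a => X - C a)).prod :=
    (IsAlgClosed.splits p).eq_prod_roots
  have hlc : p.leadingCoeff ≠ 0 := leadingCoeff_ne_zero.mpr hp
  obtain ⟨h3, h4⟩ := hfac p.roots
  rw [hs, mul_comp, mul_comp, C_comp, C_comp,
    logMahlerMeasure_C_mul hlc (hne r1 h1 _ h3), logMahlerMeasure_C_mul hlc (hne r2 h2 _ h3)]
  linarith

/-- the product of `S` over the fibre is a polynomial -/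
theorem exists_resultant (m : ℕ) (PP : ℂ[X]) (D : Set ℂ) (F : Fin m → ℂ → ℂ) (hm : 0 < m)
    (hF : ∀ x ∈ D, PP - C (x ^ m) = ∏ i : Fin m, (X - C (F i x))) (S : ℂ[X]) (hS : S ≠ 0) :
    ∃ p : ℂ[X], p ≠ 0 ∧ ∀ x ∈ D, p.eval x = ∏ i : Fin m, S.eval (F i x) := by
  have hfac : ∀ s : Multiset ℂ, ∃ p : ℂ[X], p ≠ 0 ∧ ∀ x ∈ D, p.eval x =
      ∏ i : Fin m, ((s.map (fun a => X - C a)).prod).eval (F i x) := by
    intro s
    induction s using Multiset.induction_on with
    | empty => exact ⟨1, one_ne_zero, by simp⟩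
    | cons a s ih =>
      obtain ⟨p, hp0, hp⟩ := ih
      refine ⟨(C ((-1)^m) * (C (PP.eval a) - X ^ m)) * p, ?_, ?_⟩
      · apply mul_ne_zero _ hp0
        apply mul_ne_zero
        · rw [Ne, C_eq_zero]; exact pow_ne_zero _ (by norm_num)
        · intro h
          have h3 := congrArg (fun q => coeff q m) h
          simp only [coeff_sub, coeff_C, if_neg hm.ne', coeff_X_pow, if_true, coeff_zero] at h3
          norm_num at h3
      · intro x hx
        have h4 : ∏ i : Fin m, (F i x - a) = (-1)^m * (PP.eval a - x ^ m) := by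
          have h5 := congrArg (eval a) (hF x hx)
          rw [eval_sub, eval_C, eval_prod] at h5
          rw [h5]
          have h6 : ∀ i : Fin m, F i x - a = (-1) * eval a (X - C (F i x)) := by
            intro i; simp
          rw [Finset.prod_congr rfl (fun i _ => h6 i), Finset.prod_mul_distrib]
          simp
        simp only [Multiset.map_cons, Multiset.prod_cons, eval_mul, Finset.prod_mul_distrib]
        rw [hp x hx]
        simp only [eval_sub, eval_X, eval_C, eval_pow]
        rw [h4]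
  obtain ⟨p, hp0, hp⟩ := hfac S.roots
  have hs : S = C S.leadingCoeff * (S.roots.map (fun a => X - C a)).prod :=
    (IsAlgClosed.splits S).eq_prod_roots
  have hlc : S.leadingCoeff ≠ 0 := leadingCoeff_ne_zero.mpr hS
  refine ⟨C (S.leadingCoeff ^ m) * p, ?_, ?_⟩
  · apply mul_ne_zero _ hp0
    rw [Ne, C_eq_zero]; exact pow_ne_zero _ hlc
  · intro x hx
    rw [eval_mul, eval_C, hp x hx]
    conv_rhs => rw [hs]
    simp only [eval_mul, eval_C, Finset.prod_mul_distrib, Finset.prod_const, Finset.card_univ,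
      Fintype.card_fin]

/-- rotation invariance -/
theorem circleAverage_rotate (F : ℂ → ℝ) (r : ℝ) (u : ℂ) (hu : ‖u‖ = 1) :
    circleAverage (fun x => F (u * x)) 0 r = circleAverage F 0 r := by
  have h1 : u = Complex.exp (u.arg * Complex.I) := by
    have := Complex.norm_mul_exp_arg_mul_I u
    rw [hu] at this
    simpa using this.symm
  rw [circleAverage_eq_integral_add (f := F) (u.arg), circleAverage_def]
  congr 1
  apply intervalIntegral.integral_congr
  intro θ _
  simp only
  congr 1
  rw [circleMap, circleMap]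
  conv_lhs => rw [h1]
  push_cast
  rw [add_mul, Complex.exp_add]
  ring

/-- the circle averages of `log |S ∘ f|` increase with the radius -/
theorem logmean_mono (m : ℕ) (hm : 0 < m) (PP : ℂ[X]) (r0 : ℝ) (hr0 : 0 < r0) (f : ℂ → ℂ)
    (hf : DifferentiableOn ℂ f {x | r0 < ‖x‖}) (ω : ℂ) (hω : ‖ω‖ = 1)
    (hfac : ∀ x, r0 < ‖x‖ → PP - C (x ^ m) = ∏ i : Fin m, (X - C (f (ω ^ (i:ℕ) * x))))
    (S : ℂ[X]) (r1 r2 : ℝ) (h1 : r0 < r1) (h12 : r1 ≤ r2) :
    circleAverage (fun x => log ‖S.eval (f x)‖) 0 r1 ≤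
      circleAverage (fun x => log ‖S.eval (f x)‖) 0 r2 ∧
    CircleIntegrable (fun x => log ‖S.eval (f x)‖) 0 r1 := by
  have hDo : IsOpen {x : ℂ | r0 < ‖x‖} := isOpen_lt continuous_const continuous_norm
  have hr1 : 0 < r1 := hr0.trans h1
  have hint : ∀ r : ℝ, r0 < r → ∀ u : ℂ, ‖u‖ = 1 →
      CircleIntegrable (fun x => log ‖S.eval (f (u * x))‖) 0 r := by
    intro r hr u hu
    have hmero : MeromorphicOn (fun x => S.eval (f (u * x))) (Metric.sphere 0 |r|) := by
      intro x hx
      apply AnalyticAt.meromorphicAt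
      have hxn : ‖u * x‖ = r := by
        rw [mem_sphere_zero_iff_norm, abs_of_pos (hr0.trans hr)] at hx
        rw [norm_mul, hu, one_mul, hx]
      have hfa : AnalyticAt ℂ f (u * x) :=
        hf.analyticAt (hDo.mem_nhds (by simp only [Set.mem_ofPred_eq]; rw [hxn]; exact hr))
      have h3 : AnalyticAt ℂ (fun x => f (u * x)) x := by
        have h4 : AnalyticAt ℂ (fun x : ℂ => u * x) x := by fun_prop
        exact AnalyticAt.fun_comp hfa h4
      have h5 : AnalyticAt ℂ (fun w => S.eval w) (f (u * x)) := by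
        have := (analyticOnNhd_id (𝕜 := ℂ) (s := Set.univ)).aeval_polynomial S (f (u * x)) (Set.mem_univ _)
        simpa using this
      exact AnalyticAt.fun_comp (g := fun w => S.eval w) (f := fun x => f (u * x)) h5 h3
    exact hmero.circleIntegrable_log_norm
  by_cases hS : S = 0
  · subst hS
    simp only [eval_zero, norm_zero, Real.log_zero]
    refine ⟨?_, ?_⟩
    · rw [circleAverage_const, circleAverage_const]
    · exact circleIntegrable_const 0 0 r1
  obtain ⟨p, hp0, hp⟩ := exists_resultant m PP {x | r0 < ‖x‖} (fun i x => f (ω ^ (i:ℕ) * x)) hm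
    hfac S hS
  have hωi : ∀ i : ℕ, ‖ω ^ i‖ = 1 := by intro i; rw [norm_pow, hω, one_pow]
  have hmean : ∀ r : ℝ, r0 < r → (m:ℝ) * circleAverage (fun x => log ‖S.eval (f x)‖) 0 r =
      circleAverage (fun x => log ‖p.eval x‖) 0 r := by
    intro r hr
    have hrpos : 0 < r := hr0.trans hr
    have h3 : (m:ℝ) * circleAverage (fun x => log ‖S.eval (f x)‖) 0 r =
        ∑ i : Fin m, circleAverage (fun x => log ‖S.eval (f (ω ^ (i:ℕ) * x))‖) 0 r := by
      rw [Finset.sum_congr rfl (fun (i : Fin m) _ => circleAverage_rotate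
        (fun x => log ‖S.eval (f x)‖) r (ω ^ (i:ℕ)) (hωi i))]
      simp
    rw [h3, ← circleAverage_fun_sum (fun (i : Fin m) _ => hint r hr _ (hωi (i:ℕ)))]
    apply circleAverage_congr_codiscreteWithin _ hrpos.ne'
    have han : AnalyticOnNhd ℂ (fun x => p.eval x) Set.univ := by
      intro x hx
      have := (analyticOnNhd_id (𝕜 := ℂ) (s := Set.univ)).aeval_polynomial p x (Set.mem_univ _)
      simpa using this
    obtain ⟨x0, hx0⟩ : ∃ x, p.eval x ≠ 0 := by
      by_contra hcon
      push Not at hcon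
      exact hp0 (Polynomial.funext (fun x => by rw [hcon x, eval_zero]))
    have hcod := han.preimage_zero_mem_codiscrete hx0
    have hcod2 : (fun x => p.eval x) ⁻¹' {0}ᶜ ∈ codiscreteWithin (Metric.sphere (0:ℂ) |r|) :=
      codiscreteWithin_mono (Set.subset_univ _) hcod
    have hself : Metric.sphere (0:ℂ) |r| ∈ codiscreteWithin (Metric.sphere (0:ℂ) |r|) :=
      self_mem_codiscreteWithin _
    filter_upwards [hcod2, hself] with x hx hxs
    have hxn : r0 < ‖x‖ := by
      rw [mem_sphere_zero_iff_norm, abs_of_pos hrpos] at hxs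
      rw [hxs]; exact hr
    simp only [Set.mem_preimage, Set.mem_compl_iff, Set.mem_singleton_iff] at hx
    rw [hp x hxn, norm_prod, Real.log_prod]
    intro i _
    rw [hp x hxn] at hx
    have := Finset.prod_ne_zero_iff.mp hx i (mem_univ i)
    exact norm_ne_zero_iff.mpr this
  refine ⟨?_, ?_⟩
  · have hm' : (0:ℝ) < m := by exact_mod_cast hm
    have h3 := logmean_poly_mono p r1 r2 hr1 h12
    rw [← hmean r1 h1, ← hmean r2 (lt_of_lt_of_le h1 h12)] at h3
    exact le_of_mul_le_mul_left h3 hm'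
  · have := hint r1 h1 1 (by simp)
    simpa using this

end Pool.Agent.Work.MP_9ec5dc_an
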