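import Mathlib

set_option autoImplicit false

namespace Pool.Agent.Work.MP_9ec5dc_an

open Filter Real MeasureTheory Set

/-- `∫_0^B 4 s log⁺(x/s) ds = x²` -/
theorem integral_posLog_sq (x B : ℝ) (hx : 0 ≤ x) (hB : x ≤ B) :
    ∫ s in (0:ℝ)..B, 4 * s * log⁺ (s⁻¹ * x) = x ^ 2 := by
  rcases eq_or_lt_of_le hx with rfl | hx'
  · simp [Real.posLog]
  have hcont : Continuous (fun s : ℝ => 4 * s * (log x) - 4 * (s * log s)) := by
    have := Real.continuous_mul_log
    fun_prop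
  -- first part
  have h1 : ∫ s in (0:ℝ)..x, 4 * s * log⁺ (s⁻¹ * x) = x ^ 2 := by
    have h2 : ∫ s in (0:ℝ)..x, 4 * s * log⁺ (s⁻¹ * x) =
        ∫ s in (0:ℝ)..x, (4 * s * (log x) - 4 * (s * log s)) := by
      rw [intervalIntegral.integral_of_le hx, intervalIntegral.integral_of_le hx]
      apply setIntegral_congr_fun measurableSet_Ioc
      intro s hs
      obtain ⟨hs0, hsx⟩ := hs
      simp only
      have h3 : 1 ≤ s⁻¹ * x := by
        rw [inv_mul_eq_div, one_le_div hs0]; exact hsx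
      rw [Real.posLog_eq_log (by rw [abs_of_nonneg (by linarith)]; exact h3),
        Real.log_mul (inv_ne_zero hs0.ne') hx'.ne', Real.log_inv]
      ring
    rw [h2]
    have h3 := intervalIntegral.integral_eq_sub_of_hasDerivAt_of_le
      (f := fun s : ℝ => 2 * s ^ 2 * log x - 2 * s * (s * log s) + s ^ 2)
      (f' := fun s : ℝ => 4 * s * (log x) - 4 * (s * log s)) hx
      (by
        have := Real.continuous_mul_log
        apply Continuous.continuousOn
        fun_prop)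
      (by
        intro s hs
        have hs0 : s ≠ 0 := hs.1.ne'
        have hlog := Real.hasDerivAt_log hs0
        have h4 : HasDerivAt (fun s : ℝ => 2 * s ^ 2 * log x - 2 * s * (s * log s) + s ^ 2)
            ((2 * (2 * s) * log x) - ((2 * 1) * (s * log s) + 2 * s * (1 * log s + s * s⁻¹)) + 2 * s) s := by
          have h5 : HasDerivAt (fun s : ℝ => s ^ 2) (2 * s) s := by
            simpa using hasDerivAt_pow 2 s
          have h6 : HasDerivAt (fun s : ℝ => s) 1 s := hasDerivAt_id s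
          exact (((h5.const_mul 2).mul_const (log x)).sub ((h6.const_mul 2).mul (h6.mul hlog))).add h5
        refine h4.congr_deriv ?_
        rw [mul_inv_cancel₀ hs0]
        ring)
      (hcont.intervalIntegrable _ _)
    rw [h3]
    simp
    ring
  have h2 : ∫ s in x..B, 4 * s * log⁺ (s⁻¹ * x) = 0 := by
    rw [intervalIntegral.integral_of_le hB]
    have h3 : ∫ s in Ioc x B, 4 * s * log⁺ (s⁻¹ * x) = ∫ s in Ioc x B, (0:ℝ) := by
      apply setIntegral_congr_fun measurableSet_Ioc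
      intro s hs
      simp only
      have hs0 : 0 < s := lt_of_le_of_lt hx hs.1
      have h4 : log⁺ (s⁻¹ * x) = 0 := by
        rw [Real.posLog_eq_zero_iff, abs_of_nonneg (by positivity), inv_mul_eq_div, div_le_one hs0]
        exact hs.1.le
      rw [h4, mul_zero]
    rw [h3]; simp
  have hi1 : IntervalIntegrable (fun s : ℝ => 4 * s * log⁺ (s⁻¹ * x)) volume 0 x := by
    rw [intervalIntegrable_iff_integrableOn_Ioc_of_le hx]
    have h3 : IntegrableOn (fun s : ℝ => 4 * s * (log x) - 4 * (s * log s)) (Ioc 0 x) := by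
      rw [← intervalIntegrable_iff_integrableOn_Ioc_of_le hx]
      exact hcont.intervalIntegrable _ _
    apply h3.congr_fun _ measurableSet_Ioc
    intro s hs
    obtain ⟨hs0, hsx⟩ := hs
    simp only
    have h3 : 1 ≤ s⁻¹ * x := by
      rw [inv_mul_eq_div, one_le_div hs0]; exact hsx
    rw [Real.posLog_eq_log (by rw [abs_of_nonneg (by linarith)]; exact h3),
      Real.log_mul (inv_ne_zero hs0.ne') hx'.ne', Real.log_inv]
    ring
  have hi2 : IntervalIntegrable (fun s : ℝ => 4 * s * log⁺ (s⁻¹ * x)) volume x B := by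
    rw [intervalIntegrable_iff_integrableOn_Ioc_of_le hB]
    have h3 : IntegrableOn (fun _ : ℝ => (0:ℝ)) (Ioc x B) := integrableOn_zero
    apply h3.congr_fun _ measurableSet_Ioc
    intro s hs
    simp only
    have hs0 : 0 < s := lt_of_le_of_lt hx hs.1
    have h4 : log⁺ (s⁻¹ * x) = 0 := by
      rw [Real.posLog_eq_zero_iff, abs_of_nonneg (by positivity), inv_mul_eq_div, div_le_one hs0]
      exact hs.1.le
    rw [h4, mul_zero]
  rw [← intervalIntegral.integral_add_adjacent_intervals hi1 hi2, h1, h2, add_zero]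

/-- abbreviation: Lebesgue measure on `(0, 2π]` -/
noncomputable abbrev μc : Measure ℝ := volume.restrict (Ioc 0 (2 * π))

/-- Fubini for the logarithmic kernel -/
theorem swap_log (g : ℝ → ℂ) (hg : Continuous g) (B : ℝ) (hB : ∀ θ, ‖g θ‖ ≤ B) (s : ℝ)
    (hs : 0 < s) :
    (2 * π) * (∫ θ, (log s + log⁺ (s⁻¹ * ‖g θ‖)) ∂μc) =
      ∫ φ, (∫ θ, log ‖g θ - circleMap 0 s φ‖ ∂μc) ∂μc ∧
    Integrable (fun φ => ∫ θ, log ‖g θ - circleMap 0 s φ‖ ∂μc) μc := by
  have h2pi : (0:ℝ) < 2 * π := by positivity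
  have hB0 : 0 ≤ B := (norm_nonneg _).trans (hB 0)
  set Cst : ℝ := log (B + s + 1) with hCst
  -- integrability in φ
  have hint1 : ∀ θ, Integrable (fun φ => log ‖g θ - circleMap 0 s φ‖) μc := by
    intro θ
    have h1 : CircleIntegrable (fun x => log ‖x - g θ‖) 0 s := circleIntegrable_log_norm_sub_const s
    rw [CircleIntegrable, intervalIntegrable_iff_integrableOn_Ioc_of_le h2pi.le] at h1
    simpa [norm_sub_rev, IntegrableOn] using h1
  have hval1 : ∀ θ, ∫ φ, log ‖g θ - circleMap 0 s φ‖ ∂μc =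
      (2 * π) * (log s + log⁺ (s⁻¹ * ‖g θ‖)) := by
    intro θ
    have h1 := circleAverage_log_norm_sub_const_eq_log_radius_add_posLog (a := g θ) (c := 0) (R := s)
      hs.ne'
    rw [circleAverage_def, intervalIntegral.integral_of_le h2pi.le, zero_sub, norm_neg,
      smul_eq_mul] at h1
    simp only [norm_sub_rev _ (g θ)] at h1
    rw [← h1]
    field_simp
  have hle : ∀ θ φ, 0 ≤ Cst - log ‖g θ - circleMap 0 s φ‖ := by
    intro θ φ
    have hC0 : 0 ≤ Cst := Real.log_nonneg (by linarith)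
    by_cases h0 : ‖g θ - circleMap 0 s φ‖ = 0
    · rw [h0, Real.log_zero, sub_zero]; exact hC0
    · have h1 : ‖g θ - circleMap 0 s φ‖ ≤ B + s + 1 := by
        refine (norm_sub_le _ _).trans ?_
        rw [norm_circleMap_zero, abs_of_pos hs]
        linarith [hB θ]
      have := Real.log_le_log (lt_of_le_of_ne (norm_nonneg _) (Ne.symm h0)) h1
      linarith
  have hcontR : Continuous (fun θ => log s + log⁺ (s⁻¹ * ‖g θ‖)) := by
    have := Real.continuous_posLog
    fun_prop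
  have hmeas : Measurable (fun p : ℝ × ℝ => log ‖g p.2 - circleMap 0 s p.1‖) := by
    have h1 : Measurable (fun p : ℝ × ℝ => ‖g p.2 - circleMap 0 s p.1‖) := by
      apply Continuous.measurable
      fun_prop
    exact Real.measurable_log.comp h1
  have hprod' : Integrable (fun p : ℝ × ℝ => Cst - log ‖g p.2 - circleMap 0 s p.1‖)
      (μc.prod μc) := by
    have hm2 : AEStronglyMeasurable (fun p : ℝ × ℝ => Cst - log ‖g p.2 - circleMap 0 s p.1‖)
        (μc.prod μc) := (measurable_const.sub hmeas).aestronglyMeasurable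
    rw [integrable_prod_iff' hm2]
    refine ⟨Filter.Eventually.of_forall (fun θ => (integrable_const _).sub (hint1 θ)), ?_⟩
    have h1 : (fun θ => ∫ φ, ‖Cst - log ‖g θ - circleMap 0 s φ‖‖ ∂μc) =
        fun θ => (2 * π) * Cst - (2 * π) * (log s + log⁺ (s⁻¹ * ‖g θ‖)) := by
      funext θ
      have h2 : ∫ φ, ‖Cst - log ‖g θ - circleMap 0 s φ‖‖ ∂μc =
          ∫ φ, (Cst - log ‖g θ - circleMap 0 s φ‖) ∂μc := by
        apply integral_congr_ae
        exact Filter.Eventually.of_forall (fun φ => by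
          simp only
          rw [Real.norm_eq_abs, abs_of_nonneg (hle θ φ)])
      rw [h2, integral_sub (integrable_const _) (hint1 θ), hval1, integral_const]
      simp [Real.pi_pos.le]
    simp only at h1 ⊢
    rw [h1]
    apply Integrable.sub (integrable_const _)
    apply Integrable.const_mul
    exact (hcontR.continuousOn.integrableOn_Icc (μ := volume) (a := 0) (b := 2*π)).mono_set
      Ioc_subset_Icc_self
  have hprod : Integrable (fun p : ℝ × ℝ => log ‖g p.2 - circleMap 0 s p.1‖) (μc.prod μc) := by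
    have h1 := (integrable_const (μ := μc.prod μc) Cst).sub hprod'
    refine h1.congr (Filter.Eventually.of_forall (fun p => ?_))
    simp
  refine ⟨?_, ?_⟩
  · have h1 := integral_integral_swap (f := fun φ θ => log ‖g θ - circleMap 0 s φ‖)
      (μ := μc) (ν := μc) hprod
    rw [h1]
    simp only [hval1]
    rw [integral_const_mul]
  · exact hprod.integral_prod_left

/-- from logarithmic means to `log⁺` means -/
theorem posLog_mean_le (g1 g2 : ℝ → ℂ) (hg1 : Continuous g1) (hg2 : Continuous g2) (B : ℝ)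
    (hB1 : ∀ θ, ‖g1 θ‖ ≤ B) (hB2 : ∀ θ, ‖g2 θ‖ ≤ B)
    (h : ∀ c, ∫ θ, log ‖g1 θ - c‖ ∂μc ≤ ∫ θ, log ‖g2 θ - c‖ ∂μc) (s : ℝ) (hs : 0 < s) :
    ∫ θ, log⁺ (s⁻¹ * ‖g1 θ‖) ∂μc ≤ ∫ θ, log⁺ (s⁻¹ * ‖g2 θ‖) ∂μc := by
  have h2pi : (0:ℝ) < 2 * π := by positivity
  obtain ⟨h1, h2⟩ := swap_log g1 hg1 B hB1 s hs
  obtain ⟨h3, h4⟩ := swap_log g2 hg2 B hB2 s hs
  have h5 : ∫ φ, (∫ θ, log ‖g1 θ - circleMap 0 s φ‖ ∂μc) ∂μc ≤
      ∫ φ, (∫ θ, log ‖g2 θ - circleMap 0 s φ‖ ∂μc) ∂μc :=
    integral_mono h2 h4 (fun φ => h _)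
  rw [← h1, ← h3] at h5
  have h6 := le_of_mul_le_mul_left h5 h2pi
  have hi : ∀ g : ℝ → ℂ, Continuous g → Integrable (fun θ => log⁺ (s⁻¹ * ‖g θ‖)) μc := by
    intro g hg
    have hcontR : Continuous (fun θ => log⁺ (s⁻¹ * ‖g θ‖)) := by
      have := Real.continuous_posLog
      fun_prop
    exact (hcontR.continuousOn.integrableOn_Icc (μ := volume) (a := 0) (b := 2*π)).mono_set
      Ioc_subset_Icc_self
  rw [integral_add (integrable_const _) (hi g1 hg1), integral_add (integrable_const _) (hi g2 hg2)]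
    at h6
  linarith

/-- from logarithmic means to square means -/
theorem sq_mean_le (g1 g2 : ℝ → ℂ) (hg1 : Continuous g1) (hg2 : Continuous g2) (B : ℝ)
    (hB1 : ∀ θ, ‖g1 θ‖ ≤ B) (hB2 : ∀ θ, ‖g2 θ‖ ≤ B)
    (h : ∀ c, ∫ θ, log ‖g1 θ - c‖ ∂μc ≤ ∫ θ, log ‖g2 θ - c‖ ∂μc) :
    ∫ θ, ‖g1 θ‖ ^ 2 ∂μc ≤ ∫ θ, ‖g2 θ‖ ^ 2 ∂μc := by
  have hB0 : 0 ≤ B := (norm_nonneg _).trans (hB1 0)
  set νB : Measure ℝ := volume.restrict (Ioc 0 B) with hνB
  have key : ∀ g : ℝ → ℂ, Continuous g → (∀ θ, ‖g θ‖ ≤ B) →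
      ∫ θ, ‖g θ‖ ^ 2 ∂μc = ∫ s, (∫ θ, 4 * s * log⁺ (s⁻¹ * ‖g θ‖) ∂μc) ∂νB ∧
      Integrable (fun s => ∫ θ, 4 * s * log⁺ (s⁻¹ * ‖g θ‖) ∂μc) νB := by
    intro g hg hgB
    have h1 : ∀ θ, ‖g θ‖ ^ 2 = ∫ s, 4 * s * log⁺ (s⁻¹ * ‖g θ‖) ∂νB := by
      intro θ
      have h2 := integral_posLog_sq ‖g θ‖ B (norm_nonneg _) (hgB θ)
      rw [intervalIntegral.integral_of_le hB0] at h2
      exact h2.symm
    have hint : Integrable (fun p : ℝ × ℝ => 4 * p.2 * log⁺ (p.2⁻¹ * ‖g p.1‖)) (μc.prod νB) := by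
      have hmeas : Measurable (fun p : ℝ × ℝ => 4 * p.2 * log⁺ (p.2⁻¹ * ‖g p.1‖)) := by
        have h3 : Measurable (fun p : ℝ × ℝ => p.2⁻¹ * ‖g p.1‖) := by
          apply Measurable.mul
          · exact measurable_snd.inv
          · exact (hg.norm.measurable).comp measurable_fst
        have h4 : Measurable (fun p : ℝ × ℝ => log⁺ (p.2⁻¹ * ‖g p.1‖)) :=
          (Real.continuous_posLog.measurable).comp h3
        exact (measurable_snd.const_mul 4).mul h4
      refine Integrable.of_bound hmeas.aestronglyMeasurable (4 * B) ?_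
      rw [Measure.prod_restrict]
      rw [ae_restrict_iff' (measurableSet_Ioc.prod measurableSet_Ioc)]
      refine Filter.Eventually.of_forall (fun p hp => ?_)
      obtain ⟨_, hp2⟩ := hp
      have hs0 : 0 < p.2 := hp2.1
      have h5 : log⁺ (p.2⁻¹ * ‖g p.1‖) ≤ p.2⁻¹ * ‖g p.1‖ := by
        have h6 : 0 ≤ p.2⁻¹ * ‖g p.1‖ := by positivity
        rw [Real.posLog]
        refine max_le h6 ?_
        rcases eq_or_lt_of_le h6 with h7 | h7
        · rw [← h7]; simp
        · exact (Real.log_le_sub_one_of_pos h7).trans (by linarith)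
      have h6 : 0 ≤ 4 * p.2 * log⁺ (p.2⁻¹ * ‖g p.1‖) := by
        have := Real.posLog_nonneg (x := p.2⁻¹ * ‖g p.1‖)
        positivity
      rw [Real.norm_eq_abs, abs_of_nonneg h6]
      calc 4 * p.2 * log⁺ (p.2⁻¹ * ‖g p.1‖) ≤ 4 * p.2 * (p.2⁻¹ * ‖g p.1‖) := by gcongr
        _ = 4 * ‖g p.1‖ := by field_simp
        _ ≤ 4 * B := by linarith [hgB p.1]
    refine ⟨?_, ?_⟩
    · simp only [h1]
      exact integral_integral_swap (f := fun θ s => 4 * s * log⁺ (s⁻¹ * ‖g θ‖))
        (μ := μc) (ν := νB) hint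
    · exact hint.integral_prod_right
  obtain ⟨h1, h2⟩ := key g1 hg1 hB1
  obtain ⟨h3, h4⟩ := key g2 hg2 hB2
  rw [h1, h3]
  apply integral_mono_ae h2 h4
  rw [Filter.EventuallyLE, ae_restrict_iff' measurableSet_Ioc]
  refine Filter.Eventually.of_forall (fun s hs => ?_)
  rw [integral_const_mul, integral_const_mul]
  have hs0 : 0 < s := hs.1
  exact mul_le_mul_of_nonneg_left (posLog_mean_le g1 g2 hg1 hg2 B hB1 hB2 h s hs0) (by positivity)

end Pool.Agent.Work.MP_9ec5dc_an
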