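import Mathlib

set_option autoImplicit false

namespace Pool.Agent.Work.MP_9ec5dc_an

open Filter Real MeasureTheory Polynomial Finset

/-- Parseval for absolutely convergent power series on the unit circle -/
theorem parseval (b : ℕ → ℂ) (hb : Summable (fun i => ‖b i‖)) :
    circleAverage (fun x => ‖∑' i, b i * x ^ i‖ ^ 2) 0 1 = ∑' i, ‖b i‖ ^ 2 := by
  have h2pi : (0:ℝ) ≤ 2 * π := by positivity
  let p : ℕ → ℂ[X] := fun n => ∑ i ∈ range n, C (b i) * X ^ i
  have hpeval : ∀ n x, (p n).eval x = ∑ i ∈ range n, b i * x ^ i := by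
    intro n x; simp [p, eval_finsetSum]
  have hpcoeff : ∀ n i, (p n).coeff i = if i < n then b i else 0 := by
    intro n i
    simp only [p, finsetSum_coeff, coeff_C_mul, coeff_X_pow]
    simp
  have hfin : ∀ n, circleAverage (fun x => ‖(p n).eval x‖ ^ 2) 0 1 = ∑ i ∈ range n, ‖b i‖ ^ 2 := by
    intro n
    rw [← sum_sq_norm_coeff_eq_circleAverage]
    have h1 : (p n).support ⊆ range n := by
      intro i hi
      rw [mem_support_iff, hpcoeff] at hi
      rw [mem_range]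
      by_contra h
      rw [if_neg h] at hi
      exact hi rfl
    rw [Finset.sum_subset h1]
    · refine Finset.sum_congr rfl (fun i hi => ?_)
      rw [hpcoeff, if_pos (mem_range.mp hi)]
    · intro i _ hi
      rw [notMem_support_iff.mp hi]
      simp
  have hsq : Summable (fun i => ‖b i‖ ^ 2) := by
    refine Summable.of_norm_bounded_eventually_nat (g := fun i => ‖b i‖) hb ?_
    have h1 := hb.tendsto_atTop_zero
    filter_upwards [h1.eventually (gt_mem_nhds (zero_lt_one))] with i hi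
    rw [norm_pow, norm_norm]
    have := norm_nonneg (b i)
    nlinarith
  have hlim1 : Tendsto (fun n => circleAverage (fun x => ‖(p n).eval x‖ ^ 2) 0 1) atTop
      (nhds (∑' i, ‖b i‖ ^ 2)) := by
    simp only [hfin]
    exact hsq.hasSum.tendsto_sum_nat
  have hbx : ∀ θ : ℝ, Summable (fun i => b i * (circleMap 0 1 θ) ^ i) := by
    intro θ
    apply Summable.of_norm
    refine hb.congr (fun i => ?_)
    rw [norm_mul, norm_pow, norm_circleMap_zero]
    simp
  have hlim2 : Tendsto (fun n => circleAverage (fun x => ‖(p n).eval x‖ ^ 2) 0 1) atTop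
      (nhds (circleAverage (fun x => ‖∑' i, b i * x ^ i‖ ^ 2) 0 1)) := by
    simp only [circleAverage_def]
    apply Tendsto.const_smul
    simp only [intervalIntegral.integral_of_le h2pi]
    apply tendsto_integral_of_dominated_convergence (fun _ => (∑' i, ‖b i‖) ^ 2)
    · intro n
      apply Continuous.aestronglyMeasurable
      have : Continuous (fun x => (p n).eval x) := (p n).continuous
      fun_prop
    · exact integrable_const _
    · intro n
      refine Filter.Eventually.of_forall (fun θ => ?_)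
      rw [norm_pow, norm_norm]
      apply pow_le_pow_left₀ (norm_nonneg _)
      rw [hpeval]
      refine (norm_sum_le _ _).trans ?_
      have h1 : ∀ i ∈ range n, ‖b i * (circleMap 0 1 θ) ^ i‖ = ‖b i‖ := by
        intro i _
        rw [norm_mul, norm_pow, norm_circleMap_zero]
        simp
      rw [Finset.sum_congr rfl h1]
      exact hb.sum_le_tsum _ (fun i _ => norm_nonneg _)
    · refine Filter.Eventually.of_forall (fun θ => ?_)
      have h1 := (hbx θ).hasSum.tendsto_sum_nat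
      simp only [hpeval]
      exact (h1.norm).pow 2
  exact tendsto_nhds_unique hlim2 hlim1

/-- Bernoulli type inequality -/
theorem bern (L : ℝ) (hL : 1 < L) (N i : ℕ) :
    ((i:ℝ) - N) * (L ^ N * (L - 1)) ≤ L ^ i - L ^ N := by
  have hL0 : 0 < L := by linarith
  rcases le_total N i with h | h
  · obtain ⟨k, rfl⟩ := Nat.exists_eq_add_of_le h
    have h1 := one_add_mul_le_pow (a := L - 1) (by linarith) k
    rw [add_sub_cancel] at h1
    have h2 : 0 < L ^ N := by positivity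
    push_cast
    rw [pow_add]
    nlinarith
  · obtain ⟨k, rfl⟩ := Nat.exists_eq_add_of_le h
    have h1 := one_add_mul_le_pow (a := L⁻¹ - 1) (by have : 0 < L⁻¹ := by positivity
                                                     linarith) k
    rw [add_sub_cancel] at h1
    have h2 : 0 < L ^ (i + k) := by positivity
    have h3 : L ^ (i + k) * (L⁻¹) ^ k = L ^ i := by
      rw [pow_add, mul_assoc, ← mul_pow, mul_inv_cancel₀ hL0.ne', one_pow, mul_one]
    have h4 : 1 - L⁻¹ ≤ L - 1 := by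
      have : L + L⁻¹ ≥ 2 := by
        have h5 : L * L⁻¹ = 1 := mul_inv_cancel₀ hL0.ne'
        nlinarith [sq_nonneg (L - 1), inv_pos.mpr hL0]
      linarith
    have h5 : L ^ (i+k) * (1 + k * (L⁻¹ - 1)) ≤ L ^ i := by
      rw [← h3]
      exact mul_le_mul_of_nonneg_left h1 h2.le
    push_cast
    have h6 : (k:ℝ) * (L ^ (i+k) * (1 - L⁻¹)) ≤ k * (L ^ (i+k) * (L - 1)) := by
      gcongr
    nlinarith

/-- from monotonicity to the area type inequality -/
theorem area_ineq (d : ℕ → ℝ) (hd : ∀ i, 0 ≤ d i) (N : ℕ) (L : ℝ) (hL : 1 < L)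
    (hs1 : Summable d) (hs2 : Summable (fun i => d i * L ^ i))
    (h : ∑' i, d i * L ^ i ≤ L ^ N * ∑' i, d i) (M : ℕ) (hM : N ≤ M) :
    ∑ i ∈ range M, ((i:ℝ) - N) * d i ≤ 0 := by
  have hpos : 0 < L ^ N * (L - 1) := mul_pos (by positivity) (by linarith)
  have h1 : ∑' i, (d i * L ^ i - L ^ N * d i) ≤ 0 := by
    rw [hs2.tsum_sub (hs1.mul_left _), tsum_mul_left]
    linarith
  have hsum : Summable (fun i => d i * L ^ i - L ^ N * d i) := hs2.sub (hs1.mul_left _)
  have h2 : ∑ i ∈ range M, (d i * L ^ i - L ^ N * d i) ≤ ∑' i, (d i * L ^ i - L ^ N * d i) := by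
    apply hsum.sum_le_tsum
    intro i hi
    rw [mem_range, not_lt] at hi
    have h3 : L ^ N ≤ L ^ i := pow_le_pow_right₀ hL.le (hM.trans hi)
    nlinarith [hd i]
  have h3 : (L ^ N * (L - 1)) * ∑ i ∈ range M, ((i:ℝ) - N) * d i ≤
      ∑ i ∈ range M, (d i * L ^ i - L ^ N * d i) := by
    rw [Finset.mul_sum]
    refine Finset.sum_le_sum (fun i _ => ?_)
    have := bern L hL N i
    have h4 := hd i
    nlinarith
  by_contra hcon
  push Not at hcon
  have := mul_pos hpos hcon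
  linarith

/-- the tail is controlled by the first terms -/
theorem tail_bound (d : ℕ → ℝ) (hd : ∀ i, 0 ≤ d i) (N : ℕ) (hs1 : Summable d)
    (h : ∀ M, N ≤ M → ∑ i ∈ range M, ((i:ℝ) - N) * d i ≤ 0) :
    ∑' i, d i ≤ 2 * ∑ i ∈ range (2*N+1), d i := by
  apply hs1.tsum_le_of_sum_range_le
  intro M
  rcases le_total M (2*N+1) with hM | hM
  · have h1 : ∑ i ∈ range M, d i ≤ ∑ i ∈ range (2*N+1), d i := by
      apply Finset.sum_le_sum_of_subset_of_nonneg
      · exact range_subset_range.mpr hM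
      · intro i _ _; exact hd i
    have h2 : 0 ≤ ∑ i ∈ range (2*N+1), d i := Finset.sum_nonneg (fun i _ => hd i)
    linarith
  · have h1 := h M (by omega)
    have h2 : ∑ i ∈ range M, d i = ∑ i ∈ range (2*N+1), d i + ∑ i ∈ Ico (2*N+1) M, d i :=
      (Finset.sum_range_add_sum_Ico _ hM).symm
    have h3 : ∑ i ∈ range M, ((i:ℝ) - N) * d i =
        ∑ i ∈ range (2*N+1), ((i:ℝ) - N) * d i + ∑ i ∈ Ico (2*N+1) M, ((i:ℝ) - N) * d i :=
      (Finset.sum_range_add_sum_Ico _ hM).symm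
    have h4 : ((N:ℝ) + 1) * ∑ i ∈ Ico (2*N+1) M, d i ≤ ∑ i ∈ Ico (2*N+1) M, ((i:ℝ) - N) * d i := by
      rw [Finset.mul_sum]
      refine Finset.sum_le_sum (fun i hi => ?_)
      rw [Finset.mem_Ico] at hi
      have h5 : (2*(N:ℝ)+1) ≤ i := by exact_mod_cast hi.1
      exact mul_le_mul_of_nonneg_right (by linarith) (hd i)
    have h5 : -((N:ℝ) + 1) * ∑ i ∈ range (2*N+1), d i ≤
        ∑ i ∈ range (2*N+1), ((i:ℝ) - N) * d i := by
      rw [Finset.mul_sum]
      refine Finset.sum_le_sum (fun i _ => ?_)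
      have h6 : (0:ℝ) ≤ i := Nat.cast_nonneg i
      exact mul_le_mul_of_nonneg_right (by linarith) (hd i)
    have hN : (0:ℝ) < (N:ℝ) + 1 := by positivity
    have h6 : ((N:ℝ) + 1) * ∑ i ∈ Ico (2*N+1) M, d i ≤ ((N:ℝ) + 1) * ∑ i ∈ range (2*N+1), d i := by
      linarith
    have h7 := le_of_mul_le_mul_left h6 hN
    linarith

/-- Cauchy-Schwarz for point evaluations -/
theorem point_eval (a : ℕ → ℂ) (r r' : ℝ) (hr : 0 < r) (hr' : r < r')
    (d : ℕ → ℝ) (hd : ∀ i, d i = ‖a i‖ ^ 2 * (r⁻¹ ^ 2) ^ i) (hs : Summable d) (t : ℂ)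
    (ht : ‖t‖ = r'⁻¹) (S : ℂ) (hS : HasSum (fun i => a i * t ^ i) S) :
    ‖S‖ ^ 2 ≤ (∑' i, d i) * (1 - (r / r') ^ 2)⁻¹ := by
  have hr'0 : 0 < r' := hr.trans hr'
  have hq0 : 0 ≤ (r / r') ^ 2 := by positivity
  have hq1 : (r / r') ^ 2 < 1 := by
    have h1 : r / r' < 1 := (div_lt_one hr'0).mpr hr'
    have h2 : 0 ≤ r / r' := by positivity
    nlinarith
  have hlim : Tendsto (fun n => ‖∑ i ∈ range n, a i * t ^ i‖ ^ 2) atTop (nhds (‖S‖ ^ 2)) :=
    (hS.tendsto_sum_nat.norm).pow 2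
  refine le_of_tendsto' hlim (fun n => ?_)
  have h1 : ‖∑ i ∈ range n, a i * t ^ i‖ ≤
      ∑ i ∈ range n, (‖a i‖ * (r⁻¹) ^ i) * ((r / r') ^ i) := by
    refine (norm_sum_le _ _).trans (le_of_eq ?_)
    refine Finset.sum_congr rfl (fun i _ => ?_)
    rw [norm_mul, norm_pow, ht, mul_assoc, ← mul_pow]
    congr 2
    field_simp
  have h2 : (∑ i ∈ range n, (‖a i‖ * (r⁻¹) ^ i) * ((r / r') ^ i)) ^ 2 ≤
      (∑ i ∈ range n, (‖a i‖ * (r⁻¹) ^ i) ^ 2) * (∑ i ∈ range n, ((r / r') ^ i) ^ 2) :=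
    Finset.sum_mul_sq_le_sq_mul_sq _ _ _
  have h3 : ∑ i ∈ range n, (‖a i‖ * (r⁻¹) ^ i) ^ 2 ≤ ∑' i, d i := by
    have h4 : ∑ i ∈ range n, (‖a i‖ * (r⁻¹) ^ i) ^ 2 = ∑ i ∈ range n, d i := by
      refine Finset.sum_congr rfl (fun i _ => ?_)
      rw [hd, mul_pow, ← pow_mul, ← pow_mul, mul_comm i 2]
    rw [h4]
    exact hs.sum_le_tsum _ (fun i _ => by rw [hd]; positivity)
  have h5 : ∑ i ∈ range n, ((r / r') ^ i) ^ 2 ≤ (1 - (r / r') ^ 2)⁻¹ := by
    have h6 : ∑ i ∈ range n, ((r / r') ^ i) ^ 2 = ∑ i ∈ range n, ((r / r') ^ 2) ^ i := by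
      refine Finset.sum_congr rfl (fun i _ => ?_)
      rw [← pow_mul, ← pow_mul, mul_comm]
    rw [h6, ← tsum_geometric_of_lt_one hq0 hq1]
    exact (summable_geometric_of_lt_one hq0 hq1).sum_le_tsum _ (fun i _ => by positivity)
  have h7 : 0 ≤ ∑ i ∈ range n, (‖a i‖ * (r⁻¹) ^ i) ^ 2 := Finset.sum_nonneg (fun i _ => by positivity)
  calc ‖∑ i ∈ range n, a i * t ^ i‖ ^ 2 ≤ (∑ i ∈ range n, (‖a i‖ * (r⁻¹) ^ i) * ((r / r') ^ i)) ^ 2 :=
        pow_le_pow_left₀ (norm_nonneg _) h1 2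
    _ ≤ _ := h2
    _ ≤ (∑' i, d i) * (1 - (r / r') ^ 2)⁻¹ := by
        apply mul_le_mul h3 h5 (Finset.sum_nonneg (fun i _ => by positivity)) (h7.trans h3)

end Pool.Agent.Work.MP_9ec5dc_an
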