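import Mathlib
import Pool.Agent.Work.MP_9ec5dc_an.Q2C
import Pool.Agent.Work.MP_9ec5dc_an.Q2D
import Pool.Agent.Work.MP_9ec5dc_an.Q2G

set_option autoImplicit false

namespace Pool.Agent.Work.MP_9ec5dc_an

open Filter Real MeasureTheory Polynomial Finset Bornology

/-- Laurent coefficients of the powers of `f` -/
theorem exists_coeffs (r0 : ℝ) (hr0 : 0 < r0) (f : ℂ → ℂ)
    (hf : DifferentiableOn ℂ f {x | r0 < ‖x‖})
    (hlim : Tendsto (fun x => f x / x) (cobounded ℂ) (nhds 1)) (N : ℕ) :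
    ∃ α : ℕ → ℕ → ℂ, (∀ i j, i + j < N → α i j = 0) ∧ (∀ i j, i + j = N → α i j = 1) ∧
      ∀ j, j ≤ N → ∀ x : ℂ, r0 < ‖x‖ → HasSum (fun i => α i j * (x⁻¹) ^ i) ((x⁻¹) ^ N * (f x) ^ j) := by
  have hDo : IsOpen {x : ℂ | r0 < ‖x‖} := isOpen_lt continuous_const continuous_norm
  let ψ : ℂ → ℂ := fun t => if t = 0 then 1 else t * f t⁻¹
  have hψ0 : ψ 0 = 1 := by simp [ψ]
  have hψ1 : ∀ t, t ≠ 0 → ψ t = t * f t⁻¹ := by intro t ht; simp [ψ, ht]
  have hinv : ∀ t : ℂ, t ≠ 0 → t ∈ Metric.ball (0:ℂ) r0⁻¹ → r0 < ‖t⁻¹‖ := by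
    intro t ht htb
    rw [mem_ball_zero_iff] at htb
    rw [norm_inv]
    have : 0 < ‖t‖ := norm_pos_iff.mpr ht
    rwa [lt_inv_comm₀ hr0 this]
  have hdiff : DifferentiableOn ℂ ψ (Metric.ball (0:ℂ) r0⁻¹) := by
    have h0 : Metric.ball (0:ℂ) r0⁻¹ ∈ nhds (0:ℂ) := Metric.ball_mem_nhds _ (by positivity)
    rw [← Complex.differentiableOn_compl_singleton_and_continuousAt_iff h0]
    refine ⟨?_, ?_⟩
    · intro t ht
      obtain ⟨htb, ht0⟩ := ht
      have ht0' : t ≠ 0 := ht0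
      apply DifferentiableAt.differentiableWithinAt
      have h1 : DifferentiableAt ℂ f t⁻¹ := (hf.differentiableAt (hDo.mem_nhds (hinv t ht0' htb)))
      have h2 : DifferentiableAt ℂ (fun t : ℂ => t⁻¹) t := differentiableAt_inv ht0'
      have h3 : DifferentiableAt ℂ (fun t : ℂ => f t⁻¹) t := DifferentiableAt.comp t h1 h2
      have h4 : DifferentiableAt ℂ (fun t : ℂ => t * f t⁻¹) t := differentiableAt_id.mul h3
      refine h4.congr_of_eventuallyEq ?_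
      filter_upwards [isOpen_ne.mem_nhds ht0'] with s hs
      exact hψ1 s hs
    · rw [continuousAt_iff_punctured_nhds, hψ0]
      have h1 : Tendsto (fun t : ℂ => t⁻¹) (nhdsWithin 0 {0}ᶜ) (cobounded ℂ) :=
        tendsto_inv₀_nhdsNE_zero
      have h2 := hlim.comp h1
      refine h2.congr' ?_
      filter_upwards [self_mem_nhdsWithin] with t ht
      have ht' : t ≠ 0 := ht
      simp only [Function.comp_apply]
      rw [hψ1 t ht']
      field_simp
  let β : ℕ → ℕ → ℂ := fun k j => ((k.factorial : ℂ))⁻¹ * iteratedDeriv k (fun t => ψ t ^ j) 0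
  have hβ : ∀ j, ∀ t ∈ Metric.ball (0:ℂ) r0⁻¹, HasSum (fun k => β k j * t ^ k) (ψ t ^ j) := by
    intro j t ht
    have hd : DifferentiableOn ℂ (fun t => ψ t ^ j) (Metric.ball (0:ℂ) r0⁻¹) := hdiff.fun_pow j
    have h1 := Complex.hasSum_taylorSeries_on_ball hd ht
    have h2 : (fun k => β k j * t ^ k) = fun n : ℕ => ((n.factorial : ℂ))⁻¹ • (t - 0) ^ n •
        iteratedDeriv n (fun t => ψ t ^ j) 0 := by
      funext k
      simp only [β, sub_zero, smul_eq_mul]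
      ring
    rw [h2]
    exact h1
  have hβ0 : ∀ j, β 0 j = 1 := by
    intro j
    simp only [β, iteratedDeriv_zero, hψ0, one_pow, Nat.factorial_zero]
    simp
  refine ⟨fun i j => if i + j < N then 0 else β (i + j - N) j, ?_, ?_, ?_⟩
  · intro i j hij
    simp only [if_pos hij]
  · intro i j hij
    simp only
    rw [if_neg (by omega), hij, Nat.sub_self, hβ0]
  · intro j hj x hx
    have hx0 : x ≠ 0 := by
      intro h; rw [h, norm_zero] at hx; linarith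
    have hxb : x⁻¹ ∈ Metric.ball (0:ℂ) r0⁻¹ := by
      rw [mem_ball_zero_iff, norm_inv]
      exact inv_strictAnti₀ hr0 hx
    have h1 := hβ j x⁻¹ hxb
    rw [hψ1 _ (inv_ne_zero hx0), inv_inv] at h1
    have h2 := h1.mul_left ((x⁻¹) ^ (N - j))
    have h3 : (x⁻¹) ^ (N - j) * (x⁻¹ * f x) ^ j = (x⁻¹) ^ N * (f x) ^ j := by
      rw [mul_pow, ← mul_assoc, ← pow_add, Nat.sub_add_cancel hj]
    rw [h3] at h2
    have hinj : Function.Injective (fun k : ℕ => k + (N - j)) := add_left_injective _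
    rw [← hinj.hasSum_iff]
    · have h4 : ((fun i => (if i + j < N then 0 else β (i + j - N) j) * (x⁻¹) ^ i) ∘
          fun k : ℕ => k + (N - j)) = fun k => (x⁻¹) ^ (N - j) * (β k j * (x⁻¹) ^ k) := by
        funext k
        simp only [Function.comp_apply]
        rw [if_neg (by omega), show k + (N - j) + j - N = k by omega, pow_add]
        ring
      rw [h4]
      exact h2
    · intro i hi
      have hij : i + j < N := by
        by_contra hcon
        apply hi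
        exact ⟨i - (N - j), by simp only; omega⟩
      simp only
      rw [if_pos hij, zero_mul]

/-- square means increase with the radius -/
theorem sqmean_mono (m : ℕ) (hm : 0 < m) (PP : ℂ[X]) (r0 : ℝ) (hr0 : 0 < r0) (f : ℂ → ℂ)
    (hf : DifferentiableOn ℂ f {x | r0 < ‖x‖}) (ω : ℂ) (hω : ‖ω‖ = 1)
    (hfac : ∀ x, r0 < ‖x‖ → PP - C (x ^ m) = ∏ i : Fin m, (X - C (f (ω ^ (i:ℕ) * x))))
    (Q : ℂ[X]) (r1 r2 : ℝ) (h1 : r0 < r1) (h12 : r1 ≤ r2) :
    circleAverage (fun x => ‖Q.eval (f x)‖ ^ 2) 0 r1 ≤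
      circleAverage (fun x => ‖Q.eval (f x)‖ ^ 2) 0 r2 := by
  have h2pi : (0:ℝ) ≤ 2 * π := by positivity
  have hcont : ∀ r : ℝ, r0 < r → Continuous (fun θ => Q.eval (f (circleMap 0 r θ))) := by
    intro r hr
    have h3 : Continuous (fun θ => f (circleMap 0 r θ)) := by
      apply hf.continuousOn.comp_continuous (continuous_circleMap 0 r)
      intro θ
      simp only [Set.mem_ofPred_eq]
      rw [norm_circleMap_zero, abs_of_pos (hr0.trans hr)]
      exact hr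
    exact Q.continuous.comp h3
  have hbound : ∀ r : ℝ, r0 < r → ∃ B, ∀ θ, ‖Q.eval (f (circleMap 0 r θ))‖ ≤ B := by
    intro r hr
    have hc : ContinuousOn (fun x => Q.eval (f x)) (Metric.sphere 0 r) := by
      apply Q.continuous.comp_continuousOn
      apply hf.continuousOn.mono
      intro x hx
      rw [mem_sphere_zero_iff_norm] at hx
      simp only [Set.mem_ofPred_eq]
      rw [hx]; exact hr
    obtain ⟨B, hB⟩ := (isCompact_sphere (0:ℂ) r).exists_bound_of_continuousOn hc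
    exact ⟨B, fun θ => hB _ (circleMap_mem_sphere 0 (hr0.trans hr).le θ)⟩
  have h2 : r0 < r2 := lt_of_lt_of_le h1 h12
  obtain ⟨B1, hB1⟩ := hbound r1 h1
  obtain ⟨B2, hB2⟩ := hbound r2 h2
  have h3 := sq_mean_le (fun θ => Q.eval (f (circleMap 0 r1 θ))) (fun θ => Q.eval (f (circleMap 0 r2 θ)))
    (hcont r1 h1) (hcont r2 h2) (max B1 B2) (fun θ => (hB1 θ).trans (le_max_left _ _))
    (fun θ => (hB2 θ).trans (le_max_right _ _)) (by
      intro c
      have h4 := (logmean_mono m hm PP r0 hr0 f hf ω hω hfac (Q - C c) r1 r2 h1 h12).1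
      simp only [circleAverage_def, eval_sub, eval_C, smul_eq_mul,
        intervalIntegral.integral_of_le h2pi] at h4
      exact le_of_mul_le_mul_left h4 (by positivity))
  simp only [circleAverage_def, smul_eq_mul, intervalIntegral.integral_of_le h2pi]
  exact mul_le_mul_of_nonneg_left h3 (by positivity)

theorem summable_sq (b : ℕ → ℂ) (hb : Summable (fun i => ‖b i‖)) :
    Summable (fun i => ‖b i‖ ^ 2) := by
  refine Summable.of_norm_bounded_eventually_nat (g := fun i => ‖b i‖) hb ?_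
  have h1 := hb.tendsto_atTop_zero
  filter_upwards [h1.eventually (gt_mem_nhds (zero_lt_one))] with i hi
  rw [norm_pow, norm_norm]
  have := norm_nonneg (b i)
  nlinarith

/-- Parseval for `Q ∘ f` -/
theorem parseval_f (r0 : ℝ) (hr0 : 0 < r0) (g : ℂ → ℂ) (a : ℕ → ℂ) (N : ℕ)
    (ha : ∀ x : ℂ, r0 < ‖x‖ → HasSum (fun i => a i * (x⁻¹) ^ i) ((x⁻¹) ^ N * g x)) (r : ℝ)
    (hr : r0 < r) :
    Summable (fun i => ‖a i‖ ^ 2 * (r⁻¹ ^ 2) ^ i) ∧
    circleAverage (fun x => ‖g x‖ ^ 2) 0 r = (r ^ 2) ^ N * ∑' i, ‖a i‖ ^ 2 * (r⁻¹ ^ 2) ^ i := by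
  have hrpos : 0 < r := hr0.trans hr
  set b : ℕ → ℂ := fun i => a i * ((r:ℂ)⁻¹) ^ i with hb
  have hbn : ∀ i, ‖b i‖ ^ 2 = ‖a i‖ ^ 2 * (r⁻¹ ^ 2) ^ i := by
    intro i
    rw [hb]
    simp only
    rw [norm_mul, norm_pow, norm_inv, Complex.norm_real, Real.norm_eq_abs, abs_of_pos hrpos, mul_pow,
      ← pow_mul, ← pow_mul, mul_comm i 2]
  have hbs : Summable (fun i => ‖b i‖) := by
    have h1 := (ha (r:ℂ) (by rw [Complex.norm_real, Real.norm_eq_abs, abs_of_pos hrpos]; exact hr)).summable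
    exact h1.norm
  have hP := parseval b hbs
  have hs2 := summable_sq b hbs
  simp only [hbn] at hP hs2
  refine ⟨hs2, ?_⟩
  rw [← hP, ← circleAverage_zero_one_congr_inv (f := fun x => ‖∑' i, b i * x ^ i‖ ^ 2),
    circleAverage_eq_circleAverage_zero_one, ← smul_eq_mul, ← circleAverage_fun_smul]
  apply circleAverage_congr_sphere
  intro u hu
  rw [mem_sphere_zero_iff_norm, abs_one] at hu
  simp only [smul_eq_mul, add_zero]
  have hx : r0 < ‖(r:ℂ) * u‖ := by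
    rw [norm_mul, hu, mul_one, Complex.norm_real, Real.norm_eq_abs, abs_of_pos hrpos]; exact hr
  have h1 := (ha _ hx).tsum_eq
  have h2 : (fun i => a i * (((r:ℂ) * u)⁻¹) ^ i) = fun i => b i * (u⁻¹) ^ i := by
    funext i
    rw [hb, mul_inv, mul_pow]
    ring
  rw [h2] at h1
  rw [h1, norm_mul, norm_pow, norm_inv, norm_mul, hu, mul_one, Complex.norm_real, Real.norm_eq_abs,
    abs_of_pos hrpos, mul_pow, ← pow_mul, ← pow_mul, mul_comm N 2, ← mul_assoc, ← mul_pow,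
    mul_inv_cancel₀ hrpos.ne', one_pow, one_mul]

open Matrix in
/-- the analytic part of the argument -/
theorem analytic_part (m : ℕ) (hm : 0 < m) (PP : ℂ[X]) (r0 : ℝ) (hr0 : 0 < r0) (f : ℂ → ℂ)
    (hf : DifferentiableOn ℂ f {x | r0 < ‖x‖})
    (hlim : Tendsto (fun x => f x / x) (cobounded ℂ) (nhds 1)) (ω : ℂ) (hω : ‖ω‖ = 1)
    (hfac : ∀ x, r0 < ‖x‖ → PP - C (x ^ m) = ∏ i : Fin m, (X - C (f (ω ^ (i:ℕ) * x))))
    (N : ℕ) (r r' : ℝ) (hr : r0 < r) (hr' : r < r') :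
    ∃ M : Matrix (Fin (2*N+1)) (Fin (N+1)) ℂ,
      (∀ (i : Fin (2*N+1)) (j : Fin (N+1)), (i:ℕ) + (j:ℕ) < N → M i j = 0) ∧
      (∀ (i : Fin (2*N+1)) (j : Fin (N+1)), (i:ℕ) + (j:ℕ) = N → ‖M i j‖ = r ^ (j:ℕ)) ∧
      (∀ q, ∑ i : Fin (2*N+1), (((i:ℕ):ℝ) - N) * ‖(M *ᵥ q) i‖ ^ 2 ≤ 0) ∧
      ∀ (q : Fin (N+1) → ℂ) (x : ℂ), ‖x‖ = r' → ‖∑ j, q j * (f x) ^ (j:ℕ)‖ ^ 2 ≤
        (2 * ((r' / r) ^ 2) ^ N * (1 - (r / r') ^ 2)⁻¹) * ∑ i, ‖(M *ᵥ q) i‖ ^ 2 := by
  have hrpos : 0 < r := hr0.trans hr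
  have hr'pos : 0 < r' := hrpos.trans hr'
  obtain ⟨α, hα0, hα1, hα⟩ := exists_coeffs r0 hr0 f hf hlim N
  let M : Matrix (Fin (2*N+1)) (Fin (N+1)) ℂ :=
    Matrix.of fun i j => α i j * ((r:ℂ) ^ N * ((r:ℂ)⁻¹) ^ (i:ℕ))
  let a : (Fin (N+1) → ℂ) → ℕ → ℂ := fun q i => ∑ j : Fin (N+1), α i (j:ℕ) * q j
  let Q : (Fin (N+1) → ℂ) → ℂ[X] := fun q => ∑ j, C (q j) * X ^ (j:ℕ)
  have hQ : ∀ q w, (Q q).eval w = ∑ j, q j * w ^ (j:ℕ) := by
    intro q w; simp [Q, eval_finsetSum]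
  have hsum : ∀ q (x : ℂ), r0 < ‖x‖ →
      HasSum (fun i => a q i * (x⁻¹) ^ i) ((x⁻¹) ^ N * (Q q).eval (f x)) := by
    intro q x hx
    have h1 : HasSum (fun i => ∑ j : Fin (N+1), q j * (α i j * (x⁻¹) ^ i))
        (∑ j : Fin (N+1), q j * ((x⁻¹) ^ N * (f x) ^ (j:ℕ))) := by
      apply hasSum_sum
      intro j _
      exact (hα j (by omega) x hx).mul_left _
    have h2 : (fun i => ∑ j : Fin (N+1), q j * (α i j * (x⁻¹) ^ i)) =
        fun i => a q i * (x⁻¹) ^ i := by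
      funext i
      simp only [a, Finset.sum_mul]
      exact Finset.sum_congr rfl (fun j _ => by ring)
    have h3 : (∑ j : Fin (N+1), q j * ((x⁻¹) ^ N * (f x) ^ (j:ℕ))) =
        (x⁻¹) ^ N * (Q q).eval (f x) := by
      rw [hQ, Finset.mul_sum]
      exact Finset.sum_congr rfl (fun j _ => by ring)
    rw [h2, h3] at h1
    exact h1
  let d : (Fin (N+1) → ℂ) → ℕ → ℝ := fun q i => ‖a q i‖ ^ 2 * (r⁻¹ ^ 2) ^ i
  have hd0 : ∀ q i, 0 ≤ d q i := by intro q i; simp only [d]; positivity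
  have hds : ∀ q, Summable (d q) := fun q =>
    (parseval_f r0 hr0 (fun x => (Q q).eval (f x)) (a q) N (hsum q) r hr).1
  have hMq : ∀ q (i : Fin (2*N+1)), ‖(M *ᵥ q) i‖ ^ 2 = (r ^ 2) ^ N * d q i := by
    intro q i
    have h1 : (M *ᵥ q) i = a q i * ((r:ℂ) ^ N * ((r:ℂ)⁻¹) ^ (i:ℕ)) := by
      simp only [M, a, Matrix.mulVec, dotProduct, Matrix.of_apply, Finset.sum_mul]
      exact Finset.sum_congr rfl (fun j _ => by ring)
    rw [h1, norm_mul, norm_mul, norm_pow, norm_pow, norm_inv, Complex.norm_real, Real.norm_eq_abs,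
      abs_of_pos hrpos]
    simp only [d]
    rw [mul_pow, mul_pow, ← pow_mul, ← pow_mul, ← pow_mul, ← pow_mul, mul_comm N 2, mul_comm (i:ℕ) 2]
    ring
  -- the area inequality
  have harea : ∀ q, ∀ K, N ≤ K → ∑ i ∈ range K, ((i:ℝ) - N) * d q i ≤ 0 := by
    intro q K hK
    set r'' := (r0 + r) / 2 with hr''
    have h1 : r0 < r'' := by rw [hr'']; linarith
    have h2 : r'' < r := by rw [hr'']; linarith
    have hr''pos : 0 < r'' := hr0.trans h1
    set L := (r / r'') ^ 2 with hL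
    have hL1 : 1 < L := by
      have h3 : 1 < r / r'' := (one_lt_div hr''pos).mpr h2
      rw [hL]; nlinarith
    obtain ⟨h3, h4⟩ := parseval_f r0 hr0 (fun x => (Q q).eval (f x)) (a q) N (hsum q) r hr
    obtain ⟨h5, h6⟩ := parseval_f r0 hr0 (fun x => (Q q).eval (f x)) (a q) N (hsum q) r'' h1
    have h7 : (fun i => ‖a q i‖ ^ 2 * (r''⁻¹ ^ 2) ^ i) = fun i => d q i * L ^ i := by
      funext i
      simp only [d]
      rw [mul_assoc, ← mul_pow, hL, ← mul_pow]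
      congr 3
      field_simp
    rw [h7] at h5 h6
    have h8 := sqmean_mono m hm PP r0 hr0 f hf ω hω hfac (Q q) r'' r h1 h2.le
    rw [h4, h6] at h8
    refine area_ineq (d q) (hd0 q) N L hL1 (hds q) h5 ?_ K hK
    have h9 : (r ^ 2) ^ N = (r'' ^ 2) ^ N * L ^ N := by
      rw [← mul_pow, hL, ← mul_pow]
      congr 2
      field_simp
    rw [h9, mul_assoc] at h8
    exact le_of_mul_le_mul_left h8 (by positivity)
  refine ⟨M, ?_, ?_, ?_, ?_⟩
  · intro i j hij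
    simp only [M, Matrix.of_apply]
    rw [hα0 _ _ hij, zero_mul]
  · intro i j hij
    simp only [M, Matrix.of_apply]
    rw [hα1 _ _ hij, one_mul, norm_mul, norm_pow, norm_pow, norm_inv, Complex.norm_real,
      Real.norm_eq_abs, abs_of_pos hrpos]
    have h1 : r ^ N = r ^ (j:ℕ) * r ^ (i:ℕ) := by
      rw [← pow_add]; congr 1; omega
    rw [h1, mul_assoc, ← mul_pow, mul_inv_cancel₀ hrpos.ne', one_pow, mul_one]
  · intro q
    have h1 : ∑ i : Fin (2*N+1), (((i:ℕ):ℝ) - N) * ‖(M *ᵥ q) i‖ ^ 2 =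
        (r ^ 2) ^ N * ∑ i ∈ range (2*N+1), ((i:ℝ) - N) * d q i := by
      rw [Finset.mul_sum, ← Fin.sum_univ_eq_sum_range (fun i => (r ^ 2) ^ N * (((i:ℝ) - N) * d q i))]
      refine Finset.sum_congr rfl (fun i _ => ?_)
      rw [hMq]; ring
    rw [h1]
    exact mul_nonpos_of_nonneg_of_nonpos (by positivity) (harea q _ (by omega))
  · intro q x hx
    have hxr : r0 < ‖x‖ := by rw [hx]; exact hr.trans hr'
    have h1 := point_eval (a q) r r' hrpos hr' (d q) (fun i => rfl) (hds q) x⁻¹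
      (by rw [norm_inv, hx]) _ (hsum q x hxr)
    have h2 := tail_bound (d q) (hd0 q) N (hds q) (harea q)
    have h3 : ∑ i : Fin (2*N+1), ‖(M *ᵥ q) i‖ ^ 2 = (r ^ 2) ^ N * ∑ i ∈ range (2*N+1), d q i := by
      rw [Finset.mul_sum, ← Fin.sum_univ_eq_sum_range (fun i => (r ^ 2) ^ N * d q i)]
      exact Finset.sum_congr rfl (fun i _ => hMq q i)
    rw [← hQ, h3]
    rw [norm_mul, norm_pow, norm_inv, hx, mul_pow, ← pow_mul, mul_comm N 2, pow_mul] at h1
    have hpos1 : 0 < (1 - (r / r') ^ 2)⁻¹ := by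
      rw [inv_pos]
      have h4 : r / r' < 1 := (div_lt_one hr'pos).mpr hr'
      have h5 : 0 ≤ r / r' := by positivity
      nlinarith
    have h4 : ‖(Q q).eval (f x)‖ ^ 2 ≤ (r' ^ 2) ^ N * ((∑' i, d q i) * (1 - (r / r') ^ 2)⁻¹) := by
      have h5 : (r' ^ 2) ^ N * ((r'⁻¹ ^ 2) ^ N * ‖(Q q).eval (f x)‖ ^ 2) = ‖(Q q).eval (f x)‖ ^ 2 := by
        rw [← mul_assoc, ← mul_pow, ← mul_pow, mul_inv_cancel₀ hr'pos.ne', one_pow, one_pow, one_mul]
      rw [← h5]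
      exact mul_le_mul_of_nonneg_left h1 (by positivity)
    refine h4.trans ?_
    calc (r' ^ 2) ^ N * ((∑' i, d q i) * (1 - (r / r') ^ 2)⁻¹)
        ≤ (r' ^ 2) ^ N * ((2 * ∑ i ∈ range (2*N+1), d q i) * (1 - (r / r') ^ 2)⁻¹) := by gcongr
      _ = 2 * ((r' / r) ^ 2) ^ N * (1 - (r / r') ^ 2)⁻¹ * ((r ^ 2) ^ N * ∑ i ∈ range (2*N+1), d q i) := by
        have h6 : (r' ^ 2) ^ N = ((r' / r) ^ 2) ^ N * (r ^ 2) ^ N := by
          rw [← mul_pow, ← mul_pow]
          congr 2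
          field_simp
        rw [h6]; ring

end Pool.Agent.Work.MP_9ec5dc_an
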