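import Pool.Agent.Work.MP_9ec5dc_an.Q2A
import Pool.Agent.Work.MP_9ec5dc_an.Q2B
import Pool.Agent.Work.MP_9ec5dc_an.Q2F
import Pool.Agent.Work.MP_9ec5dc_an.Q2H

set_option autoImplicit false

namespace Pool.Agent.Work.MP_9ec5dc_an

open Filter Polynomial Finset Bornology Matrix

/-- maximum principle: from the level curve to the set -/
theorem max_principle (m : ℕ) (hm : 0 < m) (PP : ℂ[X]) (hPP : 0 < PP.degree) (r0 : ℝ) (hr0 : 0 < r0)
    (f : ℂ → ℂ) (ω : ℂ) (hω : ‖ω‖ = 1)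
    (hfac : ∀ x, r0 < ‖x‖ → PP - C (x ^ m) = ∏ i : Fin m, (X - C (f (ω ^ (i:ℕ) * x))))
    (r' : ℝ) (hr' : r0 < r') (Q : ℂ[X]) (B : ℝ) (hB : 0 ≤ B)
    (h : ∀ x : ℂ, ‖x‖ = r' → ‖Q.eval (f x)‖ ^ 2 ≤ B) (w : ℂ) (hw : ‖PP.eval w‖ < r' ^ m) :
    ‖Q.eval w‖ ^ 2 ≤ B := by
  have hr'pos : 0 < r' := hr0.trans hr'
  have hPPtends : Tendsto (fun w => ‖PP.eval w‖) (cobounded ℂ) atTop :=
    Polynomial.tendsto_norm_atTop _ hPP tendsto_norm_cobounded_atTop
  set U : Set ℂ := {w | ‖PP.eval w‖ < r' ^ m} with hU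
  have hUb : IsBounded U := by
    have h1 : {y : ℂ | r' ^ m ≤ ‖PP.eval y‖} ∈ cobounded ℂ :=
      hPPtends.eventually (eventually_ge_atTop _)
    have h2 : IsBounded ({y : ℂ | r' ^ m ≤ ‖PP.eval y‖}ᶜ) := isBounded_compl_iff.mpr h1
    refine h2.subset ?_
    intro y hy
    simp only [Set.mem_compl_iff, Set.mem_ofPred_eq, not_le]
    exact hy
  have hfront : ∀ y ∈ frontier U, ‖Q.eval y‖ ≤ Real.sqrt B := by
    intro y hy
    have h1 : ‖PP.eval y‖ = r' ^ m := by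
      have h2 : frontier U ⊆ {y | ‖PP.eval y‖ = r' ^ m} := by
        apply frontier_lt_subset_eq
        · fun_prop
        · exact continuous_const
      exact h2 hy
    obtain ⟨x0, hx0⟩ := IsAlgClosed.exists_pow_nat_eq (PP.eval y) hm
    have hx0n : ‖x0‖ = r' := by
      have h3 : ‖x0‖ ^ m = r' ^ m := by rw [← norm_pow, hx0, h1]
      exact (pow_left_inj₀ (norm_nonneg _) hr'pos.le hm.ne').mp h3
    have h4 := congrArg (eval y) (hfac x0 (by rw [hx0n]; exact hr'))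
    rw [eval_sub, eval_C, hx0, sub_self, eval_prod] at h4
    obtain ⟨i, _, hi⟩ := Finset.prod_eq_zero_iff.mp h4.symm
    rw [eval_sub, eval_X, eval_C, sub_eq_zero] at hi
    have h5 := h (ω ^ (i:ℕ) * x0) (by rw [norm_mul, norm_pow, hω, one_pow, one_mul, hx0n])
    rw [← hi] at h5
    exact Real.le_sqrt_of_sq_le h5
  have h6 : ‖Q.eval w‖ ≤ Real.sqrt B := by
    refine Complex.norm_le_of_forall_mem_frontier_norm_le (U := U) hUb
      (Q.differentiable.diffContOnCl) hfront ?_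
    exact subset_closure hw
  calc ‖Q.eval w‖ ^ 2 ≤ (Real.sqrt B) ^ 2 := pow_le_pow_left₀ (norm_nonneg _) h6 2
    _ = B := Real.sq_sqrt hB

theorem main2_aux (E : Set ℂ) (hE : IsCompact E) (hconn : IsPreconnected E)
    (hd : Tendsto (nthDiameter E) atTop (nhds 1)) (N : ℕ) (r : ℝ) (hr : 1 < r)
    (w : Fin (N+1) → ℂ) (hw : ∀ i, w i ∈ E) :
    distProd w ^ 2 ≤ (8 * Real.exp 1 * ((N+1 : ℕ) : ℝ)) ^ (N+1) * r ^ (N*(N+1)) := by
  set ρ := 1 + (r - 1) / 3 with hρ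
  set r0 := 1 + 2 * (r - 1) / 3 with hr0
  have h1ρ : 1 < ρ := by rw [hρ]; linarith
  have hρr0 : ρ < r0 := by rw [hρ, hr0]; linarith
  have hr0r : r0 < r := by rw [hr0]; linarith
  have hr0pos : 0 < r0 := by linarith
  have hrpos : 0 < r := by linarith
  obtain ⟨m, z, hm, hz, hP⟩ := fekete_poly E hE hd ρ h1ρ
  have hωp := Complex.isPrimitiveRoot_exp m hm.ne'
  set ω : ℂ := Complex.exp (2 * Real.pi * Complex.I / m) with hω
  have hωn : ‖ω‖ = 1 := hωp.norm'_eq_one hm.ne'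
  obtain ⟨f, hf, hlim, hfac⟩ := exists_conformal E hE hconn m hm z hz ρ r0 (by linarith) hρr0 hP ω hωp
  set PP : ℂ[X] := ∏ i : Fin m, (X - C (z i)) with hPP
  have hPPm : PP.Monic := monic_prod_of_monic _ _ (fun i _ => monic_X_sub_C _)
  have hPPdeg : PP.natDegree = m := by
    rw [hPP, natDegree_prod_of_monic _ _ (fun i _ => monic_X_sub_C _)]
    simp
  have hPPdeg' : 0 < PP.degree := by
    rw [degree_eq_natDegree hPPm.ne_zero, hPPdeg]; exact_mod_cast hm
  set n : ℝ := ((N+1 : ℕ) : ℝ) with hn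
  have hnpos : 0 < n := by rw [hn]; positivity
  set s := Real.sqrt (1 + 1 / n) with hs
  have hs1 : 1 < s := by
    rw [hs, Real.lt_sqrt (by norm_num)]
    have : 0 < 1 / n := by positivity
    linarith
  have hs2 : s ^ 2 = 1 + 1 / n := Real.sq_sqrt (by positivity)
  set r' := r * s with hr'
  have hrr' : r < r' := by rw [hr']; nlinarith
  have hr'pos : 0 < r' := hrpos.trans hrr'
  obtain ⟨M, hM0, hM1, hF2, hpt⟩ := analytic_part m hm PP r0 hr0pos f hf hlim ω hωn hfac N r r'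
    hr0r hrr'
  set K := 2 * ((r' / r) ^ 2) ^ N * (1 - (r / r') ^ 2)⁻¹ with hK
  have h2 : (r' / r) ^ 2 = 1 + 1 / n := by
    rw [hr', mul_div_cancel_left₀ _ hrpos.ne', hs2]
  have h3 : (1 - (r / r') ^ 2)⁻¹ = n + 1 := by
    have h4 : (r / r') ^ 2 = (1 + 1 / n)⁻¹ := by
      rw [← h2, ← inv_pow, inv_div]
    rw [h4]
    field_simp
    ring
  have hKval : K = 2 * n * (1 + 1 / n) ^ (N+1) := by
    rw [hK, h2, h3, pow_succ]
    field_simp
  have hKle : K ≤ 2 * Real.exp 1 * n := by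
    rw [hKval]
    have h4 : (1 + 1 / n) ^ (N+1) ≤ Real.exp 1 := by
      have h5 : 1 + 1 / n ≤ Real.exp (1 / n) := by
        have := Real.add_one_le_exp (1 / n)
        linarith
      calc (1 + 1 / n) ^ (N+1) ≤ (Real.exp (1 / n)) ^ (N+1) :=
            pow_le_pow_left₀ (by positivity) h5 _
        _ = Real.exp 1 := by
            rw [← Real.exp_nat_mul]
            congr 1
            rw [← hn]
            field_simp
    have h5 : 2 * n * (1 + 1 / n) ^ (N+1) ≤ 2 * n * Real.exp 1 := by gcongr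
    linarith
  have hKpos : 0 < K := by rw [hKval]; positivity
  have hG : ∀ q μ, ‖((vandermonde w) *ᵥ q) μ‖ ^ 2 ≤ K * ∑ i, ‖(M *ᵥ q) i‖ ^ 2 := by
    intro q μ
    set Q : ℂ[X] := ∑ j : Fin (N+1), C (q j) * X ^ (j:ℕ) with hQ
    have hQe : ∀ x, Q.eval x = ∑ j : Fin (N+1), q j * x ^ (j:ℕ) := by
      intro x; simp [hQ, eval_finsetSum]
    have h4 : ((vandermonde w) *ᵥ q) μ = Q.eval (w μ) := by
      rw [hQe]
      simp only [mulVec, dotProduct, vandermonde_apply]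
      exact Finset.sum_congr rfl (fun j _ => mul_comm _ _)
    rw [h4]
    apply max_principle m hm PP hPPdeg' r0 hr0pos f ω hωn hfac r' (hr0r.trans hrr') Q
    · positivity
    · intro x hx
      rw [hQe]
      exact hpt q x hx
    · rw [hPP, eval_prod, norm_prod]
      simp only [eval_sub, eval_X, eval_C]
      refine lt_of_le_of_lt (hP (w μ) (hw μ)) ?_
      exact pow_lt_pow_left₀ (hρr0.trans (hr0r.trans hrr')) (by linarith) hm.ne'
  have hlin := linalg N M r hrpos hM0 hM1 hF2 K hKpos (vandermonde w) hG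
  have hdet : ‖(vandermonde w).det‖ = distProd w := by
    rw [det_vandermonde, norm_prod, distProd]
    refine Finset.prod_congr rfl (fun i _ => ?_)
    rw [norm_prod]
    exact Finset.prod_congr rfl (fun j _ => norm_sub_rev _ _)
  rw [hdet] at hlin
  refine hlin.trans ?_
  have h5 : 4 * K ≤ 8 * Real.exp 1 * n := by linarith
  have h6 : (4 * K) ^ (N+1) ≤ (8 * Real.exp 1 * n) ^ (N+1) :=
    pow_le_pow_left₀ (by positivity) h5 _
  exact mul_le_mul_of_nonneg_right h6 (by positivity)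

theorem main2_sq (E : Set ℂ) (hE : IsCompact E) (hconn : IsPreconnected E)
    (hd : Tendsto (nthDiameter E) atTop (nhds 1)) (n : ℕ) (hn : 1 ≤ n) :
    maxDistProd E n ^ 2 ≤ (8 * Real.exp 1 * n) ^ n := by
  obtain ⟨N, rfl⟩ : ∃ N, n = N + 1 := ⟨n - 1, by omega⟩
  have hne : E.Nonempty := by
    obtain ⟨m, z, hm, hz, _⟩ := fekete_poly E hE hd 2 (by norm_num)
    exact ⟨_, hz ⟨0, hm⟩⟩
  obtain ⟨w, hw, hmax⟩ := exists_max hE hne (N+1)
  rw [← hmax]
  have h1 : Tendsto (fun r : ℝ => (8 * Real.exp 1 * ((N+1 : ℕ) : ℝ)) ^ (N+1) * r ^ (N*(N+1)))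
      (nhdsWithin 1 (Set.Ioi 1)) (nhds ((8 * Real.exp 1 * ((N+1 : ℕ) : ℝ)) ^ (N+1) * 1 ^ (N*(N+1)))) := by
    apply Tendsto.mono_left _ nhdsWithin_le_nhds
    exact Continuous.tendsto (by fun_prop) 1
  rw [one_pow, mul_one] at h1
  refine ge_of_tendsto h1 ?_
  filter_upwards [self_mem_nhdsWithin] with r hr
  exact main2_aux E hE hconn hd N r hr w hw

/-- Q2 -/
theorem main2 (E : Set ℂ) (hE : IsCompact E) (hconn : IsPreconnected E)
    (hd : Tendsto (nthDiameter E) atTop (nhds 1)) (n : ℕ) (hn : 2 ≤ n) :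
    nthDiameter E n ^ (n - 1) ≤ 8 * Real.exp 1 * n := by
  have h := main2_sq E hE hconn hd n (by omega)
  have hn' : (2:ℝ) ≤ n := by exact_mod_cast hn
  have hn0 : (0:ℝ) < n := by linarith
  have hV := max_nonneg E n
  have hpos : 0 ≤ 8 * Real.exp 1 * n := by positivity
  have h1 : nthDiameter E n ^ (n - 1) = (maxDistProd E n ^ 2) ^ (1 / (n:ℝ)) := by
    rw [nthDiameter, ← Real.rpow_natCast, ← Real.rpow_mul hV, ← Real.rpow_natCast,
      ← Real.rpow_mul hV]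
    congr 1
    rw [Nat.cast_sub (by omega)]
    have h4 : (n:ℝ) - 1 ≠ 0 := by linarith
    push_cast
    field_simp
  rw [h1]
  calc (maxDistProd E n ^ 2) ^ (1 / (n:ℝ)) ≤ ((8 * Real.exp 1 * n) ^ n) ^ (1 / (n:ℝ)) :=
        Real.rpow_le_rpow (by positivity) h (by positivity)
    _ = 8 * Real.exp 1 * n := by
        rw [← Real.rpow_natCast, ← Real.rpow_mul hpos, mul_one_div_cancel hn0.ne', Real.rpow_one]

end Pool.Agent.Work.MP_9ec5dc_an
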