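import Mathlib

set_option autoImplicit false

namespace Pool.Agent.Work.MP_9ec5dc_an

open Finset

/-- the product of the mutual distances `|w μ - w ν|` over the pairs `μ < ν` -/
noncomputable def distProd {n : ℕ} (w : Fin n → ℂ) : ℝ := ∏ i, ∏ j ∈ Ioi i, ‖w i - w j‖

/-- the maximum (supremum) of the products of mutual distances of `n` points of `E` -/
noncomputable def maxDistProd (E : Set ℂ) (n : ℕ) : ℝ :=
  sSup (distProd '' {w : Fin n → ℂ | ∀ i, w i ∈ E})

/-- the `n`-th diameter of `E`: the `n(n-1)/2`-th root of `maxDistProd E n` -/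
noncomputable def nthDiameter (E : Set ℂ) (n : ℕ) : ℝ :=
  maxDistProd E n ^ (1 / ((n : ℝ) * ((n : ℝ) - 1) / 2))

end Pool.Agent.Work.MP_9ec5dc_an
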