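import Mathlib

set_option autoImplicit false

namespace Pool.Agent.Work.MP_9ec5dc_an

open Polynomial Finset

/-- product of all differences over ordered pairs of distinct indices -/
noncomputable def W {n : ℕ} (z : Fin n → ℂ) : ℂ := ∏ i, ∏ j, if i = j then 1 else (z i - z j)

theorem exists_root_fun (f : ℂ[X]) (hf : f.Monic) (m : ℕ) (hm : f.natDegree = m) :
    ∃ r : Fin m → ℂ, f = ∏ i, (X - C (r i)) := by
  have hs : f.Splits := IsAlgClosed.splits f
  have hcard : f.roots.toList.length = m := by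
    rw [Multiset.length_toList, ← hm]
    exact (splits_iff_card_roots.mp hs)
  refine ⟨fun i => f.roots.toList.get (i.cast hcard.symm), ?_⟩
  have h1 : f = (f.roots.map (fun a => X - C a)).prod := by
    have := hs.eq_prod_roots
    rw [hf.leadingCoeff, C_1, one_mul] at this
    exact this
  have h2 : f.roots = (f.roots.toList : Multiset ℂ) := (Multiset.coe_toList _).symm
  conv_lhs => rw [h1, h2]
  rw [Multiset.map_coe, Multiset.prod_coe]
  subst hcard
  simp only [Fin.cast_eq_self]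
  rw [← List.prod_ofFn]
  congr 1
  apply List.ext_get
  · simp
  · intro k h1 h2
    simp

theorem psum_diff {m : ℕ} (f : ℂ → ℂ[X]) (r : ℂ → Fin m → ℂ)
    (hr : ∀ t, f t = ∏ i, (X - C (r t i)))
    (hf : ∀ i, Differentiable ℂ (fun t => (f t).coeff i)) (j : ℕ) :
    Differentiable ℂ (fun t => ∑ i, (r t i)^j) := by
  have he : ∀ k, Differentiable ℂ (fun t => (univ.val.map (r t)).esymm k) := by
    intro k
    by_cases hk : k ≤ m
    · have h1 : ∀ t, (univ.val.map (r t)).esymm k = (-1)^k * (f t).coeff (m - k) := by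
        intro t
        have h2 : f t = ((univ.val.map (r t)).map (fun a => X - C a)).prod := by
          rw [hr t, Multiset.map_map]; rfl
        have hc : Multiset.card (univ.val.map (r t)) = m := by simp
        rw [h2, Multiset.prod_X_sub_C_coeff _ (by rw [hc]; omega), hc]
        rw [show m - (m - k) = k by omega, ← mul_assoc, ← mul_pow]
        simp
      simp only [h1]
      exact (hf _).const_mul _
    · have h1 : ∀ t, (univ.val.map (r t)).esymm k = 0 := by
        intro t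
        rw [Multiset.esymm, Multiset.powersetCard_eq_empty]
        · simp
        · simp; omega
      simp only [h1]
      exact differentiable_const _
  induction j using Nat.strong_induction_on with
  | _ j ih =>
    rcases Nat.eq_zero_or_pos j with rfl | hj
    · simp
    · have h1 : ∀ t, ∑ i, (r t i)^j = (-1)^(j+1) * j * (univ.val.map (r t)).esymm j -
          ∑ a ∈ antidiagonal j with a.1 ∈ Set.Ioo 0 j,
            (-1)^a.1 * (univ.val.map (r t)).esymm a.1 * ∑ i, (r t i)^a.2 := by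
        intro t
        have := congrArg (MvPolynomial.aeval (r t)) (MvPolynomial.psum_eq_mul_esymm_sub_sum (Fin m) ℂ j hj)
        simp only [map_sub, map_mul, map_pow, map_neg, map_one, map_natCast, map_sum,
          MvPolynomial.aeval_esymm_eq_multiset_esymm, MvPolynomial.psum, MvPolynomial.aeval_X] at this
        exact this
      simp only [h1]
      refine ((he j).const_mul _).sub ?_
      refine Differentiable.fun_sum (fun a ha => ?_)
      rw [Finset.mem_filter, HasAntidiagonal.mem_antidiagonal] at ha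
      refine Differentiable.mul ((he _).const_mul _) (ih _ ?_)
      have := ha.2.1
      omega

theorem sum_diff {n m : ℕ} (F : MvPolynomial (Fin n) ℂ) (r : Fin n → ℂ → Fin m → ℂ)
    (hr : ∀ μ j, Differentiable ℂ (fun t => ∑ i, (r μ t i)^j)) :
    Differentiable ℂ (fun t => ∑ e : Fin n → Fin m, MvPolynomial.eval (fun μ => r μ t (e μ)) F) := by
  have h1 : ∀ t, ∑ e : Fin n → Fin m, MvPolynomial.eval (fun μ => r μ t (e μ)) F =
      ∑ d ∈ F.support, F.coeff d * ∏ μ, ∑ i, (r μ t i)^(d μ) := by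
    intro t
    simp only [MvPolynomial.eval_eq']
    rw [Finset.sum_comm]
    apply Finset.sum_congr rfl
    intro d _
    rw [← Finset.mul_sum]
    congr 1
    rw [Finset.prod_univ_sum]
    rw [Fintype.piFinset_univ]
  simp only [h1]
  refine Differentiable.fun_sum (fun d _ => ?_)
  refine Differentiable.const_mul ?_ _
  exact Differentiable.fun_finsetProd (fun μ _ => hr μ _)

/-- `W` as a polynomial -/
noncomputable def WP (n : ℕ) : MvPolynomial (Fin n) ℂ :=
  ∏ i, ∏ j, if i = j then 1 else (MvPolynomial.X i - MvPolynomial.X j)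

theorem eval_WP {n : ℕ} (z : Fin n → ℂ) : MvPolynomial.eval z (WP n) = W z := by
  simp only [WP, W, map_prod]
  refine Finset.prod_congr rfl (fun i _ => Finset.prod_congr rfl (fun j _ => ?_))
  split_ifs <;> simp

/-- for two unimodular numbers that are roots of unity of order `a`, the power `4a` of the
difference is a nonnegative real -/
theorem sub_pow_real (u v : ℂ) (a : ℕ) (ha : a ≠ 0) (hu : u ^ a = 1) (hv : v ^ a = 1) (k : ℕ) :
    (u - v) ^ (4 * a * k) = ((‖u - v‖ ^ (4 * a * k) : ℝ) : ℂ) := by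
  have hun : ‖u‖ = 1 := by
    have : ‖u‖ ^ a = 1 := by rw [← norm_pow, hu, norm_one]
    exact (pow_eq_one_iff_of_nonneg (norm_nonneg _) ha).mp this
  have hvn : ‖v‖ = 1 := by
    have : ‖v‖ ^ a = 1 := by rw [← norm_pow, hv, norm_one]
    exact (pow_eq_one_iff_of_nonneg (norm_nonneg _) ha).mp this
  have hu0 : u ≠ 0 := by intro h; rw [h, norm_zero] at hun; norm_num at hun
  have hv0 : v ≠ 0 := by intro h; rw [h, norm_zero] at hvn; norm_num at hvn
  have hcu : (starRingEnd ℂ) u = u⁻¹ := by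
    rw [Complex.inv_def, Complex.normSq_eq_norm_sq, hun]; simp
  have hcv : (starRingEnd ℂ) v = v⁻¹ := by
    rw [Complex.inv_def, Complex.normSq_eq_norm_sq, hvn]; simp
  have h1 : ((‖u - v‖ ^ 2 : ℝ) : ℂ) = (u - v) * (u⁻¹ - v⁻¹) := by
    rw [← hcu, ← hcv, ← map_sub, Complex.mul_conj, Complex.normSq_eq_norm_sq]
  have h2 : (u - v)^2 = -(u * v) * ((‖u - v‖ ^ 2 : ℝ) : ℂ) := by
    rw [h1]; field_simp; ring
  have h3 : (u - v) ^ (4 * a * k) = ((u - v)^2)^(2 * a * k) := by
    rw [← pow_mul]; congr 1; ring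
  rw [h3, h2, mul_pow]
  have h4 : (-(u * v)) ^ (2 * a * k) = 1 := by
    rw [show 2 * a * k = 2 * (a * k) by ring, pow_mul, neg_sq, ← pow_mul,
      show 2 * (a * k) = a * (2 * k) by ring, pow_mul, mul_pow, hu, hv, mul_one, one_pow]
  rw [h4, one_mul]
  push_cast
  rw [← pow_mul]
  congr 1
  ring

theorem W_pow_real {n : ℕ} (z : Fin n → ℂ) (a : ℕ) (ha : a ≠ 0) (hz : ∀ i, z i ^ a = 1) (k : ℕ) :
    (W z) ^ (4 * a * k) = ((‖W z‖ ^ (4 * a * k) : ℝ) : ℂ) := by
  simp only [W]
  rw [← Finset.prod_pow, norm_prod, ← Finset.prod_pow, Complex.ofReal_prod]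
  refine Finset.prod_congr rfl (fun i _ => ?_)
  rw [← Finset.prod_pow, norm_prod, ← Finset.prod_pow, Complex.ofReal_prod]
  refine Finset.prod_congr rfl (fun j _ => ?_)
  split_ifs
  · simp
  · exact sub_pow_real _ _ a ha (hz i) (hz j) k

/-- the roots of unity -/
theorem norm_W_roots {n : ℕ} (hn : n ≠ 0) (ω : ℂ) (hω : IsPrimitiveRoot ω n) :
    ‖W (fun i : Fin n => ω ^ (i : ℕ))‖ = (n : ℝ) ^ n := by
  have hinj : Function.Injective (fun i : Fin n => ω ^ (i : ℕ)) := by
    intro i j hij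
    exact Fin.ext (hω.pow_inj i.2 j.2 hij)
  have hprod : (X ^ n - 1 : ℂ[X]) = Lagrange.nodal univ (fun i : Fin n => ω ^ (i : ℕ)) := by
    rw [X_pow_sub_one_eq_prod (Nat.pos_of_ne_zero hn) hω, Lagrange.nodal]
    symm
    apply Finset.prod_bij (fun (i : Fin n) _ => ω ^ (i : ℕ))
    · intro i _
      rw [mem_nthRootsFinset (Nat.pos_of_ne_zero hn), ← pow_mul, mul_comm, pow_mul, hω.pow_eq_one,
        one_pow]
    · intro i _ j _ h
      exact hinj h
    · intro b hb
      haveI : NeZero n := ⟨hn⟩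
      rw [mem_nthRootsFinset (Nat.pos_of_ne_zero hn)] at hb
      obtain ⟨i, hi, rfl⟩ := hω.eq_pow_of_pow_eq_one hb
      exact ⟨⟨i, hi⟩, mem_univ _, rfl⟩
    · intro i _; rfl
  have hωn : ‖ω‖ = 1 := hω.norm'_eq_one hn
  have key : ∀ i : Fin n, ‖∏ j, (if i = j then (1:ℂ) else (ω ^ (i:ℕ) - ω ^ (j:ℕ)))‖ = n := by
    intro i
    have h1 : ∏ j, (if i = j then (1:ℂ) else (ω ^ (i:ℕ) - ω ^ (j:ℕ))) =
        ∏ j ∈ univ.erase i, (ω ^ (i:ℕ) - ω ^ (j:ℕ)) := by
      rw [← Finset.mul_prod_erase univ _ (mem_univ i), if_pos rfl, one_mul]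
      apply Finset.prod_congr rfl
      intro j hj
      rw [if_neg (Finset.ne_of_mem_erase hj).symm]
    have h2 := Lagrange.eval_nodal_derivative_eval_node_eq (s := univ)
      (v := fun i : Fin n => ω ^ (i : ℕ)) (mem_univ i)
    rw [← hprod, Lagrange.eval_nodal] at h2
    rw [h1, ← h2, derivative_sub, derivative_X_pow, derivative_one, sub_zero, eval_mul, eval_C,
      eval_pow, eval_X, norm_mul, norm_pow, norm_pow, hωn]
    simp
  simp only [W]
  rw [norm_prod, Finset.prod_congr rfl (fun i _ => key i)]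
  simp

theorem norm_W_smul {n : ℕ} (z : Fin n → ℂ) (t : ℂ) (ht : ‖t‖ = 1) :
    ‖W (fun i => z i / t)‖ = ‖W z‖ := by
  simp only [W, norm_prod]
  refine Finset.prod_congr rfl (fun i _ => Finset.prod_congr rfl (fun j _ => ?_))
  split_ifs
  · rfl
  · rw [← sub_div, norm_div, ht, div_one]

/-- key step with a fixed exponent -/
theorem key_pow (P : ℂ[X]) (hP : P.Monic) (m : ℕ) (hm : P.natDegree = m) (hm0 : m ≠ 0)
    (n : ℕ) (hn : n ≠ 0) (K : ℝ) (hK0 : 0 ≤ K)
    (hK : ∀ z : Fin n → ℂ, (∀ i, ‖P.eval (z i)‖ = 1) → ‖W z‖ ≤ K) (k : ℕ) :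
    ((n:ℝ)^n) ^ (4 * (m * n) * k) ≤ (m:ℝ)^n * K ^ (4 * (m * n) * k) := by
  set M := 4 * (m * n) * k with hM
  obtain ⟨ω, hω⟩ : ∃ ω : ℂ, IsPrimitiveRoot ω n := ⟨_, Complex.isPrimitiveRoot_exp n hn⟩
  have hωn : ‖ω‖ = 1 := hω.norm'_eq_one hn
  have hω0 : ω ≠ 0 := by intro h; rw [h, norm_zero] at hωn; norm_num at hωn
  -- the roots
  have hmonic : ∀ s : ℂ, (scaleRoots P s - 1).Monic ∧ (scaleRoots P s - 1).natDegree = m := by
    intro s
    have h1 : (scaleRoots P s).Monic := (monic_scaleRoots_iff s).mpr hP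
    have h2 : (scaleRoots P s).natDegree = m := by rw [natDegree_scaleRoots, hm]
    have h3 : (1 : ℂ[X]).degree < (scaleRoots P s).degree := by
      rw [degree_one, degree_eq_natDegree h1.ne_zero, h2]
      exact_mod_cast Nat.pos_of_ne_zero hm0
    refine ⟨h1.sub_of_left h3, ?_⟩
    rw [natDegree_sub_eq_left_of_natDegree_lt, h2]
    rw [natDegree_one, h2]
    exact Nat.pos_of_ne_zero hm0
  choose ρ hρ using fun s => exists_root_fun _ (hmonic s).1 m (hmonic s).2
  have hps : ∀ j, Differentiable ℂ (fun s => ∑ i, (ρ s i)^j) := by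
    intro j
    refine psum_diff (fun s => scaleRoots P s - 1) ρ hρ (fun i => ?_) j
    simp only [coeff_sub, coeff_scaleRoots]
    fun_prop
  let r : Fin n → ℂ → Fin m → ℂ := fun μ t i => ω ^ (μ:ℕ) * ρ (t / ω ^ (μ:ℕ)) i
  have hr : ∀ μ j, Differentiable ℂ (fun t => ∑ i, (r μ t i)^j) := by
    intro μ j
    have h1 : (fun t => ∑ i, (r μ t i)^j) =
        fun t => (ω ^ (μ:ℕ))^j * (fun s => ∑ i, (ρ s i)^j) (t / ω ^ (μ:ℕ)) := by
      funext t
      simp only [r, mul_pow, ← Finset.mul_sum]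
    rw [h1]
    exact ((hps j).comp (differentiable_id.div_const _)).const_mul _
  let B : ℂ → ℂ := fun t => ∑ e : Fin n → Fin m, MvPolynomial.eval (fun μ => r μ t (e μ)) ((WP n)^M)
  have hB : Differentiable ℂ B := sum_diff _ r hr
  have hBeq : ∀ t, B t = ∑ e : Fin n → Fin m, (W (fun μ => r μ t (e μ)))^M := by
    intro t
    simp only [B, map_pow, eval_WP]
  -- bound on the circle
  have hcirc : ∀ t : ℂ, ‖t‖ = 1 → ‖B t‖ ≤ (m:ℝ)^n * K^M := by
    intro t ht
    have ht0 : t ≠ 0 := by intro h; rw [h, norm_zero] at ht; norm_num at ht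
    rw [hBeq]
    refine (norm_sum_le _ _).trans ?_
    have h1 : ∀ e ∈ (univ : Finset (Fin n → Fin m)), ‖(W (fun μ => r μ t (e μ)))^M‖ ≤ K^M := by
      intro e _
      rw [norm_pow]
      refine pow_le_pow_left₀ (norm_nonneg _) ?_ _
      rw [← norm_W_smul _ t ht]
      apply hK
      intro μ
      have hωμ : ω ^ (μ:ℕ) ≠ 0 := pow_ne_zero _ hω0
      set s := t / ω ^ (μ:ℕ) with hs
      have hsn : ‖s‖ = 1 := by rw [hs, norm_div, norm_pow, hωn, ht, one_pow, div_one]
      have hs0 : s ≠ 0 := by intro h; rw [h, norm_zero] at hsn; norm_num at hsn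
      have h2 : r μ t (e μ) / t = ρ s (e μ) / s := by
        simp only [r]
        rw [← hs]
        rw [hs]
        field_simp
      rw [h2]
      have h3 : (scaleRoots P s).eval (ρ s (e μ)) = 1 := by
        have h4 : (scaleRoots P s - 1).eval (ρ s (e μ)) = 0 := by
          rw [hρ s, eval_prod]
          apply Finset.prod_eq_zero (mem_univ (e μ))
          simp
        rw [eval_sub, eval_one, sub_eq_zero] at h4
        exact h4
      have h5 : (scaleRoots P s).eval (s * (ρ s (e μ) / s)) = s ^ m * P.eval (ρ s (e μ) / s) := by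
        rw [scaleRoots_eval_mul, hm]
      rw [mul_div_cancel₀ _ hs0, h3] at h5
      have h6 := congrArg norm h5
      rw [norm_one, norm_mul, norm_pow, hsn, one_pow, one_mul] at h6
      exact h6.symm
    refine (Finset.sum_le_sum h1).trans ?_
    rw [Finset.sum_const, nsmul_eq_mul, Finset.card_univ, Fintype.card_fun, Fintype.card_fin,
      Fintype.card_fin]
    push_cast
    exact le_refl _
  -- maximum principle
  have hB0 : ‖B 0‖ ≤ (m:ℝ)^n * K^M := by
    refine Complex.norm_le_of_forall_mem_frontier_norm_le (U := Metric.ball (0:ℂ) 1)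
      Metric.isBounded_ball hB.diffContOnCl ?_ ?_
    · intro t ht
      rw [frontier_ball (0:ℂ) one_ne_zero, mem_sphere_zero_iff_norm] at ht
      exact hcirc t ht
    · rw [closure_ball (0:ℂ) one_ne_zero]
      exact Metric.mem_closedBall_self zero_le_one
  refine le_trans ?_ hB0
  -- value at zero
  have h0 : (scaleRoots P 0 - 1) = X^m - 1 := by
    rw [scaleRoots_zero, hP.leadingCoeff, one_smul, hm]
  have hρ0 : ∀ i, (ρ 0 i)^m = 1 := by
    intro i
    have h4 : (scaleRoots P 0 - 1).eval (ρ 0 i) = 0 := by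
      rw [hρ 0, eval_prod]
      apply Finset.prod_eq_zero (mem_univ i)
      simp
    rw [h0, eval_sub, eval_one, eval_pow, eval_X, sub_eq_zero] at h4
    exact h4
  obtain ⟨i0, hi0⟩ : ∃ i0, ρ 0 i0 = 1 := by
    have h4 : (scaleRoots P 0 - 1).eval 1 = 0 := by
      rw [h0]; simp
    rw [hρ 0, eval_prod, Finset.prod_eq_zero_iff] at h4
    obtain ⟨i0, _, hi0⟩ := h4
    refine ⟨i0, ?_⟩
    rw [eval_sub, eval_X, eval_C, sub_eq_zero] at hi0
    exact hi0.symm
  have hmn : m * n ≠ 0 := mul_ne_zero hm0 hn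
  have hreal : ∀ e : Fin n → Fin m, (W (fun μ => r μ 0 (e μ)))^M =
      ((‖W (fun μ => r μ 0 (e μ))‖^M : ℝ) : ℂ) := by
    intro e
    apply W_pow_real _ (m * n) hmn
    intro μ
    simp only [r, zero_div]
    rw [mul_pow, mul_comm m n, pow_mul (ω ^ (μ:ℕ)), ← pow_mul ω, mul_comm (μ:ℕ) n, pow_mul ω,
      hω.pow_eq_one, one_pow, one_pow, one_mul, mul_comm n m, pow_mul, hρ0, one_pow]
  have hB0' : B 0 = ((∑ e : Fin n → Fin m, ‖W (fun μ => r μ 0 (e μ))‖^M : ℝ) : ℂ) := by
    rw [hBeq, Complex.ofReal_sum]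
    exact Finset.sum_congr rfl (fun e _ => hreal e)
  rw [hB0', Complex.norm_real, Real.norm_eq_abs, abs_of_nonneg
    (Finset.sum_nonneg (fun e _ => pow_nonneg (norm_nonneg _) _))]
  have h7 : ‖W (fun μ : Fin n => r μ 0 ((fun _ => i0) μ))‖ = (n:ℝ)^n := by
    rw [← norm_W_roots hn ω hω]
    simp only [r, zero_div, hi0, mul_one]
  rw [← h7]
  exact Finset.single_le_sum (f := fun e : Fin n → Fin m => ‖W (fun μ => r μ 0 (e μ))‖^M)
    (fun e _ => pow_nonneg (norm_nonneg _) _) (mem_univ (fun _ => i0))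

/-- Theorem A: on the lemniscate `|P| = 1` of a monic polynomial there are `n` points whose
product of mutual distances is at least that of the `n`-th roots of unity. -/
theorem theoremA (P : ℂ[X]) (hP : P.Monic) (hm0 : P.natDegree ≠ 0)
    (n : ℕ) (hn : n ≠ 0) (K : ℝ) (hK0 : 0 ≤ K)
    (hK : ∀ z : Fin n → ℂ, (∀ i, ‖P.eval (z i)‖ = 1) → ‖W z‖ ≤ K) :
    (n:ℝ)^n ≤ K := by
  by_contra hlt
  push Not at hlt
  set m := P.natDegree with hm
  have hnn : 0 < (n:ℝ)^n := by positivity
  have h := key_pow P hP m hm.symm hm0 n hn K hK0 hK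
  -- ratio
  set q : ℝ := K / (n:ℝ)^n with hq
  have hq0 : 0 ≤ q := by positivity
  have hq1 : q < 1 := by rw [hq, div_lt_one hnn]; exact hlt
  have hmpos : (0:ℝ) < (m:ℝ)^n := by positivity
  obtain ⟨k, hk⟩ := exists_pow_lt_of_lt_one (show (0:ℝ) < 1 / (m:ℝ)^n by positivity) hq1
  have hexp : k ≤ 4 * (m * n) * k := by
    have : 1 ≤ m * n := Nat.one_le_iff_ne_zero.mpr (mul_ne_zero hm0 hn)
    nlinarith
  have h1 : q ^ (4 * (m * n) * k) ≤ q ^ k := pow_le_pow_of_le_one hq0 hq1.le hexp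
  have h2 : q ^ (4 * (m * n) * k) < 1 / (m:ℝ)^n := lt_of_le_of_lt h1 hk
  have h3 := h k
  rw [hq, div_pow, div_lt_div_iff₀ (by positivity) hmpos] at h2
  linarith

end Pool.Agent.Work.MP_9ec5dc_an
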