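import Pool.Agent.Work.MP_9ec5dc_an.Defs
import Pool.Agent.Work.MP_9ec5dc_an.PartA

set_option autoImplicit false

namespace Pool.Agent.Work.MP_9ec5dc_an

open Polynomial Finset Filter

theorem distProd_nonneg {n : ℕ} (w : Fin n → ℂ) : 0 ≤ distProd w :=
  Finset.prod_nonneg (fun _ _ => Finset.prod_nonneg (fun _ _ => norm_nonneg _))

theorem distProd_sq {n : ℕ} (w : Fin n → ℂ) : ‖W w‖ = distProd w ^ 2 := by
  have h1 : distProd w ^ 2 = ∏ i, ∏ j ∈ Ioi i, ‖w i - w j‖ * ‖w j - w i‖ := by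
    rw [distProd, ← Finset.prod_pow]
    refine Finset.prod_congr rfl (fun i _ => ?_)
    rw [← Finset.prod_pow]
    refine Finset.prod_congr rfl (fun j _ => ?_)
    rw [norm_sub_rev (w j) (w i), sq]
  have h2 := Finset.prod_prod_Ioi_mul_eq_prod_prod_off_diag (fun i j : Fin n => ‖w j - w i‖)
  rw [h1, h2]
  simp only [W, norm_prod]
  refine Finset.prod_congr rfl (fun i _ => ?_)
  rw [← Finset.mul_prod_erase univ _ (mem_univ i), if_pos rfl, norm_one, one_mul]
  have h3 : (univ.erase i : Finset (Fin n)) = {i}ᶜ := by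
    ext j; simp
  rw [h3]
  refine Finset.prod_congr rfl (fun j hj => ?_)
  have hj' : i ≠ j := by
    rw [Finset.mem_compl, Finset.mem_singleton] at hj
    exact fun h => hj h.symm
  rw [if_neg hj']

theorem continuous_distProd (n : ℕ) : Continuous (distProd : (Fin n → ℂ) → ℝ) := by
  unfold distProd
  fun_prop

theorem continuous_W (n : ℕ) : Continuous (W : (Fin n → ℂ) → ℂ) := by
  unfold W
  refine continuous_finsetProd _ (fun i _ => continuous_finsetProd _ (fun j _ => ?_))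
  split_ifs
  · exact continuous_const
  · fun_prop

theorem compact_tuples {E : Set ℂ} (hE : IsCompact E) (n : ℕ) :
    IsCompact {w : Fin n → ℂ | ∀ i, w i ∈ E} := by
  have : {w : Fin n → ℂ | ∀ i, w i ∈ E} = Set.pi Set.univ (fun _ => E) := by
    ext w; simp
  rw [this]
  exact isCompact_univ_pi (fun _ => hE)

theorem bdd {E : Set ℂ} (hE : IsCompact E) (n : ℕ) :
    BddAbove (distProd '' {w : Fin n → ℂ | ∀ i, w i ∈ E}) :=
  ((compact_tuples hE n).image (continuous_distProd n)).bddAbove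

theorem le_max {E : Set ℂ} (hE : IsCompact E) (n : ℕ) (w : Fin n → ℂ) (hw : ∀ i, w i ∈ E) :
    distProd w ≤ maxDistProd E n :=
  le_csSup (bdd hE n) ⟨w, hw, rfl⟩

theorem exists_max {E : Set ℂ} (hE : IsCompact E) (hne : E.Nonempty) (n : ℕ) :
    ∃ w : Fin n → ℂ, (∀ i, w i ∈ E) ∧ distProd w = maxDistProd E n := by
  have h1 : ({w : Fin n → ℂ | ∀ i, w i ∈ E}).Nonempty := by
    obtain ⟨x, hx⟩ := hne
    exact ⟨fun _ => x, fun _ => hx⟩
  obtain ⟨w, hw, h⟩ := ((compact_tuples hE n).image (continuous_distProd n)).sSup_mem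
    (h1.image distProd)
  exact ⟨w, hw, h⟩

theorem max_nonneg (E : Set ℂ) (n : ℕ) : 0 ≤ maxDistProd E n :=
  Real.sSup_nonneg (by rintro _ ⟨w, _, rfl⟩; exact distProd_nonneg w)

/-- splitting off a point -/
theorem W_succAbove {n : ℕ} (w : Fin (n+1) → ℂ) (p : Fin (n+1)) :
    ‖W w‖ = (∏ i : Fin n, ‖w p - w (p.succAbove i)‖)^2 * ‖W (fun i => w (p.succAbove i))‖ := by
  simp only [W]
  rw [Fin.prod_univ_succAbove _ p]
  have h1 : (∏ j, if p = j then (1:ℂ) else (w p - w j)) =
      ∏ i : Fin n, (w p - w (p.succAbove i)) := by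
    rw [Fin.prod_univ_succAbove _ p, if_pos rfl, one_mul]
    refine Finset.prod_congr rfl (fun i _ => ?_)
    rw [if_neg (Fin.succAbove_ne p i).symm]
  have h2 : ∀ i : Fin n, (∏ j, if p.succAbove i = j then (1:ℂ) else (w (p.succAbove i) - w j)) =
      (w (p.succAbove i) - w p) *
        ∏ j : Fin n, if i = j then (1:ℂ) else (w (p.succAbove i) - w (p.succAbove j)) := by
    intro i
    rw [Fin.prod_univ_succAbove _ p, if_neg (Fin.succAbove_ne p i)]
    congr 1
    refine Finset.prod_congr rfl (fun j _ => ?_)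
    simp only [Fin.succAbove_right_inj]
  rw [h1, Finset.prod_congr rfl (fun i _ => h2 i), Finset.prod_mul_distrib, norm_mul, norm_mul,
    norm_prod, norm_prod]
  simp only [norm_sub_rev (w (p.succAbove _)) (w p)]
  ring

/-- Lagrange interpolation bound at Fekete points -/
theorem lagrange_bound {m : ℕ} (w : Fin (m+1) → ℂ) (hinj : Function.Injective w) (c δ : ℝ)
    (hc : 0 < c) (hδ : 0 < δ) (hw : ∀ p, c ≤ ∏ i : Fin m, ‖w p - w (p.succAbove i)‖)
    (x : ℂ) (hx : ∀ p, δ ≤ ‖x - w p‖) (hPx : ‖(Lagrange.nodal univ w).eval x‖ = 1)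
    (Q : ℂ[X]) (hQ : Q.natDegree ≤ m) (S : ℝ) (hS : ∀ p, ‖Q.eval (w p)‖ ≤ S) :
    ‖Q.eval x‖ ≤ (m+1) * (c⁻¹ * δ⁻¹ * S) := by
  have hdeg : Q.degree < (univ : Finset (Fin (m+1))).card := by
    rw [Finset.card_univ, Fintype.card_fin]
    refine lt_of_le_of_lt degree_le_natDegree ?_
    exact_mod_cast Nat.lt_succ_of_le hQ
  have h1 := Lagrange.eq_interpolate (s := univ) (v := w) (hinj.injOn) hdeg
  have hne : ∀ i ∈ (univ : Finset (Fin (m+1))), x ≠ w i := by
    intro i _ h
    have := hx i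
    rw [h, sub_self, norm_zero] at this
    linarith
  rw [h1, Lagrange.eval_interpolate_not_at_node _ hne, norm_mul, hPx, one_mul]
  refine (norm_sum_le _ _).trans ?_
  have hS0 : 0 ≤ S := (norm_nonneg _).trans (hS 0)
  have h2 : ∀ i ∈ (univ : Finset (Fin (m+1))),
      ‖Lagrange.nodalWeight univ w i * (x - w i)⁻¹ * Q.eval (w i)‖ ≤ c⁻¹ * δ⁻¹ * S := by
    intro i _
    rw [norm_mul, norm_mul, norm_inv]
    have h3 : ‖Lagrange.nodalWeight univ w i‖ ≤ c⁻¹ := by
      rw [Lagrange.nodalWeight, Finset.prod_inv_distrib, norm_inv, norm_prod]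
      apply inv_anti₀ hc
      have h4 : ∏ j ∈ univ.erase i, ‖w i - w j‖ = ∏ j : Fin m, ‖w i - w (i.succAbove j)‖ := by
        have h5 : ∏ j, (if i = j then (1:ℝ) else ‖w i - w j‖) =
            ∏ j ∈ univ.erase i, ‖w i - w j‖ := by
          rw [← Finset.mul_prod_erase univ _ (mem_univ i), if_pos rfl, one_mul]
          refine Finset.prod_congr rfl (fun j hj => ?_)
          rw [if_neg (Finset.ne_of_mem_erase hj).symm]
        rw [← h5, Fin.prod_univ_succAbove _ i, if_pos rfl, one_mul]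
        refine Finset.prod_congr rfl (fun j _ => ?_)
        rw [if_neg (Fin.succAbove_ne i j).symm]
      rw [h4]
      exact hw i
    have h6 : ‖x - w i‖⁻¹ ≤ δ⁻¹ := inv_anti₀ hδ (hx i)
    have h7 : 0 ≤ ‖x - w i‖⁻¹ := inv_nonneg.mpr (norm_nonneg _)
    have h8 : 0 ≤ c⁻¹ := inv_nonneg.mpr hc.le
    have h9 : 0 ≤ δ⁻¹ := inv_nonneg.mpr hδ.le
    gcongr
    exact hS i
  refine (Finset.sum_le_sum h2).trans ?_
  rw [Finset.sum_const, Finset.card_univ, Fintype.card_fin, nsmul_eq_mul]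
  push_cast
  exact le_refl _

/-- Bernstein-Walsh type bound: for `x` on the lemniscate, away from the nodes -/
theorem bw_bound {m : ℕ} (w : Fin (m+1) → ℂ) (hinj : Function.Injective w) (c δ κ : ℝ)
    (hc : 0 < c) (hδ : 0 < δ) (hκ : 0 ≤ κ)
    (hw : ∀ p, c ≤ ∏ i : Fin m, ‖w p - w (p.succAbove i)‖)
    (D k : ℕ) (hk : k ≠ 0) (hkD : k * D ≤ m) (hκk : (m+1) * (c⁻¹ * δ⁻¹) ≤ κ ^ k)
    (x : ℂ) (hx : ∀ p, δ ≤ ‖x - w p‖) (hPx : ‖(Lagrange.nodal univ w).eval x‖ = 1)
    (Q : ℂ[X]) (hQ : Q.natDegree ≤ D) (S : ℝ) (hS : ∀ p, ‖Q.eval (w p)‖ ≤ S) :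
    ‖Q.eval x‖ ≤ κ * S := by
  have hS0 : 0 ≤ S := (norm_nonneg _).trans (hS 0)
  have h1 := lagrange_bound w hinj c δ hc hδ hw x hx hPx (Q^k)
    (by
      refine (natDegree_pow_le).trans ?_
      exact (Nat.mul_le_mul_left k hQ).trans hkD) (S^k)
    (by
      intro p
      rw [eval_pow, norm_pow]
      exact pow_le_pow_left₀ (norm_nonneg _) (hS p) k)
  rw [eval_pow, norm_pow] at h1
  have h2 : ‖Q.eval x‖ ^ k ≤ (κ * S)^k := by
    refine h1.trans ?_
    rw [mul_pow, ← mul_assoc]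
    exact mul_le_mul_of_nonneg_right hκk (pow_nonneg hS0 k)
  exact (pow_le_pow_iff_left₀ (norm_nonneg _) (mul_nonneg hκ hS0) hk).mp h2

/-- the one-variable polynomial obtained from `W` -/
noncomputable def Wpoly {n : ℕ} (z : Fin n → ℂ) (μ : Fin n) : ℂ[X] :=
  ∏ i, ∏ j, if i = j then 1 else ((if i = μ then X else C (z i)) - (if j = μ then X else C (z j)))

theorem eval_Wpoly {n : ℕ} (z : Fin n → ℂ) (μ : Fin n) (x : ℂ) :
    (Wpoly z μ).eval x = W (Function.update z μ x) := by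
  simp only [Wpoly, W, eval_prod]
  refine Finset.prod_congr rfl (fun i _ => Finset.prod_congr rfl (fun j _ => ?_))
  by_cases hij : i = j
  · simp [hij]
  · rw [if_neg hij, if_neg hij, eval_sub]
    congr 1
    · by_cases hi : i = μ
      · subst hi; simp
      · simp [hi, Function.update_of_ne hi]
    · by_cases hi : j = μ
      · subst hi; simp
      · simp [hi, Function.update_of_ne hi]

theorem natDegree_Wpoly {n : ℕ} (z : Fin n → ℂ) (μ : Fin n) : (Wpoly z μ).natDegree ≤ n * n := by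
  have h1 : ∀ i j : Fin n, (if i = j then (1 : ℂ[X]) else
      ((if i = μ then X else C (z i)) - (if j = μ then X else C (z j)))).natDegree ≤ 1 := by
    intro i j
    split_ifs
    · simp
    · simp
    · exact (natDegree_sub_le _ _).trans (by simp)
    · exact (natDegree_sub_le _ _).trans (by simp)
    · exact (natDegree_sub_le _ _).trans (by simp)
  refine (natDegree_prod_le _ _).trans ?_
  have h2 : ∀ i ∈ (univ : Finset (Fin n)), (∏ j, (if i = j then (1 : ℂ[X]) else
      ((if i = μ then X else C (z i)) - (if j = μ then X else C (z j))))).natDegree ≤ n := by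
    intro i _
    refine (natDegree_prod_le _ _).trans ?_
    refine (Finset.sum_le_sum (fun j _ => h1 i j)).trans ?_
    simp
  refine (Finset.sum_le_sum h2).trans ?_
  simp

/-- moving all the coordinates to the lemniscate -/
theorem coord (E F : Set ℂ) (hEF : E ⊆ F) (L : Set ℂ) (n : ℕ) (κ M' : ℝ) (hκ : 1 ≤ κ) (hM0 : 0 ≤ M')
    (hM : ∀ z : Fin n → ℂ, (∀ i, z i ∈ F) → ‖W z‖ ≤ M')
    (hBW : ∀ x ∈ L, x ∉ F → ∀ Q : ℂ[X], Q.natDegree ≤ n * n → ∀ S : ℝ,
      (∀ y ∈ E, ‖Q.eval y‖ ≤ S) → ‖Q.eval x‖ ≤ κ * S) (s : Finset (Fin n)) :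
    ∀ z : Fin n → ℂ, (∀ i ∈ s, z i ∈ L) → (∀ i, i ∉ s → z i ∈ F) →
      ‖W z‖ ≤ κ ^ s.card * M' := by
  induction s using Finset.induction_on with
  | empty =>
    intro z _ h2
    simpa using hM z (fun i => h2 i (by simp))
  | insert μ s hμ ih =>
    intro z h1 h2
    rw [Finset.card_insert_of_notMem hμ]
    have hκs : 0 ≤ κ ^ s.card * M' := by positivity
    by_cases hz : z μ ∈ F
    · have h3 := ih z (fun i hi => h1 i (Finset.mem_insert_of_mem hi)) (fun i hi => by
        by_cases hiμ : i = μ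
        · rw [hiμ]; exact hz
        · exact h2 i (by simp [hiμ, hi]))
      refine h3.trans ?_
      rw [pow_succ]
      nlinarith
    · have h3 := hBW (z μ) (h1 μ (Finset.mem_insert_self _ _)) hz (Wpoly z μ) (natDegree_Wpoly z μ)
        (κ ^ s.card * M') (by
          intro y hy
          rw [eval_Wpoly]
          apply ih
          · intro i hi
            have hiμ : i ≠ μ := fun h => hμ (h ▸ hi)
            rw [Function.update_of_ne hiμ]
            exact h1 i (Finset.mem_insert_of_mem hi)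
          · intro i hi
            by_cases hiμ : i = μ
            · subst hiμ; simp only [Function.update_self]; exact hEF hy
            · rw [Function.update_of_ne hiμ]
              exact h2 i (by simp [hiμ, hi]))
      rw [eval_Wpoly, Function.update_eq_self] at h3
      refine h3.trans (le_of_eq ?_)
      rw [pow_succ]; ring

end Pool.Agent.Work.MP_9ec5dc_an
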