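import Pool.Agent.Work.MP_9ec5dc_an.PartC

set_option autoImplicit false

namespace Pool.Agent.Work.MP_9ec5dc_an

open Polynomial Finset Filter

/-- Fekete polynomials: if the transfinite diameter is one, there are monic polynomials with zeros
in `E` and with `|P| ≤ ρ^m` on `E`. -/
theorem fekete_poly (E : Set ℂ) (hE : IsCompact E)
    (hd : Tendsto (nthDiameter E) atTop (nhds 1)) (ρ : ℝ) (hρ : 1 < ρ) :
    ∃ (m : ℕ) (z : Fin m → ℂ), 0 < m ∧ (∀ i, z i ∈ E) ∧ ∀ x ∈ E, ∏ i, ‖x - z i‖ ≤ ρ ^ m := by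
  have hρ0 : 0 < ρ := by linarith
  have hlim : Tendsto (fun n : ℕ => ((maxDistProd E n)⁻¹) ^ (1 / ((n:ℝ) * ((n:ℝ) - 1) / 2)))
      atTop (nhds 1) := by
    have h1 := hd.inv₀ one_ne_zero
    rw [inv_one] at h1
    refine h1.congr (fun n => ?_)
    rw [nthDiameter, Real.inv_rpow (max_nonneg E n)]
  obtain ⟨m, hm, hVm, hVm1, hq⟩ := growth (fun n => (maxDistProd E n)⁻¹)
    (fun n => inv_nonneg.mpr (max_nonneg E n)) hlim ρ⁻¹ (by positivity)
    (inv_lt_one_of_one_lt₀ hρ) 1
  have hV : 0 < maxDistProd E m := inv_pos.mp hVm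
  have hV1 : 0 < maxDistProd E (m+1) := inv_pos.mp hVm1
  have hne : E.Nonempty := by
    by_contra hemp
    rw [Set.not_nonempty_iff_eq_empty] at hemp
    have h3 : {w : Fin (m+1) → ℂ | ∀ i, w i ∈ E} = ∅ := by
      rw [hemp]
      ext w
      simp only [Set.mem_empty_iff_false]
      constructor
      · intro hw
        exact (hw 0).elim
      · intro hw
        exact hw.elim
    rw [maxDistProd, h3, Set.image_empty, Real.sSup_empty] at hV1
    exact lt_irrefl _ hV1
  obtain ⟨z, hz, hzmax⟩ := exists_max hE hne m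
  refine ⟨m, z, hm, hz, ?_⟩
  intro x hx
  set PP := ∏ i, ‖x - z i‖ with hPP
  have hPP0 : 0 ≤ PP := Finset.prod_nonneg (fun _ _ => norm_nonneg _)
  -- the tuple (x, z)
  have h1 := W_succAbove (Fin.cons x z : Fin (m+1) → ℂ) 0
  simp only [Fin.cons_zero, Fin.zero_succAbove, Fin.cons_succ] at h1
  rw [distProd_sq, distProd_sq, ← hPP, ← mul_pow, hzmax] at h1
  have h2 : distProd (Fin.cons x z : Fin (m+1) → ℂ) = PP * maxDistProd E m :=
    (pow_left_inj₀ (distProd_nonneg _) (mul_nonneg hPP0 hV.le) two_ne_zero).mp h1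
  have h3 : distProd (Fin.cons x z : Fin (m+1) → ℂ) ≤ maxDistProd E (m+1) := by
    apply le_max hE
    intro i
    refine Fin.cases ?_ (fun j => ?_) i
    · exact hx
    · exact hz j
  rw [h2] at h3
  -- from the growth lemma
  have h4 : maxDistProd E (m+1) ≤ ρ ^ m * maxDistProd E m := by
    rw [inv_pow, ← mul_inv] at hq
    have := inv_le_inv₀ (a := ρ ^ m * maxDistProd E m) (b := maxDistProd E (m+1))
      (by positivity) hV1
    exact this.mp hq
  exact le_of_mul_le_mul_right (h3.trans h4) hV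

end Pool.Agent.Work.MP_9ec5dc_an
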